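import Mathlib
import Pool.Agent.H792R3.SpecMeas

/-!
Spectral measures of bounded selfadjoint operators: moments, support and resolvent.
-/

set_option autoImplicit false

namespace Pool.Agent.HL274.GW

open scoped ENNReal InnerProductSpace
open MeasureTheory

variable {X : Type} [NormedAddCommGroup X] [InnerProductSpace ℂ X] [CompleteSpace X]

/-- the kernel `1 / ((x - l)^2 + e^2)` -/
noncomputable def kq (l e x : ℝ) : ℝ := 1 / ((x - l) ^ 2 + e ^ 2)

/-- the kernel `(l - x) / ((x - l)^2 + e^2)` -/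
noncomputable def kg (l e x : ℝ) : ℝ := (l - x) / ((x - l) ^ 2 + e ^ 2)

theorem den_pos (l : ℝ) {e : ℝ} (he : e ≠ 0) (x : ℝ) : 0 < (x - l) ^ 2 + e ^ 2 := by positivity

theorem kq_cont (l : ℝ) {e : ℝ} (he : e ≠ 0) : Continuous (kq l e) := by
  unfold kq
  exact continuous_const.div (by fun_prop) (fun x => (den_pos l he x).ne')

theorem kg_cont (l : ℝ) {e : ℝ} (he : e ≠ 0) : Continuous (kg l e) := by
  unfold kg
  exact (by fun_prop : Continuous fun x : ℝ => l - x).div (by fun_prop)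
    (fun x => (den_pos l he x).ne')

theorem res_exists (A : X →L[ℂ] X) (hA : IsSelfAdjoint A) (φ : X) (l e : ℝ) (he : e ≠ 0) :
    A (-(cfc (kg l e) A φ) + (Complex.I * e) • cfc (kq l e) A φ) -
      ((l : ℂ) + Complex.I * e) • (-(cfc (kg l e) A φ) + (Complex.I * e) • cfc (kq l e) A φ) = φ := by
  have hq := kq_cont l he
  have hg := kg_cont l he
  have h1 : A * cfc (kq l e) A = (l : ℂ) • cfc (kq l e) A - cfc (kg l e) A := by
    have e1 : A * cfc (kq l e) A = cfc (fun x => x * kq l e x) A := by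
      rw [cfc_mul (fun x => x) (kq l e) A (by fun_prop) hq.continuousOn, cfc_id' ℝ A hA]
    have e2 : (l : ℂ) • cfc (kq l e) A = cfc (fun x => l * kq l e x) A := by
      rw [cfc_const_mul l (kq l e) A hq.continuousOn]
      exact (RCLike.real_smul_eq_coe_smul (K := ℂ) l _).symm
    rw [e1, e2, ← cfc_sub (fun x => l * kq l e x) (kg l e) A (by fun_prop) hg.continuousOn]
    apply cfc_congr
    intro x _
    simp only [kq, kg]
    have := (den_pos l he x).ne'
    field_simp
    ring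
  have h2 : A * cfc (kg l e) A = (l : ℂ) • cfc (kg l e) A - 1 + ((e : ℂ) ^ 2) • cfc (kq l e) A := by
    have e1 : A * cfc (kg l e) A = cfc (fun x => x * kg l e x) A := by
      rw [cfc_mul (fun x => x) (kg l e) A (by fun_prop) hg.continuousOn, cfc_id' ℝ A hA]
    have e2 : (l : ℂ) • cfc (kg l e) A = cfc (fun x => l * kg l e x) A := by
      rw [cfc_const_mul l (kg l e) A hg.continuousOn]
      exact (RCLike.real_smul_eq_coe_smul (K := ℂ) l _).symm
    have e3 : ((e : ℂ) ^ 2) • cfc (kq l e) A = cfc (fun x => e ^ 2 * kq l e x) A := by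
      rw [cfc_const_mul (e ^ 2) (kq l e) A hq.continuousOn]
      rw [show ((e : ℂ) ^ 2) = ((e ^ 2 : ℝ) : ℂ) by push_cast; rfl]
      exact (RCLike.real_smul_eq_coe_smul (K := ℂ) (e ^ 2) (cfc (kq l e) A)).symm
    have e4 : (1 : X →L[ℂ] X) = cfc (fun _ : ℝ => (1 : ℝ)) A := (cfc_const_one ℝ A hA).symm
    rw [e1, e2, e3, e4, ← cfc_sub (fun x => l * kg l e x) (fun _ => 1) A (by fun_prop) (by fun_prop),
      ← cfc_add A (fun x => l * kg l e x - 1) (fun x => e ^ 2 * kq l e x) (by fun_prop)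
        (by fun_prop)]
    apply cfc_congr
    intro x _
    simp only [kq, kg]
    have := (den_pos l he x).ne'
    field_simp
    ring
  have h1' : A (cfc (kq l e) A φ) = (l : ℂ) • cfc (kq l e) A φ - cfc (kg l e) A φ := by
    have := congrArg (fun T : X →L[ℂ] X => T φ) h1
    simpa using this
  have h2' : A (cfc (kg l e) A φ) = (l : ℂ) • cfc (kg l e) A φ - φ +
      ((e : ℂ) ^ 2) • cfc (kq l e) A φ := by
    have := congrArg (fun T : X →L[ℂ] X => T φ) h2
    simpa using this
  have hI : Complex.I * Complex.I = -1 := Complex.I_mul_I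
  have e5 : (e : ℂ) ^ 2 = -((Complex.I * (e : ℂ)) * (Complex.I * e)) := by
    calc (e : ℂ) ^ 2 = -((Complex.I * Complex.I) * (e : ℂ) ^ 2) := by rw [hI]; ring
      _ = _ := by ring
  rw [map_add, map_neg, map_smul, h1', h2', e5]
  module

theorem spec_abs (A : X →L[ℂ] X) (hA : IsSelfAdjoint A) (φ : X) (R : ℝ) (hR : ‖A‖ ≤ R) :
    ∃ μ : Measure ℝ, IsFiniteMeasure μ ∧ (∀ f : ℝ → ℝ, Continuous f → Integrable f μ) ∧
      (∀ k : ℕ, ((∫ x, x ^ k ∂μ : ℝ) : ℂ) = inner ℂ φ ((A ^ k) φ)) ∧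
      μ {x | R < |x|} = 0 ∧
      ∀ l e : ℝ, e ≠ 0 → ∃ ψ : X, A ψ - ((l : ℂ) + Complex.I * e) • ψ = φ ∧
        inner ℂ φ ψ = -((∫ x, kg l e x ∂μ : ℝ) : ℂ) + Complex.I * e * ((∫ x, kq l e x ∂μ : ℝ) : ℂ) := by
  obtain ⟨μ, hμ, hf⟩ := Pool.Agent.H792R3.exists_specMeas A hA φ
  refine ⟨μ, hμ, fun f h => (hf f h).1, ?_, ?_, ?_⟩
  · intro k
    rw [(hf (fun x => x ^ k) (by fun_prop)).2]
    rw [show cfc (fun x : ℝ => x ^ k) A = A ^ k from cfc_pow_id (R := ℝ) A k hA]
  · have hc : Continuous (fun x : ℝ => max (|x| - R) 0) := by fun_prop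
    have h := (hf _ hc).2
    have h1 : cfc (fun x : ℝ => max (|x| - R) 0) A = 0 := by
      have h2 : cfc (fun x : ℝ => max (|x| - R) 0) A = cfc (fun _ : ℝ => (0 : ℝ)) A := by
        apply cfc_congr
        intro x hx
        have h3 : ‖x‖ ≤ ‖A‖ := by
          have h4 := spectrum.norm_le_norm_mul_of_mem hx
          have h5 : ‖(1 : X →L[ℂ] X)‖ ≤ 1 := ContinuousLinearMap.norm_id_le
          nlinarith [norm_nonneg A]
        rw [Real.norm_eq_abs] at h3
        simp only
        rw [max_eq_right]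
        linarith
      rw [h2, cfc_const_zero ℝ A]
    rw [h1] at h
    have h2 : ∫ x, max (|x| - R) 0 ∂μ = 0 := by
      have : ((∫ x, max (|x| - R) 0 ∂μ : ℝ) : ℂ) = 0 := by
        rw [h]
        simp
      exact_mod_cast this
    have h3' := (integral_eq_zero_iff_of_nonneg (f := fun x => max (|x| - R) 0)
      (fun x => le_max_right _ _) (hf _ hc).1).1 h2
    have h3 : μ {x | ¬ (max (|x| - R) 0 = 0)} = 0 := h3'
    refine measure_mono_null ?_ h3
    intro x hx
    have hx' : R < |x| := hx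
    change ¬ (max (|x| - R) 0 = 0)
    rw [max_eq_left (by linarith)]
    intro h
    linarith
  · intro l e he
    refine ⟨_, res_exists A hA φ l e he, ?_⟩
    rw [inner_add_right, inner_neg_right, inner_smul_right, (hf _ (kg_cont l he)).2,
      (hf _ (kq_cont l he)).2]

end Pool.Agent.HL274.GW
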