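import Pool.Agent.HL274.GW.Data

/-!
Small blocks occur for finitely many values only.
-/

set_option autoImplicit false

namespace Pool.Agent.HL274.GW

open scoped ENNReal Topology
open Polynomial

variable {D : ℕ}

/-- the recursion for the pairs of polynomials -/
noncomputable def PhiP (f : Fin D → ℝ[X] × ℝ[X]) : ℝ[X] × ℝ[X] :=
  (X * ∏ i, (f i).1 - ∑ i, (f i).2 * ∏ j ∈ Finset.univ.erase i, (f j).1, ∏ i, (f i).1)

/-- the pairs of polynomials of the blocks of size at most `n` -/
noncomputable def SP (D : ℕ) : ℕ → Set (ℝ[X] × ℝ[X])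
  | 0 => ∅
  | n + 1 => PhiP '' {f : Fin D → ℝ[X] × ℝ[X] | ∀ i, f i ∈ insert ((1, 0) : ℝ[X] × ℝ[X]) (SP D n)}

theorem SP_finite (n : ℕ) : (SP D n).Finite := by
  induction n with
  | zero => exact Set.finite_empty
  | succ n ih =>
    have h : {f : Fin D → ℝ[X] × ℝ[X] | ∀ i, f i ∈ insert ((1, 0) : ℝ[X] × ℝ[X]) (SP D n)} =
        Set.pi Set.univ fun _ => insert ((1, 0) : ℝ[X] × ℝ[X]) (SP D n) := by
      ext f; simp
    rw [SP, h]
    exact (Set.Finite.pi fun _ => ih.insert _).image _

theorem SP_monic (n : ℕ) : ∀ p ∈ insert ((1, 0) : ℝ[X] × ℝ[X]) (SP D n),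
    p.1.Monic ∧ p.2.degree < p.1.degree := by
  induction n with
  | zero =>
    intro p hp
    simp only [SP, Set.mem_insert_iff, Set.mem_empty_iff_false, or_false] at hp
    subst hp
    refine ⟨monic_one, ?_⟩
    simp
  | succ n ih =>
    intro p hp
    rcases hp with rfl | ⟨f, hf, rfl⟩
    · refine ⟨monic_one, ?_⟩
      simp
    · have hm : ∀ i, (f i).1.Monic := fun i => (ih _ (hf i)).1
      have hd : ∀ i, (f i).2.degree < (f i).1.degree := fun i => (ih _ (hf i)).2
      have hM : (∏ i, (f i).1).Monic := monic_prod_of_monic _ _ fun i _ => hm i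
      have hsum : (∑ i, (f i).2 * ∏ j ∈ Finset.univ.erase i, (f j).1).degree <
          (∏ i, (f i).1).degree := by
        refine lt_of_le_of_lt (degree_sum_le _ _) ?_
        rw [Finset.sup_lt_iff (by rw [bot_lt_iff_ne_bot, Ne, degree_eq_bot]; exact hM.ne_zero)]
        intro i _
        have h1 : (∏ j ∈ Finset.univ.erase i, (f j).1).Monic :=
          monic_prod_of_monic _ _ fun j _ => hm j
        have h2 : (∏ i, (f i).1).degree = (f i).1.degree +
            (∏ j ∈ Finset.univ.erase i, (f j).1).degree := by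
          rw [← Finset.mul_prod_erase Finset.univ (fun j => (f j).1) (Finset.mem_univ i)]
          exact degree_mul
        rw [h2, degree_mul]
        refine WithBot.add_lt_add_right ?_ (hd i)
        rw [Ne, degree_eq_bot]
        exact h1.ne_zero
      have hX : (∏ i, (f i).1).degree < (X * ∏ i, (f i).1).degree := by
        rw [degree_mul, degree_X, degree_eq_natDegree hM.ne_zero]
        norm_cast
        omega
      refine ⟨?_, ?_⟩
      · exact (monic_X.mul hM).sub_of_left (hsum.trans hX)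
      · simp only [PhiP]
        rw [degree_sub_eq_left_of_degree_lt (hsum.trans hX)]
        exact hX

/-- the excluded values -/
noncomputable def Lam (D n : ℕ) : Set ℝ := ⋃ p ∈ SP D n, {x | p.1.eval x = 0}

theorem Lam_finite (D n : ℕ) : (Lam D n).Finite := by
  refine (SP_finite n).biUnion fun p hp => ?_
  have hm := (SP_monic n p (Set.mem_insert_of_mem _ hp)).1
  have : {x | p.1.eval x = 0} = {x | p.1.IsRoot x} := rfl
  rw [this]
  exact finite_setOf_isRoot hm.ne_zero

theorem RR_cases (l : ℝ) (s : EE) (hm : (RR l s).2.2.1 = 0) (hq : (RR l s).2.1 ≠ ∞) :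
    ((RR l s).1 = 0 ∧ (RR l s).2.2.2 = 0 ∧ s.2.2.1 ≠ 0) ∨
    (s.2.2.1 = 0 ∧ s.2.1 ≠ ∞ ∧ s.1 ≠ l ∧ (RR l s).1 = (l - s.1)⁻¹ ∧
      (RR l s).2.2.2 = 1 + s.2.2.2 ∧
      (RR l s).2.1 = (1 + s.2.1) * (ENNReal.ofReal ((l - s.1) ^ 2))⁻¹) := by
  unfold RR at hm hq ⊢
  split_ifs at hm hq ⊢ with h1 h2 h3
  · exact Or.inl ⟨rfl, rfl, h1⟩
  · exact absurd rfl hq
  · exact absurd rfl hq
  · push Not at h1
    exact Or.inr ⟨h1, h2, h3, rfl, rfl, rfl⟩

theorem block_poly (n : ℕ) (l : ℝ) (hl : ∀ m < n, l ∉ Lam D m) : ∀ t : Cfg D,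
    (sd l t).2.2.1 = 0 → (sd l t).2.1 ≠ ∞ → 1 + (sd l t).2.2.2 ≤ n →
    ∃ p ∈ SP D n, p.2.eval l ≠ 0 ∧ (l - (sd l t).1) * p.2.eval l = p.1.eval l := by
  induction n with
  | zero =>
    intro t _ _ h
    simp at h
  | succ n ih =>
    intro t hm hq hj
    have hl' := ih fun m hm => hl m (by omega)
    have hln := hl n (by omega)
    set k := (t [] : ℕ) with hk
    have hkD : k ≤ D := by have := (t []).2; omega
    have c1 : (sd l t).1 = ∑ a ∈ Finset.range k, (xd l (sh t a)).1 := by
      unfold sd; rw [Prod.fst_sum]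
    have c2 : (sd l t).2.1 = ∑ a ∈ Finset.range k, (xd l (sh t a)).2.1 := by
      unfold sd; rw [Prod.snd_sum, Prod.fst_sum]
    have c3 : (sd l t).2.2.1 = ∑ a ∈ Finset.range k, (xd l (sh t a)).2.2.1 := by
      unfold sd; rw [Prod.snd_sum, Prod.snd_sum, Prod.fst_sum]
    have c4 : (sd l t).2.2.2 = ∑ a ∈ Finset.range k, (xd l (sh t a)).2.2.2 := by
      unfold sd; rw [Prod.snd_sum, Prod.snd_sum, Prod.snd_sum]
    -- the children
    have hch : ∀ a ∈ Finset.range k, ∃ p ∈ insert ((1, 0) : ℝ[X] × ℝ[X]) (SP D n),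
        p.1.eval l ≠ 0 ∧ (xd l (sh t a)).1 * p.1.eval l = p.2.eval l := by
      intro a ha
      have hma : (xd l (sh t a)).2.2.1 = 0 := by
        rw [c3] at hm
        exact (Finset.sum_eq_zero_iff.1 hm) a ha
      have hqa : (xd l (sh t a)).2.1 ≠ ∞ := by
        rw [c2] at hq
        exact ENNReal.sum_ne_top.1 hq a ha
      rw [xd_rec] at hma hqa
      have hja : (xd l (sh t a)).2.2.2 ≤ n := by
        have h1 : (xd l (sh t a)).2.2.2 ≤ (sd l t).2.2.2 := by
          rw [c4]
          exact Finset.single_le_sum (f := fun a => (xd l (sh t a)).2.2.2)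
            (fun _ _ => zero_le') ha
        have h2 : (1 : ℝ≥0∞) + (xd l (sh t a)).2.2.2 ≤ 1 + (n : ℝ≥0∞) := by
          refine (add_le_add_right h1 1).trans (hj.trans ?_)
          push_cast
          rw [add_comm]
        exact (ENNReal.add_le_add_iff_left ENNReal.one_ne_top).1 h2
      rcases RR_cases l _ hma hqa with ⟨e1, -, -⟩ | ⟨e1, e2, e3, e4, e5, -⟩
      · refine ⟨(1, 0), Set.mem_insert _ _, by simp, ?_⟩
        rw [xd_rec, e1]
        simp
      · rw [xd_rec, e5] at hja
        obtain ⟨p, hp, h1, h2⟩ := hl' (sh t a) e1 e2 hja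
        have h3 : p.1.eval l ≠ 0 := by
          intro h
          exact hln (Set.mem_biUnion hp h)
        refine ⟨p, Set.mem_insert_of_mem _ hp, h3, ?_⟩
        rw [xd_rec, e4, ← h2]
        have h4 : l - (sd l (sh t a)).1 ≠ 0 := sub_ne_zero.2 (Ne.symm e3)
        field_simp
    choose! F hF1 hF2 hF3 using hch
    let f : Fin D → ℝ[X] × ℝ[X] := fun i => if (i : ℕ) < k then F i else (1, 0)
    have hf1 : ∀ i, f i ∈ insert ((1, 0) : ℝ[X] × ℝ[X]) (SP D n) := by
      intro i
      simp only [f]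
      split_ifs with h
      · exact hF1 i (Finset.mem_range.2 h)
      · exact Set.mem_insert _ _
    have hf2 : ∀ i, (f i).1.eval l ≠ 0 := by
      intro i
      simp only [f]
      split_ifs with h
      · exact hF2 i (Finset.mem_range.2 h)
      · simp
    have hsum : (sd l t).1 = ∑ i, (f i).2.eval l / (f i).1.eval l := by
      rw [c1, ← Fin.sum_univ_eq_sum_range]
      have h1 : ∀ i : Fin D, (f i).2.eval l / (f i).1.eval l =
          if (i : ℕ) < k then (xd l (sh t i)).1 else 0 := by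
        intro i
        have h2 := hf2 i
        simp only [f] at h2 ⊢
        split_ifs with h
        · rw [if_pos h] at h2
          rw [div_eq_iff h2]
          exact (hF3 i (Finset.mem_range.2 h)).symm
        · simp
      simp_rw [h1]
      rw [Fin.sum_univ_eq_sum_range (fun a => if a < k then (xd l (sh t a)).1 else 0) D,
        Fin.sum_univ_eq_sum_range (fun a => (xd l (sh t a)).1) k, ← Finset.sum_filter]
      refine Finset.sum_congr ?_ fun _ _ => rfl
      ext b
      simp only [Finset.mem_range, Finset.mem_filter]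
      omega
    refine ⟨PhiP f, ⟨f, hf1, rfl⟩, ?_, ?_⟩
    · simp only [PhiP]
      rw [eval_prod]
      exact Finset.prod_ne_zero_iff.2 fun i _ => hf2 i
    · simp only [PhiP]
      rw [eval_sub, eval_mul, eval_X, eval_prod, eval_finset_sum, hsum, sub_mul, Finset.sum_mul]
      congr 1
      refine Finset.sum_congr rfl fun i _ => ?_
      rw [eval_mul, eval_prod, ← Finset.mul_prod_erase Finset.univ (fun j => (f j).1.eval l)
        (Finset.mem_univ i)]
      have := hf2 i
      field_simp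

theorem block_large (n : ℕ) (l : ℝ) (hl : ∀ m ≤ n, l ∉ Lam D m) (t : Cfg D)
    (hm : (sd l t).2.2.1 = 0) (hq : (sd l t).2.1 ≠ ∞) (hg : (sd l t).1 = l) :
    (n : ℝ≥0∞) < 1 + (sd l t).2.2.2 := by
  by_contra hcon
  push Not at hcon
  obtain ⟨p, hp, h1, h2⟩ := block_poly n l (fun m hm => hl m hm.le) t hm hq hcon
  rw [hg, sub_self, zero_mul] at h2
  exact hl n le_rfl (Set.mem_biUnion hp h2.symm)

end Pool.Agent.HL274.GW
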