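import Pool.Agent.HL274.GW.Nu

/-!
From unbounded to bounded numbers of children.
-/

set_option autoImplicit false

namespace Pool.Agent.HL274.GW

open scoped ENNReal Topology
open MeasureTheory Filter ProbabilityTheory

/-- truncation -/
def clip (D n : ℕ) : Fin (D + 1) := ⟨min n D, by omega⟩

theorem clip_val (D n : ℕ) (h : n ≤ D) : (clip D n : ℕ) = n := by
  simp [clip, h]

theorem meas_clip (D : ℕ) : Measurable (clip D) := measurable_of_countable _

theorem clip_ae {Ω : Type*} [MeasurableSpace Ω] (μ : Measure Ω) [IsProbabilityMeasure μ]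
    (X : Ω → ℕ) (f : ℕ → ℝ≥0∞) (hf : ∀ k : ℕ, μ {ω | X ω = k} = f k) (D : ℕ)
    (hD : ∀ k, D < k → f k = 0) : ∀ᵐ ω ∂μ, X ω ≤ D := by
  rw [ae_iff]
  have h : {ω | ¬ X ω ≤ D} ⊆ ⋃ k : ℕ, {ω | X ω = k ∧ D < k} := by
    intro ω hω
    rw [Set.mem_iUnion]
    exact ⟨X ω, rfl, not_le.1 hω⟩
  refine measure_mono_null h (measure_iUnion_null fun k => ?_)
  by_cases hk : D < k
  · refine measure_mono_null ?_ ((hf k).trans (hD k hk))
    intro ω hω
    exact hω.1
  · have : {ω | X ω = k ∧ D < k} = ∅ := by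
      ext ω
      simp [hk]
    rw [this, measure_empty]

theorem clip_law {Ω : Type*} [MeasurableSpace Ω] (μ : Measure Ω) [IsProbabilityMeasure μ]
    (X : Ω → ℕ) (hX : Measurable X) (f : ℕ → ℝ≥0∞) (hf : ∀ k : ℕ, μ {ω | X ω = k} = f k) (D : ℕ)
    (hD : ∀ k, D < k → f k = 0) (k : Fin (D + 1)) :
    (μ.map (fun ω => clip D (X ω))) {k} = f k := by
  have hm : Measurable fun ω => clip D (X ω) := (meas_clip D).comp hX
  rw [Measure.map_apply hm (measurableSet_singleton k), ← hf k]
  refine measure_congr ?_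
  filter_upwards [clip_ae μ X f hf D hD] with ω hω
  have : (clip D (X ω) = k) = (X ω = (k : ℕ)) := by
    rw [Fin.ext_iff, clip_val D _ hω]
  exact this

end Pool.Agent.HL274.GW
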