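import Pool.Agent.HL274.GW.Step

/-!
The additive data of the branches and their recursion.
-/

set_option autoImplicit false

namespace Pool.Agent.HL274.GW

open scoped ENNReal Topology
open MeasureTheory Filter

variable {D : ℕ}

/-- the data: value, energy, mass, size -/
abbrev EE := ℝ × (ℝ≥0∞ × (ℝ≥0∞ × ℝ≥0∞))

open Classical in
/-- the data of a branch in terms of the sum of the data of its branches -/
noncomputable def RR (l : ℝ) (s : EE) : EE :=
  if s.2.2.1 ≠ 0 then (0, ((s.2.2.1)⁻¹, (0, 0)))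
  else if s.2.1 = ∞ then (0, (∞, (0, 0)))
  else if s.1 = l then (0, (∞, ((1 + s.2.1)⁻¹, 0)))
  else ((l - s.1)⁻¹, ((1 + s.2.1) * (ENNReal.ofReal ((l - s.1) ^ 2))⁻¹, (0, 1 + s.2.2.2)))

/-- mass -/
noncomputable def md (l : ℝ) (t : Cfg D) : ℝ≥0∞ := mu t {l}

/-- energy -/
noncomputable def qd (l : ℝ) (t : Cfg D) : ℝ≥0∞ := Qm (mu t) l

open Classical in
/-- value -/
noncomputable def gd (l : ℝ) (t : Cfg D) : ℝ := if qd l t = ∞ then 0 else ∫ x, 1 / (l - x) ∂(mu t)

theorem limS_t (l : ℝ) (t : Cfg D) :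
    LimS (fun n => Gt t l (ep n)) (fun n => Qt t l (ep n)) (gd l t) (qd l t) ((mu t).real {l}) := by
  refine ⟨fun n => ?_, lim_q (mu t) l, lim_m (mu t) l, lim_0 (mu t) l, fun h => ?_, fun h => ?_⟩
  · refine integral_nonneg fun x => ?_
    unfold kq
    have := (den_pos l (ep_ne n) x).le
    positivity
  · unfold gd
    rw [if_neg h]
    exact lim_g (mu t) l h
  · unfold gd
    rw [if_neg h]
    exact lim_g' (mu t) l h

theorem md_le (l : ℝ) (t : Cfg D) : md l t ≤ 1 := prob_le_one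

theorem md_real (l : ℝ) (t : Cfg D) : md l t = ENNReal.ofReal ((mu t).real {l}) := by
  unfold md Measure.real
  rw [ENNReal.ofReal_toReal]
  exact measure_ne_top _ _

/-- the recursion, without the sizes -/
theorem data3 (l : ℝ) (t : Cfg D) :
    let g := ∑ a ∈ Finset.range (t [] : ℕ), gd l (sh t a)
    let q := ∑ a ∈ Finset.range (t [] : ℕ), qd l (sh t a)
    let m := ∑ a ∈ Finset.range (t [] : ℕ), md l (sh t a)
    (m ≠ 0 → gd l t = 0 ∧ qd l t = m⁻¹ ∧ md l t = 0) ∧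
    (m = 0 → q = ∞ → gd l t = 0 ∧ qd l t = ∞ ∧ md l t = 0) ∧
    (m = 0 → q ≠ ∞ → g = l → gd l t = 0 ∧ qd l t = ∞ ∧ md l t = (1 + q)⁻¹) ∧
    (m = 0 → q ≠ ∞ → g ≠ l → gd l t = (l - g)⁻¹ ∧
      qd l t = (1 + q) * (ENNReal.ofReal ((l - g) ^ 2))⁻¹ ∧ md l t = 0) := by
  intro g q m
  have hS := LimS.sum (Finset.range (t [] : ℕ)) (fun a n => Gt (sh t a) l (ep n))
    (fun a n => Qt (sh t a) l (ep n)) (fun a => gd l (sh t a)) (fun a => qd l (sh t a))
    (fun a => (mu (sh t a)).real {l}) (fun a _ => limS_t l (sh t a))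
  have hst := step (l := l) hS (limS_t l t) (Qm_ne_zero _ _)
    (fun n => (real_rec t l (ep n) (ep_ne n)).1) (fun n => (real_rec t l (ep n) (ep_ne n)).2)
  obtain ⟨ha, hb, hc, hd⟩ := hst
  set mr := ∑ a ∈ Finset.range (t [] : ℕ), (mu (sh t a)).real {l} with hmr
  have hmr0 : 0 ≤ mr := Finset.sum_nonneg fun a _ => measureReal_nonneg
  have hm : m = ENNReal.ofReal mr := by
    rw [ENNReal.ofReal_sum_of_nonneg fun a _ => measureReal_nonneg]
    exact Finset.sum_congr rfl fun a _ => md_real l _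
  have hm0 : m = 0 ↔ mr = 0 := by
    rw [hm, ENNReal.ofReal_eq_zero]
    constructor
    · intro h; linarith
    · intro h; linarith
  have htop : ∀ t' : Cfg D, qd l t' = ∞ → gd l t' = 0 := by
    intro t' h
    unfold gd
    rw [if_pos h]
  have hmd : ∀ t' : Cfg D, (mu t').real {l} = 0 → md l t' = 0 := by
    intro t' h
    rw [md_real, h, ENNReal.ofReal_zero]
  refine ⟨fun h => ?_, fun h h1 => ?_, fun h h1 h2 => ?_, fun h h1 h2 => ?_⟩
  · obtain ⟨e1, e2, e3⟩ := ha (fun h' => h (hm0.2 h'))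
    refine ⟨e2, ?_, hmd _ e3⟩
    have hpos : 0 < mr := lt_of_le_of_ne hmr0 (fun h' => h (hm0.2 h'.symm))
    rw [hm, ← ENNReal.ofReal_inv_of_pos hpos, ← one_div]
    exact e1
  · obtain ⟨e1, e2⟩ := hb (hm0.1 h) h1
    exact ⟨htop _ e1, e1, hmd _ e2⟩
  · obtain ⟨e1, e2⟩ := hd h1 h2.symm
    refine ⟨htop _ e1, e1, ?_⟩
    have hpos : 0 < 1 + q.toReal := by have := ENNReal.toReal_nonneg (a := q); linarith
    rw [md_real, e2, one_div, ENNReal.ofReal_inv_of_pos hpos,
      ENNReal.ofReal_add zero_le_one ENNReal.toReal_nonneg, ENNReal.ofReal_one,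
      ENNReal.ofReal_toReal h1]
  · obtain ⟨e1, e2, e3⟩ := hc h1 (Ne.symm h2)
    refine ⟨by rw [e2, one_div], ?_, hmd _ e3⟩
    have hpos : 0 < (l - g) ^ 2 := by
      have : l - g ≠ 0 := sub_ne_zero.2 (Ne.symm h2)
      positivity
    have hq : 0 ≤ 1 + q.toReal := by have := ENNReal.toReal_nonneg (a := q); linarith
    have e1' : qd l t = ENNReal.ofReal ((1 + q.toReal) / (l - g) ^ 2) := e1
    rw [e1', ENNReal.ofReal_div_of_pos hpos,
      ENNReal.ofReal_add zero_le_one ENNReal.toReal_nonneg, ENNReal.ofReal_one,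
      ENNReal.ofReal_toReal h1, ENNReal.div_eq_inv_mul, mul_comm]

/-- a branch which passes its block on -/
def good (l : ℝ) (t : Cfg D) : Prop := qd l t ≠ ∞ ∧ gd l t ≠ 0

open Classical in
/-- truncated sizes -/
noncomputable def Jh (l : ℝ) : ℕ → Cfg D → ℝ≥0∞
  | 0, _ => 0
  | h + 1, t => if good l t then 1 + ∑ a ∈ Finset.range (t [] : ℕ), Jh l h (sh t a) else 0

/-- the size of the block of the root -/
noncomputable def jd (l : ℝ) (t : Cfg D) : ℝ≥0∞ := ⨆ h, Jh l h t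

theorem Jh_mono (l : ℝ) (h : ℕ) : ∀ t : Cfg D, Jh l h t ≤ Jh l (h + 1) t := by
  induction h with
  | zero => intro t; simp [Jh]
  | succ h ih =>
    intro t
    rw [Jh, Jh]
    split_ifs
    · gcongr with a ha
      exact ih _
    · exact le_rfl

theorem Jh_monotone (l : ℝ) (t : Cfg D) : Monotone fun h => Jh l h t :=
  monotone_nat_of_le_succ fun h => Jh_mono l h t

theorem jd_rec (l : ℝ) (t : Cfg D) [Decidable (good l t)] :
    jd l t = if good l t then 1 + ∑ a ∈ Finset.range (t [] : ℕ), jd l (sh t a) else 0 := by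
  have h1 : jd l t = ⨆ h, Jh l (h + 1) t := ((Jh_monotone l t).iSup_nat_add 1).symm
  rw [h1]
  split_ifs with hg
  · have h2 : ∀ h, Jh l (h + 1) t = 1 + ∑ a ∈ Finset.range (t [] : ℕ), Jh l h (sh t a) := by
      intro h
      rw [Jh, if_pos hg]
    simp_rw [h2]
    rw [← ENNReal.add_iSup, ← ENNReal.finsetSum_iSup_of_monotone fun a => Jh_monotone l (sh t a)]
    rfl
  · have h2 : ∀ h, Jh l (h + 1) t = 0 := by
      intro h
      rw [Jh, if_neg hg]
    simp_rw [h2]
    simp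

/-- the data of a branch -/
noncomputable def xd (l : ℝ) (t : Cfg D) : EE := (gd l t, (qd l t, (md l t, jd l t)))

/-- the sum of the data of the branches -/
noncomputable def sd (l : ℝ) (t : Cfg D) : EE := ∑ a ∈ Finset.range (t [] : ℕ), xd l (sh t a)

theorem xd_rec (l : ℝ) (t : Cfg D) : xd l t = RR l (sd l t) := by
  classical
  have c1 : (sd l t).1 = ∑ a ∈ Finset.range (t [] : ℕ), gd l (sh t a) := by
    unfold sd; rw [Prod.fst_sum]; rfl
  have c2 : (sd l t).2.1 = ∑ a ∈ Finset.range (t [] : ℕ), qd l (sh t a) := by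
    unfold sd; rw [Prod.snd_sum, Prod.fst_sum]; rfl
  have c3 : (sd l t).2.2.1 = ∑ a ∈ Finset.range (t [] : ℕ), md l (sh t a) := by
    unfold sd; rw [Prod.snd_sum, Prod.snd_sum, Prod.fst_sum]; rfl
  have c4 : (sd l t).2.2.2 = ∑ a ∈ Finset.range (t [] : ℕ), jd l (sh t a) := by
    unfold sd; rw [Prod.snd_sum, Prod.snd_sum, Prod.snd_sum]; rfl
  obtain ⟨ha, hb, hc, hd⟩ := data3 l t
  rw [← c1, ← c2, ← c3] at hd
  rw [← c1, ← c2, ← c3] at hc
  rw [← c2, ← c3] at hb
  rw [← c3] at ha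
  have hJ := jd_rec l t
  rw [← c4] at hJ
  unfold RR xd
  split_ifs with h1 h2 h3
  · obtain ⟨e1, e2, e3⟩ := ha h1
    have hng : ¬ good l t := fun h => h.2 e1
    rw [if_neg hng] at hJ
    rw [e1, e2, e3, hJ]
  · push Not at h1
    obtain ⟨e1, e2, e3⟩ := hb h1 h2
    have hng : ¬ good l t := fun h => h.2 e1
    rw [if_neg hng] at hJ
    rw [e1, e2, e3, hJ]
  · push Not at h1
    obtain ⟨e1, e2, e3⟩ := hc h1 h2 h3
    have hng : ¬ good l t := fun h => h.2 e1
    rw [if_neg hng] at hJ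
    rw [e1, e2, e3, hJ]
  · push Not at h1
    obtain ⟨e1, e2, e3⟩ := hd h1 h2 h3
    have hne : l - (sd l t).1 ≠ 0 := sub_ne_zero.2 (Ne.symm h3)
    have hg : good l t := by
      refine ⟨?_, ?_⟩
      · rw [e2]
        have hpos : 0 < (l - (sd l t).1) ^ 2 := by positivity
        refine ENNReal.mul_ne_top (ENNReal.add_ne_top.2 ⟨ENNReal.one_ne_top, h2⟩) ?_
        rw [ENNReal.inv_ne_top]
        rw [Ne, ENNReal.ofReal_eq_zero]
        linarith
      · rw [e1]; exact inv_ne_zero hne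
    rw [if_pos hg] at hJ
    rw [e1, e2, e3, hJ]

end Pool.Agent.HL274.GW
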