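import Pool.Agent.HL274.GW.Law

/-!
The law of the two sides of an edge.
-/

set_option autoImplicit false

namespace Pool.Agent.HL274.GW

open scoped ENNReal Topology
open MeasureTheory Filter

variable {D : ℕ}

/-- the law of the sum of the data of the branches -/
noncomputable def rho (l : ℝ) (r q : Measure (Fin (D + 1))) [IsProbabilityMeasure r]
    [IsProbabilityMeasure q] : Measure EE := (MM r q).map (sd l)

instance rho_prob (l : ℝ) (r q : Measure (Fin (D + 1))) [IsProbabilityMeasure r]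
    [IsProbabilityMeasure q] : IsProbabilityMeasure (rho l r q) :=
  Measure.isProbabilityMeasure_map (meas_sd l).aemeasurable

instance rho_sigma (l : ℝ) (r q : Measure (Fin (D + 1))) [IsProbabilityMeasure r]
    [IsProbabilityMeasure q] : SigmaFinite (rho l r q) := IsFiniteMeasure.toSigmaFinite _

instance rho_sf (l : ℝ) (r q : Measure (Fin (D + 1))) [IsProbabilityMeasure r]
    [IsProbabilityMeasure q] : SFinite (rho l r q) := instSFiniteOfSigmaFinite

theorem meas_sum_nat (l : ℝ) (s : Finset ℕ) :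
    Measurable fun d : ℕ → Cfg D => ∑ i ∈ s, xd l (d i) :=
  Finset.measurable_fun_sum _ fun i _ => (meas_xd l).comp (measurable_pi_apply i)

theorem meas_pair (l : ℝ) (s : Finset ℕ) (a : ℕ) (Φ : EE × EE → ℝ≥0∞) (hΦ : Measurable Φ) :
    Measurable fun d : ℕ → Cfg D => Φ (∑ i ∈ s, xd l (d i), xd l (d a)) :=
  hΦ.comp ((meas_sum_nat l _).prodMk ((meas_xd l).comp (measurable_pi_apply a)))

theorem edge_a (l : ℝ) (q : Measure (Fin (D + 1))) [IsProbabilityMeasure q] (k a : ℕ) (ha : a < k)
    (Φ : EE × EE → ℝ≥0∞) (hΦ : Measurable Φ) :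
    ∫⁻ d, Φ (∑ i ∈ (Finset.range k).erase a, xd l (d i), xd l (d a)) ∂(PP q) =
      ∫⁻ t', ∫⁻ d, Φ (∑ i ∈ Finset.range (k - 1), xd l (d i), xd l t') ∂(PP q) ∂(MM q q) := by
  set e : Equiv.Perm ℕ := Equiv.swap a (k - 1) with he
  -- first exchange `a` and `k - 1`
  have h1 : ∫⁻ d, Φ (∑ i ∈ (Finset.range k).erase a, xd l (d i), xd l (d a)) ∂(PP q) =
      ∫⁻ d, Φ (∑ i ∈ Finset.range (k - 1), xd l (d i), xd l (d (k - 1))) ∂(PP q) := by
    have h2 := swap_law (MM q q) e
    have h3 : PP q = (PP q).map (fun d : ℕ → Cfg D => fun i => d (e i)) := h2.symm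
    conv_lhs => rw [h3]
    rw [lintegral_map]
    · refine lintegral_congr fun d => ?_
      have h4 : e a = k - 1 := Equiv.swap_apply_left _ _
      have h5 : ∑ i ∈ (Finset.range k).erase a, xd l (d (e i)) =
          ∑ i ∈ Finset.range (k - 1), xd l (d i) := by
        refine Finset.sum_nbij' (fun i => e i) (fun i => e i) ?_ ?_ ?_ ?_ ?_
        · intro i hi
          rw [Finset.mem_erase, Finset.mem_range] at hi
          rw [Finset.mem_range]
          by_cases h6 : i = k - 1
          · subst h6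
            rw [he, Equiv.swap_apply_right]
            omega
          · rw [he, Equiv.swap_apply_of_ne_of_ne hi.1 h6]
            omega
        · intro i hi
          rw [Finset.mem_range] at hi
          rw [Finset.mem_erase, Finset.mem_range]
          by_cases h6 : i = a
          · subst h6
            rw [he, Equiv.swap_apply_left]
            omega
          · rw [he, Equiv.swap_apply_of_ne_of_ne h6 (by omega)]
            omega
        · intro i _; exact Equiv.swap_apply_self _ _ _
        · intro i _; exact Equiv.swap_apply_self _ _ _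
        · intro i _; rfl
      have h6 : (fun i => d (e i)) a = d (k - 1) := by
        change d (e a) = _
        rw [h4]
      rw [h5, h6]
    · exact meas_pair l _ a Φ hΦ
    · exact measurable_pi_lambda _ fun i => measurable_pi_apply (e i)
  rw [h1]
  have h7 := update_law (MM q q) (k - 1)
  have h8 : PP q = ((MM q q).prod (PP q)).map
      (fun p : Cfg D × (ℕ → Cfg D) => Function.update p.2 (k - 1) p.1) := h7.symm
  have hmu : Measurable (fun p : Cfg D × (ℕ → Cfg D) => Function.update p.2 (k - 1) p.1) := by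
    refine measurable_pi_lambda _ fun i => ?_
    by_cases h : i = k - 1
    · subst h
      simp only [Function.update_self]
      exact measurable_fst
    · simp only [Function.update_of_ne h]
      exact (measurable_pi_apply i).comp measurable_snd
  conv_lhs => rw [h8]
  rw [lintegral_map (meas_pair l _ _ Φ hΦ) hmu]
  have h9 : ∀ p : Cfg D × (ℕ → Cfg D),
      Φ (∑ i ∈ Finset.range (k - 1), xd l (Function.update p.2 (k - 1) p.1 i),
        xd l (Function.update p.2 (k - 1) p.1 (k - 1))) =
      Φ (∑ i ∈ Finset.range (k - 1), xd l (p.2 i), xd l p.1) := by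
    intro p
    rw [Function.update_self]
    congr 2
    refine Finset.sum_congr rfl fun i hi => ?_
    rw [Finset.mem_range] at hi
    rw [Function.update_of_ne (by omega)]
  simp_rw [h9]
  rw [lintegral_prod]
  refine Measurable.aemeasurable (hΦ.comp (Measurable.prodMk ?_ ?_))
  · exact (meas_sum_nat l _).comp measurable_snd
  · exact (meas_xd l).comp measurable_fst

/-- the sum over the children -/
noncomputable def chs (l : ℝ) (Φ : EE × EE → ℝ≥0∞) (t : Cfg D) : ℝ≥0∞ :=
  ∑ a ∈ Finset.range (t [] : ℕ),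
    Φ (∑ i ∈ (Finset.range (t [] : ℕ)).erase a, xd l (sh t i), xd l (sh t a))

theorem edge (l : ℝ) (r q : Measure (Fin (D + 1))) [IsProbabilityMeasure r] [IsProbabilityMeasure q]
    (m : ℝ≥0∞) (hw : ∀ j : Fin D, m * q {j.castSucc} = ((j : ℕ) + 1) * r {j.succ})
    (hq : q {Fin.last D} = 0) (Φ : EE × EE → ℝ≥0∞) (hΦ : Measurable Φ) :
    ∫⁻ t, chs l Φ t ∂(MM r q) =
      m * ∫⁻ s', ∫⁻ s, Φ (s, RR l s') ∂(rho l q q) ∂(rho l q q) := by
  have hm1 : Measurable (fun p : EE × EE => Φ (p.2, RR l p.1)) :=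
    hΦ.comp (measurable_snd.prodMk ((meas_RR l).comp measurable_fst))
  -- the right side in terms of trees
  have hR : ∫⁻ s', ∫⁻ s, Φ (s, RR l s') ∂(rho l q q) ∂(rho l q q) =
      ∫⁻ t', ∫⁻ t, Φ (sd l t, xd l t') ∂(MM q q) ∂(MM q q) := by
    have h1 : Measurable fun s' => ∫⁻ s, Φ (s, RR l s') ∂(rho l q q) := hm1.lintegral_prod_right'
    have h2 : ∫⁻ s', ∫⁻ s, Φ (s, RR l s') ∂(rho l q q) ∂(rho l q q) =
        ∫⁻ t', ∫⁻ s, Φ (s, RR l (sd l t')) ∂(rho l q q) ∂(MM q q) := by
      conv_lhs => enter [1]; rw [rho]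
      exact lintegral_map h1 (meas_sd l)
    rw [h2]
    refine lintegral_congr fun t' => ?_
    have h3 : Measurable fun s => Φ (s, RR l (sd l t')) :=
      hΦ.comp (measurable_id.prodMk measurable_const)
    rw [rho, lintegral_map h3 (meas_sd l), xd_rec]
  -- root decomposition
  set G : ℕ → ℝ≥0∞ := fun j =>
    ∫⁻ t', ∫⁻ d, Φ (∑ i ∈ Finset.range j, xd l (d i), xd l t') ∂(PP q) ∂(MM q q) with hG
  have hL : ∫⁻ t, chs l Φ t ∂(MM r q) = ∑ k, r {k} * ((k : ℕ) * G ((k : ℕ) - 1)) := by
    have h1 := law_root r q (fun k d => ∑ a ∈ Finset.range (k : ℕ),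
      Φ (∑ i ∈ (Finset.range (k : ℕ)).erase a, xd l (d i), xd l (d a))) (fun k =>
        Finset.measurable_fun_sum _ fun a _ => meas_pair l _ a Φ hΦ)
    refine h1.trans ?_
    refine Finset.sum_congr rfl fun k _ => ?_
    congr 1
    rw [lintegral_finsetSum _ (fun a _ => meas_pair l _ a Φ hΦ)]
    rw [Finset.sum_congr rfl fun a ha => edge_a l q k a (Finset.mem_range.1 ha) Φ hΦ]
    rw [Finset.sum_const, Finset.card_range, nsmul_eq_mul]
  have hR2 : ∫⁻ t', ∫⁻ t, Φ (sd l t, xd l t') ∂(MM q q) ∂(MM q q) = ∑ k, q {k} * G (k : ℕ) := by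
    have h1 : ∀ t' : Cfg D, ∫⁻ t, Φ (sd l t, xd l t') ∂(MM q q) =
        ∑ k, q {k} * ∫⁻ d, Φ (∑ i ∈ Finset.range (k : ℕ), xd l (d i), xd l t') ∂(PP q) := by
      intro t'
      exact law_root q q (fun k d => Φ (∑ i ∈ Finset.range (k : ℕ), xd l (d i), xd l t'))
        (fun k => hΦ.comp ((meas_sum_nat l _).prodMk measurable_const))
    simp_rw [h1]
    have h2 : ∀ k : Fin (D + 1), Measurable fun t' : Cfg D =>
        ∫⁻ d, Φ (∑ i ∈ Finset.range (k : ℕ), xd l (d i), xd l t') ∂(PP q) := by
      intro k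
      have h3 : Measurable fun p : Cfg D × (ℕ → Cfg D) =>
          Φ (∑ i ∈ Finset.range (k : ℕ), xd l (p.2 i), xd l p.1) :=
        hΦ.comp (((meas_sum_nat l _).comp measurable_snd).prodMk ((meas_xd l).comp measurable_fst))
      exact h3.lintegral_prod_right'
    rw [lintegral_finsetSum _ fun k _ => (h2 k).const_mul _]
    refine Finset.sum_congr rfl fun k _ => ?_
    rw [lintegral_const_mul _ (h2 k)]
  rw [hL, hR, hR2, Fin.sum_univ_succ, Fin.sum_univ_castSucc, hq]
  simp only [Fin.val_zero, Nat.cast_zero, zero_mul, mul_zero, zero_add, add_zero, Fin.val_last,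
    Fin.val_succ, Nat.add_sub_cancel, Fin.val_castSucc]
  rw [Finset.mul_sum]
  refine Finset.sum_congr rfl fun j _ => ?_
  rw [← mul_assoc, ← mul_assoc, hw j]
  push_cast
  ring

end Pool.Agent.HL274.GW
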