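import Pool.Agent.HL274.GW.Ineq

/-!
The generating function of the block sizes.
-/

set_option autoImplicit false

namespace Pool.Agent.HL274.GW

open scoped ENNReal Topology
open MeasureTheory Filter ProbabilityTheory

variable {D : ℕ}

theorem prod_law (q : Measure (Fin (D + 1))) [IsProbabilityMeasure q] (f : Cfg D → ℝ≥0∞)
    (hf : Measurable f) (k : ℕ) :
    ∫⁻ d, ∏ i ∈ Finset.range k, f (d i) ∂(PP q) = (∫⁻ t, f t ∂(MM q q)) ^ k := by
  have h1 : iIndepFun (fun (i : ℕ) (d : ℕ → Cfg D) => f (d i)) (PP q) :=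
    iIndepFun_infinitePi (P := fun _ : ℕ => MM q q) (X := fun _ t => f t) fun _ => hf
  rw [lintegral_prod_eq_prod_lintegral_of_indepFun _ _ h1
    fun i => hf.comp (measurable_pi_apply i)]
  have h2 : ∀ i : ℕ, ∫⁻ d, f (d i) ∂(PP q) = ∫⁻ t, f t ∂(MM q q) := fun i =>
    (measurePreserving_eval_infinitePi (fun _ : ℕ => MM q q) i).lintegral_comp hf
  simp_rw [h2]
  rw [Finset.prod_const, Finset.card_range]

/-- the law of a branch -/
theorem sh_law (r q : Measure (Fin (D + 1))) [IsProbabilityMeasure r] [IsProbabilityMeasure q]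
    (a : ℕ) (Z : Set (Cfg D)) (hZ : MeasurableSet Z) : MM r q {t | sh t a ∈ Z} = MM q q Z := by
  have h1 := law_root r q (fun _ d => Z.indicator 1 (d a))
    (fun _ => (measurable_one.indicator hZ).comp (measurable_pi_apply a))
  have h2 : ∫⁻ d, Z.indicator 1 (d a) ∂(PP q) = ∫⁻ t, Z.indicator 1 t ∂(MM q q) :=
    (measurePreserving_eval_infinitePi (fun _ : ℕ => MM q q) a).lintegral_comp
      (measurable_one.indicator hZ)
  have h8 : ∑ k, r {k} = 1 := by
    have := measure_univ (μ := r)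
    rw [← this, ← Finset.coe_univ, ← sum_measure_singleton]
  rw [h2, ← Finset.sum_mul, h8, one_mul, lintegral_indicator_one hZ] at h1
  rw [← h1]
  have h3 : ∀ t : Cfg D, Z.indicator (1 : Cfg D → ℝ≥0∞) ((fun a => sh t a) a) =
      {t : Cfg D | sh t a ∈ Z}.indicator 1 t := fun t => rfl
  simp_rw [h3]
  have hm : MeasurableSet {t : Cfg D | sh t a ∈ Z} := meas_sh a hZ
  exact (lintegral_indicator_one hm).symm

theorem rpow_finset_sum {ι : Type*} (z : ℝ≥0∞) (hz : z ≠ 0) (hz' : z ≠ ∞) (s : Finset ι) (f : ι → ℝ) :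
    z ^ (∑ i ∈ s, f i) = ∏ i ∈ s, z ^ f i := by
  classical
  induction s using Finset.induction_on with
  | empty => simp
  | insert a s ha ih => rw [Finset.sum_insert ha, Finset.prod_insert ha, ENNReal.rpow_add _ _ hz hz', ih]

open Classical in
/-- the weights -/
noncomputable def Zw (z : ℝ≥0∞) (n : ℕ) (s : EE) : ℝ≥0∞ :=
  if Cc s ∧ 1 + s.2.2.2 ≤ n then z ^ ((1 + s.2.2.2).toReal) else 0

theorem meas_Zw (z : ℝ≥0∞) (n : ℕ) : Measurable (Zw z n) := by
  classical
  refine Measurable.ite (ms_C.inter (measurableSet_le (m_j.const_add 1) measurable_const)) ?_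
    measurable_const
  exact measurable_const.pow (m_j.const_add 1).ennreal_toReal

open Classical in
/-- indicator of mass below -/
noncomputable def Iw (s : EE) : ℝ≥0∞ := if s.2.2.1 ≠ 0 then 1 else 0

theorem meas_Iw : Measurable Iw := by
  classical
  exact Measurable.ite (m_m (measurableSet_singleton 0)).compl measurable_const measurable_const

/-- probability of mass just below the root -/
noncomputable def pa (l : ℝ) (q : Measure (Fin (D + 1))) [IsProbabilityMeasure q] : ℝ≥0∞ :=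
  MM q q {t | (sd l t).2.2.1 ≠ 0}

/-- probability of mass at the root -/
noncomputable def p0 (l : ℝ) (q : Measure (Fin (D + 1))) [IsProbabilityMeasure q] : ℝ≥0∞ :=
  MM q q {t | md l t ≠ 0}

/-- truncated generating function -/
noncomputable def Vz (l : ℝ) (q : Measure (Fin (D + 1))) [IsProbabilityMeasure q] (z : ℝ≥0∞)
    (n : ℕ) : ℝ≥0∞ := ∫⁻ t, Zw z n (sd l t) ∂(MM q q)

theorem Zw_step (l : ℝ) (z : ℝ≥0∞) (hz : z ≠ 0) (hz' : z ≠ ∞) (n : ℕ) (t : Cfg D) :
    Zw z (n + 1) (sd l t) ≤ z * ∏ a ∈ Finset.range (t [] : ℕ),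
      (Iw (sd l (sh t a)) + Zw z n (sd l (sh t a))) := by
  classical
  conv_lhs => unfold Zw
  split_ifs with h
  swap
  · exact zero_le
  obtain ⟨hC, hj⟩ := h
  have hjn : (sd l t).2.2.2 ≤ n := by
    have : (1 : ℝ≥0∞) + (sd l t).2.2.2 ≤ 1 + (n : ℝ≥0∞) := by
      refine hj.trans ?_
      push_cast
      rw [add_comm]
    exact (ENNReal.add_le_add_iff_left ENNReal.one_ne_top).1 this
  have hjt : (sd l t).2.2.2 ≠ ∞ := ne_top_of_le_ne_top (ENNReal.natCast_ne_top n) hjn
  have hja : ∀ a ∈ Finset.range (t [] : ℕ), (xd l (sh t a)).2.2.2 ≤ (sd l t).2.2.2 := by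
    intro a ha
    rw [sd_j]
    exact Finset.single_le_sum (f := fun a => (xd l (sh t a)).2.2.2) (fun _ _ => zero_le) ha
  rw [ENNReal.toReal_add ENNReal.one_ne_top hjt, ENNReal.toReal_one, ENNReal.rpow_add _ _ hz hz',
    ENNReal.rpow_one]
  gcongr z * ?_
  rw [sd_j, ENNReal.toReal_sum fun a ha => ne_top_of_le_ne_top hjt (hja a ha),
    rpow_finset_sum z hz hz']
  refine Finset.prod_le_prod' fun a ha => ?_
  have hc := child l t hC a ha
  have hjan : (xd l (sh t a)).2.2.2 ≤ n := (hja a ha).trans hjn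
  rw [xd_rec] at hc hjan ⊢
  rcases RR_cases l _ hc.1 hc.2 with ⟨-, e, e'⟩ | ⟨e1, e2, -, -, e5, -⟩
  · rw [e]
    unfold Iw
    rw [if_pos e']
    simp
  · rw [e5] at hjan ⊢
    have : Zw z n (sd l (sh t a)) = z ^ ((1 + (sd l (sh t a)).2.2.2).toReal) := by
      unfold Zw
      rw [if_pos ⟨⟨e1, e2⟩, hjan⟩]
    rw [this]
    exact le_add_self

theorem gf_step (l : ℝ) (q : Measure (Fin (D + 1))) [IsProbabilityMeasure q] (z : ℝ≥0∞)
    (hz : z ≠ 0) (hz' : z ≠ ∞) (n : ℕ) :
    Vz l q z (n + 1) ≤ z * ∑ k : Fin (D + 1), q {k} * (pa l q + Vz l q z n) ^ (k : ℕ) := by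
  classical
  set f : Cfg D → ℝ≥0∞ := fun t => Iw (sd l t) + Zw z n (sd l t) with hf
  have hfm : Measurable f := (meas_Iw.comp (meas_sd l)).add ((meas_Zw z n).comp (meas_sd l))
  have h1 := law_root q q (fun k d => ∏ a ∈ Finset.range (k : ℕ), f (d a))
    (fun k => Finset.measurable_fun_prod _ fun a _ => hfm.comp (measurable_pi_apply a))
  simp_rw [prod_law q f hfm] at h1
  have h2 : ∫⁻ t, f t ∂(MM q q) = pa l q + Vz l q z n := by
    have mI : Measurable fun t : Cfg D => Iw (sd l t) := meas_Iw.comp (meas_sd l)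
    rw [hf, lintegral_add_left mI]
    congr 1
    have h3 : ∀ t : Cfg D, Iw (sd l t) = {t : Cfg D | (sd l t).2.2.1 ≠ 0}.indicator 1 t := by
      intro t
      unfold Iw
      simp [Set.indicator]
    simp_rw [h3]
    rw [lintegral_indicator_one]
    · rfl
    · exact meas_sd l (m_m (measurableSet_singleton 0)).compl
  rw [h2] at h1
  rw [← h1]
  have mprod : Measurable fun t : Cfg D => ∏ a ∈ Finset.range (t [] : ℕ), f (sh t a) := by
    have : (fun t : Cfg D => ∏ a ∈ Finset.range (t [] : ℕ), f (sh t a)) =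
        fun t => ∏ a ∈ Finset.range D, if a < (t [] : ℕ) then f (sh t a) else 1 := by
      funext t
      rw [← Finset.prod_filter]
      refine Finset.prod_congr ?_ fun _ _ => rfl
      ext b
      have := (t []).2
      simp only [Finset.mem_range, Finset.mem_filter]
      omega
    rw [this]
    refine Finset.measurable_fun_prod _ fun a _ => ?_
    exact Measurable.ite (measurableSet_lt measurable_const (meas_coord _))
      (hfm.comp (meas_sh a)) measurable_const
  rw [← lintegral_const_mul _ mprod]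
  exact lintegral_mono fun t => Zw_step l z hz hz' n t

theorem Vz_zero (l : ℝ) (q : Measure (Fin (D + 1))) [IsProbabilityMeasure q] (z : ℝ≥0∞) :
    Vz l q z 0 = 0 := by
  unfold Vz
  have hm : Measurable fun t : Cfg D => Zw z 0 (sd l t) := (meas_Zw z 0).comp (meas_sd l)
  rw [lintegral_eq_zero_iff hm]
  refine Eventually.of_forall fun t => ?_
  simp [Zw]

theorem pa_le (l : ℝ) (q : Measure (Fin (D + 1))) [IsProbabilityMeasure q] :
    pa l q ≤ D * p0 l q := by
  have hBm : MeasurableSet {t : Cfg D | md l t ≠ 0} := (meas_md l (measurableSet_singleton 0)).compl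
  have h1 : {t : Cfg D | (sd l t).2.2.1 ≠ 0} ⊆
      ⋃ a ∈ Finset.range D, {t : Cfg D | sh t a ∈ {t : Cfg D | md l t ≠ 0}} := by
    intro t ht
    have ht' : (sd l t).2.2.1 ≠ 0 := ht
    rw [sd_m] at ht'
    obtain ⟨a, ha, h⟩ := Finset.exists_ne_zero_of_sum_ne_zero ht'
    rw [Finset.mem_range] at ha
    have := (t []).2
    simp only [Set.mem_iUnion, Finset.mem_range]
    exact ⟨a, by omega, h⟩
  unfold pa
  refine (measure_mono h1).trans ((measure_biUnion_finset_le _ _).trans ?_)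
  simp_rw [sh_law q q _ _ hBm]
  rw [Finset.sum_const, Finset.card_range, nsmul_eq_mul]
  rfl

/-- the sum over the degrees -/
theorem sum_deg (q : Measure (Fin (D + 1))) [IsProbabilityMeasure q] (u : ℝ≥0∞) (hu : u ≤ 1)
    (h0 : q {0} = 0) : ∑ k : Fin (D + 1), q {k} * u ^ (k : ℕ) ≤ q {k | (k : ℕ) = 1} * u + u ^ 2 := by
  classical
  have h1 : ∀ k : Fin (D + 1), q {k} * u ^ (k : ℕ) ≤
      (if (k : ℕ) = 1 then q {k} else 0) * u + q {k} * u ^ 2 := by
    intro k
    rcases Nat.lt_trichotomy (k : ℕ) 1 with h | h | h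
    · have : k = 0 := Fin.ext (by rw [Fin.val_zero]; omega)
      rw [this, h0, zero_mul]
      exact zero_le
    · rw [if_pos h, h, pow_one]
      exact le_self_add
    · rw [if_neg (by omega), zero_mul, zero_add]
      gcongr q {k} * ?_
      exact pow_le_pow_right_of_le_one' hu h
  refine (Finset.sum_le_sum fun k _ => h1 k).trans ?_
  rw [Finset.sum_add_distrib, ← Finset.sum_mul, ← Finset.sum_mul]
  have h8 : ∑ k, q {k} = 1 := by
    have := measure_univ (μ := q)
    rw [← this, ← Finset.coe_univ, ← sum_measure_singleton]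
  have h9 : (∑ k : Fin (D + 1), if (k : ℕ) = 1 then q {k} else 0) = q {k | (k : ℕ) = 1} := by
    rw [← Finset.sum_filter, sum_measure_singleton]
    congr 1
    ext k
    simp
  rw [h8, h9, one_mul]

theorem real_bound (x a : ℝ) (hx0 : 0 ≤ x) (hx1 : x < 1) (ha : 0 ≤ a)
    (hs : 2 * (1 + 4 / (1 - x)) ^ 2 * a ≤ 1) :
    (3 - x) / 2 * (x * ((1 + 4 / (1 - x)) * a) + ((1 + 4 / (1 - x)) * a) ^ 2) ≤ 4 / (1 - x) * a := by
  set K := 4 / (1 - x) with hK
  have h1 : 0 < 1 - x := by linarith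
  have hK0 : 0 < K := by positivity
  have hK1 : K * (1 - x) = 4 := by rw [hK]; field_simp
  -- terms
  have t1 : (3 - x) / 2 * (x * ((1 + K) * a)) ≤ (1 + x) / 2 * ((1 + K) * a) := by
    have h2 : (3 - x) / 2 * x ≤ (1 + x) / 2 := by nlinarith [sq_nonneg (1 - x)]
    have h3 : 0 ≤ (1 + K) * a := by positivity
    calc (3 - x) / 2 * (x * ((1 + K) * a)) = ((3 - x) / 2 * x) * ((1 + K) * a) := by ring
      _ ≤ _ := mul_le_mul_of_nonneg_right h2 h3
  have t2 : (3 - x) / 2 * ((1 + K) * a) ^ 2 ≤ 3 / 4 * a := by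
    have h2 : ((1 + K) * a) ^ 2 ≤ 1 / 2 * a := by
      have : ((1 + K) * a) ^ 2 = (2 * (1 + K) ^ 2 * a) * (1 / 2 * a) := by ring
      rw [this]
      calc _ ≤ 1 * (1 / 2 * a) := mul_le_mul_of_nonneg_right hs (by positivity)
        _ = _ := one_mul _
    have h3 : (3 - x) / 2 ≤ 3 / 2 := by linarith
    calc (3 - x) / 2 * ((1 + K) * a) ^ 2 ≤ 3 / 2 * (1 / 2 * a) := by
          apply mul_le_mul h3 h2 (by positivity) (by norm_num)
      _ = _ := by ring
  have t3 : (1 + x) / 2 * ((1 + K) * a) + 3 / 4 * a ≤ K * a := by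
    have h2 : (1 + x) / 2 * (1 + K) + 3 / 4 ≤ K := by nlinarith
    calc (1 + x) / 2 * ((1 + K) * a) + 3 / 4 * a = ((1 + x) / 2 * (1 + K) + 3 / 4) * a := by ring
      _ ≤ _ := mul_le_mul_of_nonneg_right h2 ha
  rw [mul_add]
  linarith

/-- bound of the generating function -/
theorem Vz_le (l : ℝ) (q : Measure (Fin (D + 1))) [IsProbabilityMeasure q] (h0 : q {0} = 0)
    (x : ℝ) (hx0 : 0 ≤ x) (hx1 : x < 1) (hx : q {k | (k : ℕ) = 1} = ENNReal.ofReal x)
    (a : ℝ) (ha : 0 ≤ a) (hpa : pa l q = ENNReal.ofReal a)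
    (hs : 2 * (1 + 4 / (1 - x)) ^ 2 * a ≤ 1) (n : ℕ) :
    Vz l q (ENNReal.ofReal ((3 - x) / 2)) n ≤ ENNReal.ofReal (4 / (1 - x) * a) := by
  have h1 : 0 < 1 - x := by linarith
  set K := 4 / (1 - x) with hK
  have hK0 : 0 < K := by positivity
  have hz : 0 < (3 - x) / 2 := by linarith
  induction n with
  | zero => rw [Vz_zero]; exact zero_le
  | succ n ih =>
    refine (gf_step l q _ (by rw [Ne, ENNReal.ofReal_eq_zero]; linarith) ENNReal.ofReal_ne_top n).trans ?_
    have hu : pa l q + Vz l q (ENNReal.ofReal ((3 - x) / 2)) n ≤ ENNReal.ofReal ((1 + K) * a) := by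
      rw [hpa]
      calc _ ≤ ENNReal.ofReal a + ENNReal.ofReal (K * a) := by gcongr
        _ = _ := by
          rw [← ENNReal.ofReal_add ha (by positivity)]
          congr 1
          ring
    have hu1 : (1 + K) * a ≤ 1 := by
      have h2 : (1 + K) * a ≤ (1 + K) * ((1 + K) * a) := by
        have : 0 ≤ (1 + K) * a := by positivity
        nlinarith
      nlinarith
    have hu2 : pa l q + Vz l q (ENNReal.ofReal ((3 - x) / 2)) n ≤ 1 :=
      hu.trans (by rw [← ENNReal.ofReal_one]; exact ENNReal.ofReal_le_ofReal hu1)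
    calc ENNReal.ofReal ((3 - x) / 2) * ∑ k : Fin (D + 1), q {k} *
          (pa l q + Vz l q (ENNReal.ofReal ((3 - x) / 2)) n) ^ (k : ℕ)
        ≤ ENNReal.ofReal ((3 - x) / 2) * (q {k | (k : ℕ) = 1} *
          (pa l q + Vz l q (ENNReal.ofReal ((3 - x) / 2)) n) +
          (pa l q + Vz l q (ENNReal.ofReal ((3 - x) / 2)) n) ^ 2) := by
          gcongr
          exact sum_deg q _ hu2 h0
      _ ≤ ENNReal.ofReal ((3 - x) / 2) * (ENNReal.ofReal x * ENNReal.ofReal ((1 + K) * a) +
          (ENNReal.ofReal ((1 + K) * a)) ^ 2) := by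
          rw [hx]
          gcongr
      _ = ENNReal.ofReal ((3 - x) / 2 * (x * ((1 + K) * a) + ((1 + K) * a) ^ 2)) := by
          rw [← ENNReal.ofReal_pow (by positivity), ← ENNReal.ofReal_mul hx0,
            ← ENNReal.ofReal_add (by positivity) (by positivity), ← ENNReal.ofReal_mul hz.le]
      _ ≤ _ := ENNReal.ofReal_le_ofReal (real_bound x a hx0 hx1 ha hs)

end Pool.Agent.HL274.GW
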