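import Pool.Agent.HL274.GW.Vtx

/-!
Integrated inequalities.
-/

set_option autoImplicit false

namespace Pool.Agent.HL274.GW

open scoped ENNReal Topology
open MeasureTheory Filter

variable {D : ℕ}

theorem sym_int (l : ℝ) (q : Measure (Fin (D + 1))) [IsProbabilityMeasure q]
    (Φ : EE × EE → ℝ≥0∞) (hΦ : Measurable Φ) :
    ∫⁻ s', ∫⁻ s, Φ (s, RR l s') ∂(rho l q q) ∂(rho l q q) +
      ∫⁻ s', ∫⁻ s, Φ (s, RR l s') ∂(rho l q q) ∂(rho l q q) =
    ∫⁻ s', ∫⁻ s, (Φ (s, RR l s') + Φ (s', RR l s)) ∂(rho l q q) ∂(rho l q q) := by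
  have hm1 : Measurable (fun p : EE × EE => Φ (p.2, RR l p.1)) :=
    hΦ.comp (measurable_snd.prodMk ((meas_RR l).comp measurable_fst))
  have hm2 : Measurable (fun p : EE × EE => Φ (p.1, RR l p.2)) :=
    hΦ.comp (measurable_fst.prodMk ((meas_RR l).comp measurable_snd))
  have hsw : ∫⁻ s', ∫⁻ s, Φ (s, RR l s') ∂(rho l q q) ∂(rho l q q) =
      ∫⁻ s', ∫⁻ s, Φ (s', RR l s) ∂(rho l q q) ∂(rho l q q) :=
    lintegral_lintegral_swap (μ := rho l q q) (ν := rho l q q)
      (f := fun s' s => Φ (s, RR l s')) hm1.aemeasurable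
  conv_lhs => enter [2]; rw [hsw]
  have h1 : Measurable fun s' => ∫⁻ s, Φ (s, RR l s') ∂(rho l q q) := hm1.lintegral_prod_right'
  rw [← lintegral_add_left h1]
  refine lintegral_congr fun s' => ?_
  rw [← lintegral_add_left]
  exact hm1.comp (measurable_const.prodMk measurable_id)

theorem int_eq (l : ℝ) (n : ℕ) (q : Measure (Fin (D + 1))) [IsProbabilityMeasure q] :
    ∫⁻ s', ∫⁻ s, P1 l n (s, RR l s') ∂(rho l q q) ∂(rho l q q) =
      ∫⁻ s', ∫⁻ s, P2 l n (s, RR l s') ∂(rho l q q) ∂(rho l q q) := by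
  have h1 := sym_int l q (P1 l n) (meas_P1 l n)
  have h2 := sym_int l q (P2 l n) (meas_P2 l n)
  simp_rw [pair_id] at h1
  rw [← h2] at h1
  rw [← two_mul, ← two_mul] at h1
  exact (ENNReal.mul_right_inj (by norm_num) (by norm_num)).1 h1

section main

variable (l : ℝ) (r q : Measure (Fin (D + 1))) [IsProbabilityMeasure r] [IsProbabilityMeasure q]
  (m : ℝ≥0∞) (hw : ∀ j : Fin D, m * q {j.castSucc} = ((j : ℕ) + 1) * r {j.succ})
  (hq : q {Fin.last D} = 0)

include hw hq

theorem main_ineq (n : ℕ) :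
    ∫⁻ t, VA l n (sd l t) ∂(MM r q) + ∫⁻ t, chs l (P3 l n) t ∂(MM r q) ≤ (n : ℝ≥0∞)⁻¹ := by
  have e1 := edge l r q m hw hq (P1 l n) (meas_P1 l n)
  have e2 := edge l r q m hw hq (P2 l n) (meas_P2 l n)
  rw [int_eq, ← e2] at e1
  set A := ∫⁻ t, VA l n (sd l t) ∂(MM r q) with hA
  set E1 := ∫⁻ t, chs l (P1 l n) t ∂(MM r q) with hE1
  set E2 := ∫⁻ t, chs l (P2 l n) t ∂(MM r q) with hE2
  set E3 := ∫⁻ t, chs l (P3 l n) t ∂(MM r q) with hE3
  have mA : Measurable fun t : Cfg D => VA l n (sd l t) := (meas_VA l n).comp (meas_sd l)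
  have hP : ∫⁻ t, VV l n (sd l t) ∂(MM r q) = A + E1 + E3 := by
    have mB : Measurable fun t : Cfg D => VA l n (sd l t) + chs l (P1 l n) t :=
      mA.add (meas_chs l _ (meas_P1 l n))
    rw [hA, hE1, hE3, ← lintegral_add_left mA, ← lintegral_add_left mB]
    exact lintegral_congr fun t => vertex1 l n t
  have hP1 : ∫⁻ t, VV l n (sd l t) ∂(MM r q) ≤ 1 := by
    calc ∫⁻ t, VV l n (sd l t) ∂(MM r q) ≤ ∫⁻ _, 1 ∂(MM r q) := by
          refine lintegral_mono fun t => ?_
          unfold VV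
          split_ifs <;> simp
      _ = 1 := by simp
  have hP2 : ∫⁻ t, VV l n (sd l t) ∂(MM r q) ≤ E2 + (n : ℝ≥0∞)⁻¹ := by
    calc ∫⁻ t, VV l n (sd l t) ∂(MM r q) ≤ ∫⁻ t, (chs l (P2 l n) t + (n : ℝ≥0∞)⁻¹) ∂(MM r q) :=
          lintegral_mono fun t => vertex2 l n t
      _ = E2 + (n : ℝ≥0∞)⁻¹ := by
          rw [lintegral_add_right _ measurable_const, lintegral_const, measure_univ, mul_one]
  have hfin : E1 ≠ ∞ := by
    refine ne_top_of_le_ne_top ENNReal.one_ne_top (le_trans ?_ hP1)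
    rw [hP, add_assoc, add_comm]
    exact le_self_add.trans le_self_add
  rw [hP, ← e1] at hP2
  have h : (A + E3) + E1 ≤ (n : ℝ≥0∞)⁻¹ + E1 := by
    calc (A + E3) + E1 = A + E1 + E3 := by ring
      _ ≤ E1 + (n : ℝ≥0∞)⁻¹ := hP2
      _ = _ := add_comm _ _
  exact (ENNReal.add_le_add_iff_right hfin).1 h

/-- large blocks are null -/
theorem inf_null : MM r q {t | Sv l (sd l t) ∧ (sd l t).2.2.2 = ∞} = 0 := by
  classical
  set S : Set (Cfg D) := {t | Sv l (sd l t) ∧ (sd l t).2.2.2 = ∞} with hS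
  have hSm : MeasurableSet S :=
    (meas_sd l (ms_S l)).inter (meas_sd l (m_j (measurableSet_singleton ∞)))
  set f : Cfg D → ℝ≥0∞ := fun t => if t ∈ S then (1 + (sd l t).2.1)⁻¹ else 0 with hf
  have hfm : Measurable f :=
    Measurable.ite hSm ((m_q.comp (meas_sd l)).const_add 1).inv measurable_const
  have h1 : ∀ n : ℕ, ∫⁻ t, f t ∂(MM r q) ≤ (n : ℝ≥0∞)⁻¹ := by
    intro n
    refine le_trans ?_ (le_self_add.trans (main_ineq l r q m hw hq n))
    refine lintegral_mono fun t => ?_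
    simp only [hf]
    unfold VA
    by_cases ht : t ∈ S
    · have hN : Nn n (sd l t) := by
        unfold Nn
        rw [ht.2]
        simp
      rw [if_pos ht, if_pos ⟨ht.1, hN⟩]
    · rw [if_neg ht]
      exact zero_le
  have h2 : ∫⁻ t, f t ∂(MM r q) = 0 := by
    refine le_antisymm ?_ zero_le
    exact ge_of_tendsto ENNReal.tendsto_inv_nat_nhds_zero (Eventually.of_forall h1)
  rw [lintegral_eq_zero_iff hfm] at h2
  refine measure_mono_null ?_ h2
  intro t ht
  simp only [Set.mem_compl_iff, Set.mem_setOf_eq, Pi.zero_apply, hf]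
  rw [if_pos ht, ENNReal.inv_eq_zero]
  exact ENNReal.add_ne_top.2 ⟨ENNReal.one_ne_top, ht.1.1.2⟩

theorem inf_mul (hm : m ≠ 0) :
    MM q q {t | Sv l (sd l t) ∧ (sd l t).2.2.2 = ∞} * MM q q {t | (sd l t).2.2.1 ≠ 0} = 0 := by
  classical
  have h1 : ∫⁻ t, chs l (P5 l) t ∂(MM r q) = 0 := by
    rw [lintegral_eq_zero_iff (meas_chs l _ (meas_P5 l))]
    have h2 := inf_null l r q m hw hq
    have h3 : ∀ᵐ t ∂(MM r q), ¬ (Sv l (sd l t) ∧ (sd l t).2.2.2 = ∞) := by
      rw [ae_iff]
      simpa using h2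
    filter_upwards [h3] with t ht
    exact vertex5 l t ht
  rw [edge l r q m hw hq (P5 l) (meas_P5 l)] at h1
  have h2 : ∫⁻ s', ∫⁻ s, P5 l (s, RR l s') ∂(rho l q q) ∂(rho l q q) = 0 := by
    rcases mul_eq_zero.1 h1 with h | h
    · exact absurd h hm
    · exact h
  set U : Set EE := {s | Sv l s ∧ s.2.2.2 = ∞} with hU
  set W : Set EE := {s | s.2.2.1 ≠ 0} with hW
  have hUm : MeasurableSet U := (ms_S l).inter (m_j (measurableSet_singleton ∞))
  have hWm : MeasurableSet W := (m_m (measurableSet_singleton 0)).compl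
  have e1 : MM q q {t | Sv l (sd l t) ∧ (sd l t).2.2.2 = ∞} = rho l q q U := by
    rw [rho, Measure.map_apply (meas_sd l) hUm]
    rfl
  have e2 : MM q q {t | (sd l t).2.2.1 ≠ 0} = rho l q q W := by
    rw [rho, Measure.map_apply (meas_sd l) hWm]
    rfl
  rw [e1, e2]
  refine le_antisymm ?_ zero_le
  rw [← h2]
  have h3 : ∫⁻ s', ∫⁻ s, (W.indicator 1 s' * U.indicator 1 s) ∂(rho l q q) ∂(rho l q q) =
      rho l q q U * rho l q q W := by
    have h4 : ∀ s', ∫⁻ s, (W.indicator 1 s' * U.indicator 1 s) ∂(rho l q q) =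
        W.indicator 1 s' * rho l q q U := by
      intro s'
      rw [lintegral_const_mul _ (measurable_one.indicator hUm), lintegral_indicator_one hUm]
    simp_rw [h4]
    rw [lintegral_mul_const _ (measurable_one.indicator hWm), lintegral_indicator_one hWm, mul_comm]
  rw [← h3]
  refine lintegral_mono fun s' => lintegral_mono fun s => ?_
  by_cases hs' : s' ∈ W
  · by_cases hs : s ∈ U
    · rw [Set.indicator_of_mem hs', Set.indicator_of_mem hs]
      simp only [Pi.one_apply, mul_one]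
      exact (P5_ge l s s' hs.1 hs.2 hs').ge
    · rw [Set.indicator_of_notMem hs, mul_zero]
      exact zero_le
  · rw [Set.indicator_of_notMem hs', zero_mul]
    exact zero_le

theorem p_sq (n : ℕ) (hl : ∀ i ≤ n, l ∉ Lam D i)
    (hr : ∀ k : Fin (D + 1), (k : ℕ) < 2 → r {k} = 0) :
    (MM q q {t | md l t ≠ 0}) ^ 2 ≤ (n : ℝ≥0∞)⁻¹ := by
  classical
  -- the fourth kernel from below
  set B : Set (Cfg D) := {t | md l t ≠ 0} with hB
  have hBm : MeasurableSet B := (meas_md l (measurableSet_singleton 0)).compl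
  have h4 : (MM q q B) ^ 2 ≤ ∫⁻ t, chs l P4 t ∂(MM r q) := by
    set F : Fin (D + 1) → (ℕ → Cfg D) → ℝ≥0∞ := fun k d =>
      if 2 ≤ (k : ℕ) ∧ d 0 ∈ B ∧ d 1 ∈ B then 1 else 0 with hF
    have hF1 : ∀ k, Measurable (F k) := by
      intro k
      simp only [hF]
      refine Measurable.ite ?_ measurable_const measurable_const
      have m0 : Measurable fun d : ℕ → Cfg D => d 0 := measurable_pi_apply 0
      have m1 : Measurable fun d : ℕ → Cfg D => d 1 := measurable_pi_apply 1
      exact (MeasurableSet.const _).inter ((m0 hBm).inter (m1 hBm))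
    have h5 := law_root r q F hF1
    have h6 : ∀ k : Fin (D + 1), r {k} * ∫⁻ d, F k d ∂(PP q) = r {k} * (MM q q B) ^ 2 := by
      intro k
      by_cases hk : (k : ℕ) < 2
      · rw [hr k hk, zero_mul, zero_mul]
      · congr 1
        have h7 : ∀ d, F k d = (Set.pi (({0, 1} : Finset ℕ) : Set ℕ) (fun _ => B)).indicator 1 d := by
          intro d
          simp only [hF, Set.indicator]
          have : d ∈ Set.pi (({0, 1} : Finset ℕ) : Set ℕ) (fun _ => B) ↔
              2 ≤ (k : ℕ) ∧ d 0 ∈ B ∧ d 1 ∈ B := by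
            simp only [Finset.coe_insert, Finset.coe_singleton, Set.mem_pi, Set.mem_insert_iff,
              Set.mem_singleton_iff, forall_eq_or_imp, forall_eq]
            constructor
            · intro h; exact ⟨by omega, h⟩
            · intro h; exact h.2
          simp only [this]
          rfl
        simp_rw [h7]
        rw [lintegral_indicator_one (MeasurableSet.pi (Finset.countable_toSet _) fun _ _ => hBm),
          PP, Measure.infinitePi_pi _ fun _ _ => hBm]
        simp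
    rw [Finset.sum_congr rfl fun k _ => h6 k, ← Finset.sum_mul] at h5
    have h8 : ∑ k, r {k} = 1 := by
      have := measure_univ (μ := r)
      rw [← this, ← Finset.coe_univ, ← sum_measure_singleton]
    rw [h8, one_mul] at h5
    rw [← h5]
    refine lintegral_mono fun t => ?_
    simp only [hF]
    split_ifs with h
    · exact vertex4 l t h.1 h.2.1 h.2.2
    · exact zero_le
  -- the fourth kernel from above
  have h5 : ∫⁻ t, chs l P4 t ∂(MM r q) ≤ ∫⁻ t, chs l (P3 l n) t ∂(MM r q) := by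
    rw [edge l r q m hw hq P4 meas_P4, edge l r q m hw hq (P3 l n) (meas_P3 l n)]
    gcongr m * ?_
    have hm1 : Measurable (fun p : EE × EE => P4 (p.2, RR l p.1)) :=
      meas_P4.comp (measurable_snd.prodMk ((meas_RR l).comp measurable_fst))
    have hsw : ∫⁻ s', ∫⁻ s, P4 (s, RR l s') ∂(rho l q q) ∂(rho l q q) =
        ∫⁻ s', ∫⁻ s, P4 (s', RR l s) ∂(rho l q q) ∂(rho l q q) :=
      lintegral_lintegral_swap (μ := rho l q q) (ν := rho l q q)
        (f := fun s' s => P4 (s, RR l s')) hm1.aemeasurable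
    rw [hsw]
    refine lintegral_mono fun s' => ?_
    refine lintegral_mono_ae ?_
    have hae : ∀ᵐ s ∂(rho l q q), Sv l s → Nn n s := by
      rw [rho, ae_map_iff (meas_sd l).aemeasurable]
      · refine Eventually.of_forall fun t ht => ?_
        exact (block_large n l hl t ht.1.1 ht.1.2 ht.2).le
      · have : {s : EE | Sv l s → Nn n s} = {s | Sv l s}ᶜ ∪ {s | Nn n s} := by
          ext s
          simp only [Set.mem_setOf_eq, Set.mem_union, Set.mem_compl_iff]
          tauto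
        rw [this]
        exact (ms_S l).compl.union (ms_N n)
    filter_upwards [hae] with s hs
    exact P4_le l n s s' hs
  exact h4.trans (h5.trans (le_add_self.trans (main_ineq l r q m hw hq n)))

end main

end Pool.Agent.HL274.GW
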