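import Pool.Agent.HL274.GW.Edge

/-!
The kernels on the edges: pointwise identities.
-/

set_option autoImplicit false

namespace Pool.Agent.HL274.GW

open scoped ENNReal Topology
open MeasureTheory Filter

variable {D : ℕ}

/-- no mass, finite energy -/
def Cc (s : EE) : Prop := s.2.2.1 = 0 ∧ s.2.1 ≠ ∞

/-- the root carries mass -/
def Sv (l : ℝ) (s : EE) : Prop := Cc s ∧ s.1 = l

/-- large blocks -/
def Nn (n : ℕ) (s : EE) : Prop := (n : ℝ≥0∞) ≤ 1 + s.2.2.2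

theorem RR_one (l : ℝ) (s : EE) (h : s.2.2.1 ≠ 0) : RR l s = (0, ((s.2.2.1)⁻¹, (0, 0))) := by
  unfold RR
  rw [if_pos h]

theorem RR_three (l : ℝ) (s : EE) (h : Sv l s) : RR l s = (0, (∞, ((1 + s.2.1)⁻¹, 0))) := by
  unfold RR
  rw [if_neg (not_not.2 h.1.1), if_neg h.1.2, if_pos h.2]

theorem RR_four (l : ℝ) (s : EE) (h : Cc s) (h2 : s.1 ≠ l) :
    RR l s = ((l - s.1)⁻¹, ((1 + s.2.1) * (ENNReal.ofReal ((l - s.1) ^ 2))⁻¹, (0, 1 + s.2.2.2))) := by
  unfold RR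
  rw [if_neg (not_not.2 h.1), if_neg h.2, if_neg h2]

/-- mass is only at the centres -/
theorem RR_mass (l : ℝ) (s : EE) (h : (RR l s).2.2.1 ≠ 0) : Sv l s := by
  unfold RR at h
  split_ifs at h with h1 h2 h3
  · exact absurd rfl h
  · exact absurd rfl h
  · push Not at h1
    exact ⟨⟨h1, h2⟩, h3⟩
  · exact absurd rfl h

theorem Cc_add (s x : EE) : Cc (s + x) ↔ Cc s ∧ Cc x := by
  unfold Cc
  have h1 : (s + x).2.2.1 = s.2.2.1 + x.2.2.1 := rfl
  have h2 : (s + x).2.1 = s.2.1 + x.2.1 := rfl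
  rw [h1, h2, add_eq_zero, ENNReal.add_ne_top]
  tauto

/-- weights of the sizes -/
noncomputable def ww (x y : ℝ≥0∞) : ℝ≥0∞ := if x = ∞ then (if y = ∞ then 2⁻¹ else 1) else x / (x + y)

open Classical in
/-- first kernel -/
noncomputable def P1 (l : ℝ) (n : ℕ) (y : EE × EE) : ℝ≥0∞ :=
  if Sv l (y.1 + y.2) ∧ y.2.1 ≠ 0 ∧ Nn n (y.1 + y.2) then y.2.2.1 * (1 + (y.1 + y.2).2.1)⁻¹ else 0

open Classical in
/-- second kernel -/
noncomputable def P2 (l : ℝ) (n : ℕ) (y : EE × EE) : ℝ≥0∞ :=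
  if Sv l (y.1 + y.2) ∧ y.2.1 ≠ 0 ∧ Nn n (y.1 + y.2) then ww y.2.2.2.2 (1 + y.1.2.2.2) else 0

open Classical in
/-- third kernel -/
noncomputable def P3 (l : ℝ) (n : ℕ) (y : EE × EE) : ℝ≥0∞ :=
  if Sv l (y.1 + y.2) ∧ y.2.1 = 0 ∧ Nn n (y.1 + y.2) then y.2.2.1 * (1 + (y.1 + y.2).2.1)⁻¹ else 0

open Classical in
/-- fourth kernel -/
noncomputable def P4 (y : EE × EE) : ℝ≥0∞ :=
  if y.2.2.2.1 ≠ 0 ∧ y.1.2.2.1 ≠ 0 then y.2.2.2.1 / (y.1.2.2.1 + y.2.2.2.1) else 0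

open Classical in
/-- fifth kernel -/
noncomputable def P5 (l : ℝ) (y : EE × EE) : ℝ≥0∞ :=
  if Sv l (y.1 + y.2) ∧ (y.1 + y.2).2.2.2 = ∞ then 1 else 0

theorem m_g : Measurable fun s : EE => s.1 := measurable_fst
theorem m_q : Measurable fun s : EE => s.2.1 := measurable_snd.fst
theorem m_m : Measurable fun s : EE => s.2.2.1 := measurable_snd.snd.fst
theorem m_j : Measurable fun s : EE => s.2.2.2 := measurable_snd.snd.snd

theorem ms_C : MeasurableSet {s : EE | Cc s} :=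
  (m_m (measurableSet_singleton 0)).inter (m_q (measurableSet_singleton ∞)).compl

theorem ms_S (l : ℝ) : MeasurableSet {s : EE | Sv l s} :=
  ms_C.inter (m_g (measurableSet_singleton l))

theorem ms_N (n : ℕ) : MeasurableSet {s : EE | Nn n s} :=
  measurableSet_le measurable_const (m_j.const_add 1)

theorem m_add : Measurable fun y : EE × EE => y.1 + y.2 := measurable_fst.add measurable_snd

theorem meas_ww (f g : EE × EE → ℝ≥0∞) (hf : Measurable f) (hg : Measurable g) :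
    Measurable fun y => ww (f y) (g y) := by
  unfold ww
  exact Measurable.ite (hf (measurableSet_singleton ∞))
    (Measurable.ite (hg (measurableSet_singleton ∞)) measurable_const measurable_const)
    (hf.div (hf.add hg))

theorem meas_val : Measurable fun y : EE × EE => y.2.2.1 * (1 + (y.1 + y.2).2.1)⁻¹ :=
  (m_q.comp measurable_snd).mul (((m_q.comp m_add).const_add 1).inv)

theorem ms_cond (l : ℝ) (n : ℕ) :
    MeasurableSet {y : EE × EE | Sv l (y.1 + y.2) ∧ y.2.1 ≠ 0 ∧ Nn n (y.1 + y.2)} :=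
  (m_add (ms_S l)).inter (((m_g.comp measurable_snd) (measurableSet_singleton 0)).compl.inter
    (m_add (ms_N n)))

theorem meas_P1 (l : ℝ) (n : ℕ) : Measurable (P1 l n) := by
  classical
  exact Measurable.ite (ms_cond l n) meas_val measurable_const

theorem meas_P2 (l : ℝ) (n : ℕ) : Measurable (P2 l n) := by
  classical
  refine Measurable.ite (ms_cond l n) ?_ measurable_const
  exact meas_ww _ _ (m_j.comp measurable_snd) ((m_j.comp measurable_fst).const_add 1)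

theorem meas_P3 (l : ℝ) (n : ℕ) : Measurable (P3 l n) := by
  classical
  refine Measurable.ite ?_ meas_val measurable_const
  exact (m_add (ms_S l)).inter (((m_g.comp measurable_snd) (measurableSet_singleton 0)).inter
    (m_add (ms_N n)))

theorem meas_P4 : Measurable P4 := by
  classical
  refine Measurable.ite ?_ ?_ measurable_const
  · exact ((m_m.comp measurable_snd) (measurableSet_singleton 0)).compl.inter
      ((m_m.comp measurable_fst) (measurableSet_singleton 0)).compl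
  · exact (m_m.comp measurable_snd).div ((m_m.comp measurable_fst).add (m_m.comp measurable_snd))

theorem meas_P5 (l : ℝ) : Measurable (P5 l) := by
  classical
  refine Measurable.ite ?_ measurable_const measurable_const
  exact (m_add (ms_S l)).inter (m_add (m_j (measurableSet_singleton ∞)))

/-- the condition for an inner edge -/
theorem cond_iff (l : ℝ) (n : ℕ) (s s' : EE) :
    (Sv l (s + RR l s') ∧ (RR l s').1 ≠ 0 ∧ Nn n (s + RR l s')) ↔
      (Cc s ∧ Cc s' ∧ (l - s.1) * (l - s'.1) = 1 ∧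
        (n : ℝ≥0∞) ≤ (1 + s.2.2.2) + (1 + s'.2.2.2)) := by
  constructor
  · rintro ⟨⟨h1, h2⟩, h3, h4⟩
    rw [Cc_add] at h1
    rcases RR_cases l s' h1.2.1 h1.2.2 with ⟨e1, -, -⟩ | ⟨e1, e2, e3, e4, e5, -⟩
    · exact absurd e1 h3
    · refine ⟨h1.1, ⟨e1, e2⟩, ?_, ?_⟩
      · have h5 : s.1 + (RR l s').1 = l := h2
        rw [e4] at h5
        have h6 : l - s'.1 ≠ 0 := sub_ne_zero.2 (Ne.symm e3)
        have h7 : l - s.1 = (l - s'.1)⁻¹ := by linarith
        rw [h7, inv_mul_cancel₀ h6]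
      · have h5 : (n : ℝ≥0∞) ≤ 1 + (s.2.2.2 + (RR l s').2.2.2) := h4
        rw [e5] at h5
        rw [add_assoc]
        exact h5
  · rintro ⟨h1, h2, h3, h4⟩
    have h5 : s'.1 ≠ l := by
      intro h
      rw [h, sub_self, mul_zero] at h3
      exact zero_ne_one h3
    have h6 : l - s'.1 ≠ 0 := sub_ne_zero.2 (Ne.symm h5)
    have e := RR_four l s' h2 h5
    have h7 : Cc (RR l s') := by
      rw [e]
      refine ⟨rfl, ?_⟩
      have hpos : 0 < (l - s'.1) ^ 2 := by positivity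
      refine ENNReal.mul_ne_top (ENNReal.add_ne_top.2 ⟨ENNReal.one_ne_top, h2.2⟩) ?_
      rw [ENNReal.inv_ne_top, Ne, ENNReal.ofReal_eq_zero]
      linarith
    refine ⟨⟨(Cc_add _ _).2 ⟨h1, h7⟩, ?_⟩, ?_, ?_⟩
    · change s.1 + (RR l s').1 = l
      rw [e]
      have h8 : (l - s'.1)⁻¹ = l - s.1 := by
        rw [inv_eq_iff_eq_inv, eq_comm]
        exact inv_eq_of_mul_eq_one_right h3
      change s.1 + (l - s'.1)⁻¹ = l
      rw [h8]
      ring
    · rw [e]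
      exact inv_ne_zero h6
    · change (n : ℝ≥0∞) ≤ 1 + (s.2.2.2 + (RR l s').2.2.2)
      rw [e]
      change (n : ℝ≥0∞) ≤ 1 + (s.2.2.2 + (1 + s'.2.2.2))
      rw [← add_assoc]
      exact h4

theorem ww_sum (x y : ℝ≥0∞) (hx : x ≠ 0) : ww x y + ww y x = 1 := by
  unfold ww
  by_cases h1 : x = ∞ <;> by_cases h2 : y = ∞
  · rw [if_pos h1, if_pos h2, if_pos h2, if_pos h1]
    exact ENNReal.inv_two_add_inv_two
  · rw [if_pos h1, if_neg h2, if_neg h2, h1]
    simp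
  · rw [if_neg h1, if_pos h2, if_neg h1, h2]
    simp
  · rw [if_neg h1, if_neg h2, add_comm y x, ← ENNReal.add_div]
    exact ENNReal.div_self (by simp [hx]) (by simp [h1, h2])

theorem val_sum (A B c c' : ℝ≥0∞) (hA : A ≠ 0) (hA' : A ≠ ∞) (hB' : B ≠ ∞)
    (hc : c ≠ 0) (hc' : c ≠ ∞) (hcc : c' = c⁻¹) :
    B * c⁻¹ * (A + B * c⁻¹)⁻¹ + A * c'⁻¹ * (B + A * c'⁻¹)⁻¹ = 1 := by
  subst hcc
  rw [inv_inv]
  have h1 : B + A * c = c * (A + B * c⁻¹) := by
    rw [mul_add, mul_comm c A, mul_comm B, ← mul_assoc, ENNReal.mul_inv_cancel hc hc', one_mul,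
      add_comm]
  have h2 : A + B * c⁻¹ ≠ 0 := by simp [hA]
  have h3 : A + B * c⁻¹ ≠ ∞ :=
    ENNReal.add_ne_top.2 ⟨hA', ENNReal.mul_ne_top hB' (ENNReal.inv_ne_top.2 hc)⟩
  rw [h1, ENNReal.mul_inv (Or.inl hc) (Or.inl hc')]
  have h4 : A * c * (c⁻¹ * (A + B * c⁻¹)⁻¹) = A * (A + B * c⁻¹)⁻¹ := by
    rw [mul_assoc, ← mul_assoc c, ENNReal.mul_inv_cancel hc hc', one_mul]
  rw [h4, ← add_mul, add_comm (B * c⁻¹), ENNReal.mul_inv_cancel h2 h3]

theorem pair_id (l : ℝ) (n : ℕ) (s s' : EE) :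
    P1 l n (s, RR l s') + P1 l n (s', RR l s) = P2 l n (s, RR l s') + P2 l n (s', RR l s) := by
  classical
  unfold P1 P2
  simp only
  have hX := cond_iff l n s s'
  have hY := cond_iff l n s' s
  by_cases h : Cc s ∧ Cc s' ∧ (l - s.1) * (l - s'.1) = 1 ∧
        (n : ℝ≥0∞) ≤ (1 + s.2.2.2) + (1 + s'.2.2.2)
  · have h' : Cc s' ∧ Cc s ∧ (l - s'.1) * (l - s.1) = 1 ∧
        (n : ℝ≥0∞) ≤ (1 + s'.2.2.2) + (1 + s.2.2.2) :=
      ⟨h.2.1, h.1, by rw [mul_comm]; exact h.2.2.1, by rw [add_comm]; exact h.2.2.2⟩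
    rw [if_pos (hX.2 h), if_pos (hY.2 h'), if_pos (hX.2 h), if_pos (hY.2 h')]
    obtain ⟨h1, h2, h3, -⟩ := h
    have h5 : s'.1 ≠ l := by
      intro h
      rw [h, sub_self, mul_zero] at h3
      exact zero_ne_one h3
    have h6 : s.1 ≠ l := by
      intro h
      rw [h, sub_self, zero_mul] at h3
      exact zero_ne_one h3
    have h5' : 0 < (l - s'.1) ^ 2 := by
      have : l - s'.1 ≠ 0 := sub_ne_zero.2 (Ne.symm h5)
      positivity
    have hc : ENNReal.ofReal ((l - s.1) ^ 2) = (ENNReal.ofReal ((l - s'.1) ^ 2))⁻¹ := by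
      rw [← ENNReal.ofReal_inv_of_pos h5']
      congr 1
      rw [eq_comm, inv_eq_iff_eq_inv, eq_comm]
      apply inv_eq_of_mul_eq_one_right
      rw [← mul_pow, h3, one_pow]
    have e := RR_four l s' h2 h5
    have e' := RR_four l s h1 h6
    have q1 : (RR l s').2.1 = (1 + s'.2.1) * (ENNReal.ofReal ((l - s'.1) ^ 2))⁻¹ := by rw [e]
    have q2 : (RR l s).2.1 = (1 + s.2.1) * (ENNReal.ofReal ((l - s.1) ^ 2))⁻¹ := by rw [e']
    have j1 : (RR l s').2.2.2 = 1 + s'.2.2.2 := by rw [e]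
    have j2 : (RR l s).2.2.2 = 1 + s.2.2.2 := by rw [e']
    have a1 : (s + RR l s').2.1 = s.2.1 + (RR l s').2.1 := rfl
    have a2 : (s' + RR l s).2.1 = s'.2.1 + (RR l s).2.1 := rfl
    rw [a1, a2, q1, q2, j1, j2, ww_sum _ _ (by simp), ← add_assoc, ← add_assoc]
    refine val_sum (1 + s.2.1) (1 + s'.2.1) _ _ (by simp)
      (ENNReal.add_ne_top.2 ⟨ENNReal.one_ne_top, h1.2⟩)
      (ENNReal.add_ne_top.2 ⟨ENNReal.one_ne_top, h2.2⟩) ?_ ENNReal.ofReal_ne_top hc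
    rw [Ne, ENNReal.ofReal_eq_zero]
    linarith
  · have h' : ¬ (Cc s' ∧ Cc s ∧ (l - s'.1) * (l - s.1) = 1 ∧
        (n : ℝ≥0∞) ≤ (1 + s'.2.2.2) + (1 + s.2.2.2)) := by
      rintro ⟨a, b, c, d⟩
      exact h ⟨b, a, by rw [mul_comm]; exact c, by rw [add_comm]; exact d⟩
    rw [if_neg (fun x => h (hX.1 x)), if_neg (fun x => h' (hY.1 x)),
      if_neg (fun x => h (hX.1 x)), if_neg (fun x => h' (hY.1 x))]

/-- comparison of the third and the fourth kernel -/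
theorem P4_le (l : ℝ) (n : ℕ) (s s' : EE) (hs : Sv l s → Nn n s) :
    P4 (s', RR l s) ≤ P3 l n (s, RR l s') := by
  classical
  unfold P4
  simp only
  split_ifs with h
  · have h1 := RR_mass l s h.1
    have e := RR_three l s h1
    have e' := RR_one l s' h.2
    have m1 : (RR l s).2.2.1 = (1 + s.2.1)⁻¹ := by rw [e]
    by_cases ht : s'.2.2.1 = ∞
    · rw [ht]
      simp
    have hz : (s'.2.2.1)⁻¹ ≠ ∞ := ENNReal.inv_ne_top.2 h.2
    have c1 : Sv l (s + RR l s') := by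
      refine ⟨(Cc_add _ _).2 ⟨h1.1, ?_⟩, ?_⟩
      · rw [e']
        exact ⟨rfl, hz⟩
      · change s.1 + (RR l s').1 = l
        rw [e', h1.2]
        simp
    have c2 : (RR l s').1 = 0 := by rw [e']
    have c3 : Nn n (s + RR l s') := by
      have := hs h1
      unfold Nn at this ⊢
      change (n : ℝ≥0∞) ≤ 1 + (s.2.2.2 + (RR l s').2.2.2)
      rw [e']
      simpa using this
    unfold P3
    simp only
    rw [if_pos ⟨c1, c2, c3⟩, m1]
    have a1 : (s + RR l s').2.1 = s.2.1 + (RR l s').2.1 := rfl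
    have q1 : (RR l s').2.1 = (s'.2.2.1)⁻¹ := by rw [e']
    rw [a1, q1, ← add_assoc]
    set A := 1 + s.2.1 with hA
    set B := s'.2.2.1 with hB
    have hA0 : A ≠ 0 := by simp [hA]
    have hA1 : A ≠ ∞ := ENNReal.add_ne_top.2 ⟨ENNReal.one_ne_top, h1.1.2⟩
    -- both are equal to `(B * A + 1)⁻¹`
    have r1 : A⁻¹ / (B + A⁻¹) = (A * B + 1)⁻¹ := by
      rw [ENNReal.div_eq_inv_mul, mul_comm, ← ENNReal.mul_inv (Or.inl hA0) (Or.inl hA1), mul_add,
        ENNReal.mul_inv_cancel hA0 hA1]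
    have r2 : B⁻¹ * (A + B⁻¹)⁻¹ = (A * B + 1)⁻¹ := by
      rw [← ENNReal.mul_inv (Or.inl h.2) (Or.inl ht), mul_add, ENNReal.mul_inv_cancel h.2 ht,
        mul_comm B A]
    rw [r1, r2]
  · exact zero_le

theorem P5_ge (l : ℝ) (s s' : EE) (h1 : Sv l s) (h2 : s.2.2.2 = ∞) (h3 : s'.2.2.1 ≠ 0) :
    P5 l (s, RR l s') = 1 := by
  classical
  have e' := RR_one l s' h3
  have hz : (s'.2.2.1)⁻¹ ≠ ∞ := ENNReal.inv_ne_top.2 h3
  have c1 : Sv l (s + RR l s') := by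
    refine ⟨(Cc_add _ _).2 ⟨h1.1, ?_⟩, ?_⟩
    · rw [e']
      exact ⟨rfl, hz⟩
    · change s.1 + (RR l s').1 = l
      rw [e', h1.2]
      simp
  have c2 : (s + RR l s').2.2.2 = ∞ := by
    change s.2.2.2 + (RR l s').2.2.2 = ∞
    rw [h2]
    simp
  unfold P5
  simp only
  rw [if_pos ⟨c1, c2⟩]

end Pool.Agent.HL274.GW
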