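import Pool.Agent.HL274.GW.Meas

/-!
The laws of the trees.
-/

set_option autoImplicit false

namespace Pool.Agent.HL274.GW

open scoped ENNReal Topology
open MeasureTheory Filter

variable {D : ℕ}

/-- the laws of the numbers of children -/
noncomputable def rq (r q : Measure (Fin (D + 1))) (w : List ℕ) : Measure (Fin (D + 1)) :=
  if w = [] then r else q

instance rq_prob (r q : Measure (Fin (D + 1))) [IsProbabilityMeasure r] [IsProbabilityMeasure q]
    (w : List ℕ) : IsProbabilityMeasure (rq r q w) := by
  unfold rq
  split_ifs <;> infer_instance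

/-- the law of the tree -/
noncomputable def MM (r q : Measure (Fin (D + 1))) [IsProbabilityMeasure r]
    [IsProbabilityMeasure q] : Measure (Cfg D) :=
  Measure.infinitePi (rq r q)

instance MM_prob (r q : Measure (Fin (D + 1))) [IsProbabilityMeasure r] [IsProbabilityMeasure q] :
    IsProbabilityMeasure (MM r q) := by
  unfold MM
  infer_instance

/-- the law of a family of independent branches -/
noncomputable def PP (q : Measure (Fin (D + 1))) [IsProbabilityMeasure q] :
    Measure (ℕ → Cfg D) :=
  Measure.infinitePi (fun _ : ℕ => MM q q)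

instance PP_prob (q : Measure (Fin (D + 1))) [IsProbabilityMeasure q] :
    IsProbabilityMeasure (PP q) := by
  unfold PP
  infer_instance

/-- a tree from its root degree and its branches -/
def Th (p : Fin (D + 1) × (ℕ → Cfg D)) : Cfg D
  | [] => p.1
  | a :: u => p.2 a u

theorem meas_Th : Measurable (Th : Fin (D + 1) × (ℕ → Cfg D) → Cfg D) := by
  refine measurable_pi_lambda _ fun w => ?_
  rcases w with _ | ⟨a, u⟩
  · exact measurable_fst
  · have h : Measurable (fun p : Fin (D + 1) × (ℕ → Cfg D) => p.2 a) :=
      (measurable_pi_apply a).comp measurable_snd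
    exact (measurable_pi_apply u).comp h

theorem sh_Th (k : Fin (D + 1)) (d : ℕ → Cfg D) (a : ℕ) : sh (Th (k, d)) a = d a := rfl

theorem nil_Th (k : Fin (D + 1)) (d : ℕ → Cfg D) : Th (k, d) [] = k := rfl

/-- the same with flat coordinates -/
def Th' (p : Fin (D + 1) × (ℕ × List ℕ → Fin (D + 1))) : Cfg D
  | [] => p.1
  | a :: u => p.2 (a, u)

theorem meas_Th' : Measurable (Th' : Fin (D + 1) × (ℕ × List ℕ → Fin (D + 1)) → Cfg D) := by
  refine measurable_pi_lambda _ fun w => ?_
  rcases w with _ | ⟨a, u⟩
  · exact measurable_fst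
  · exact (measurable_pi_apply (a, u)).comp measurable_snd

theorem cons_inj2 : Function.Injective (fun p : ℕ × List ℕ => p.1 :: p.2) := by
  rintro ⟨a, u⟩ ⟨b, v⟩ h
  simp only [List.cons.injEq] at h
  exact Prod.ext h.1 h.2

theorem Th'_law (r q : Measure (Fin (D + 1))) [IsProbabilityMeasure r] [IsProbabilityMeasure q] :
    (r.prod (Measure.infinitePi fun _ : ℕ × List ℕ => q)).map Th' = MM r q := by
  classical
  refine Measure.eq_infinitePi _ fun s t ht => ?_
  rw [Measure.map_apply meas_Th' (MeasurableSet.pi s.countable_toSet fun _ _ => ht _)]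
  set s' : Finset (ℕ × List ℕ) := s.preimage (fun p => p.1 :: p.2) cons_inj2.injOn with hs'
  have h1 : Th' ⁻¹' (Set.pi (s : Set (List ℕ)) t) =
      (if [] ∈ s then t [] else Set.univ) ×ˢ Set.pi (s' : Set (ℕ × List ℕ)) (fun p => t (p.1 :: p.2)) := by
    ext ⟨k, c⟩
    simp only [Set.mem_preimage, Set.mem_pi, Finset.mem_coe, Set.mem_prod, hs', Finset.mem_preimage]
    constructor
    · intro h
      refine ⟨?_, fun p hp => h (p.1 :: p.2) hp⟩
      split_ifs with h0
      · exact h [] h0
      · exact Set.mem_univ _
    · rintro ⟨h, h'⟩ w hw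
      rcases w with _ | ⟨a, u⟩
      · rw [if_pos hw] at h
        exact h
      · exact h' (a, u) hw
  rw [h1, Measure.prod_prod, Measure.infinitePi_pi _ fun p _ => ht _]
  have h2 : ∀ w, (rq r q w) (t w) = (if w = [] then r (t []) else 1) *
      (if w = [] then 1 else q (t w)) := by
    intro w
    unfold rq
    split_ifs with h
    · subst h; rw [mul_one]
    · rw [one_mul]
  simp_rw [h2]
  rw [Finset.prod_mul_distrib, Finset.prod_ite_eq']
  congr 1
  · split_ifs
    · rfl
    · exact measure_univ
  · have h3 : ∀ p : ℕ × List ℕ, q (t (p.1 :: p.2)) =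
        (fun w => if w = [] then (1 : ℝ≥0∞) else q (t w)) ((fun p : ℕ × List ℕ => p.1 :: p.2) p) := by
      intro p
      simp
    rw [Finset.prod_congr rfl fun p _ => h3 p, hs']
    have h4 := Finset.prod_preimage (fun p : ℕ × List ℕ => p.1 :: p.2) s cons_inj2.injOn
      (fun w => if w = [] then (1 : ℝ≥0∞) else q (t w)) (by
      intro w _ hw
      rcases w with _ | ⟨a, u⟩
      · rfl
      · exact absurd ⟨(a, u), rfl⟩ hw)
    exact h4

theorem MM_const (q : Measure (Fin (D + 1))) [IsProbabilityMeasure q] :
    MM q q = Measure.infinitePi fun _ : List ℕ => q := by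
  unfold MM
  congr 1
  funext w
  unfold rq
  split_ifs <;> rfl

theorem Th_law (r q : Measure (Fin (D + 1))) [IsProbabilityMeasure r] [IsProbabilityMeasure q] :
    (r.prod (PP q)).map Th = MM r q := by
  have h1 : PP q = Measure.infinitePi fun _ : ℕ => Measure.infinitePi fun _ : List ℕ => q := by
    unfold PP
    congr 1
    funext _
    exact MM_const q
  have h2 := Measure.infinitePi_map_curry (fun (_ : ℕ) (_ : List ℕ) => q)
  rw [h1, ← h2, ← Th'_law]
  have h3 : r.prod ((Measure.infinitePi fun _ : ℕ × List ℕ => q).map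
      (MeasurableEquiv.curry ℕ (List ℕ) (Fin (D + 1)))) =
      (r.prod (Measure.infinitePi fun _ : ℕ × List ℕ => q)).map
        (Prod.map id (MeasurableEquiv.curry ℕ (List ℕ) (Fin (D + 1)))) := by
    rw [← Measure.map_prod_map _ _ measurable_id (MeasurableEquiv.measurable _), Measure.map_id]
  rw [h3, Measure.map_map meas_Th (by fun_prop)]
  rfl

/-- decomposition at the root -/
theorem law_root (r q : Measure (Fin (D + 1))) [IsProbabilityMeasure r] [IsProbabilityMeasure q]
    (F : Fin (D + 1) → (ℕ → Cfg D) → ℝ≥0∞) (hF : ∀ k, Measurable (F k)) :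
    ∫⁻ t, F (t []) (fun a => sh t a) ∂(MM r q) = ∑ k, r {k} * ∫⁻ d, F k d ∂(PP q) := by
  have hF' : Measurable (fun p : Fin (D + 1) × (ℕ → Cfg D) => F p.1 p.2) :=
    measurable_from_prod_countable_right fun k => hF k
  have hm : Measurable (fun t : Cfg D => F (t []) (fun a => sh t a)) := by
    have : (fun t : Cfg D => F (t []) (fun a => sh t a)) =
        (fun p : Fin (D + 1) × (ℕ → Cfg D) => F p.1 p.2) ∘ (fun t : Cfg D => (t [], fun a => sh t a)) :=
      rfl
    rw [this]
    exact hF'.comp ((measurable_pi_apply _).prodMk (measurable_pi_lambda _ fun a => meas_sh a))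
  rw [← Th_law, lintegral_map hm meas_Th]
  have e := lintegral_prod (μ := r) (ν := PP q)
    (fun z => F (Th z []) (fun a => sh (Th z) a)) (hm.comp meas_Th).aemeasurable
  rw [e, lintegral_fintype]
  refine Finset.sum_congr rfl fun k _ => ?_
  rw [mul_comm]
  rfl

/-- independence of one coordinate -/
theorem update_law {X : Type*} [MeasurableSpace X] (μ : Measure X) [IsProbabilityMeasure μ] (m : ℕ) :
    (μ.prod (Measure.infinitePi fun _ : ℕ => μ)).map (fun p : X × (ℕ → X) => Function.update p.2 m p.1) =
      Measure.infinitePi fun _ : ℕ => μ := by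
  classical
  have hm : Measurable (fun p : X × (ℕ → X) => Function.update p.2 m p.1) := by
    refine measurable_pi_lambda _ fun i => ?_
    by_cases h : i = m
    · subst h
      simp only [Function.update_self]
      exact measurable_fst
    · simp only [Function.update_of_ne h]
      exact (measurable_pi_apply i).comp measurable_snd
  refine Measure.eq_infinitePi _ fun s t ht => ?_
  rw [Measure.map_apply hm (MeasurableSet.pi s.countable_toSet fun _ _ => ht _)]
  have h1 : (fun p : X × (ℕ → X) => Function.update p.2 m p.1) ⁻¹' (Set.pi (s : Set ℕ) t) =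
      (if m ∈ s then t m else Set.univ) ×ˢ Set.pi ((s.erase m : Finset ℕ) : Set ℕ) t := by
    ext ⟨k, c⟩
    simp only [Set.mem_preimage, Set.mem_pi, Finset.mem_coe, Set.mem_prod, Finset.mem_erase]
    constructor
    · intro h
      refine ⟨?_, fun i hi => ?_⟩
      · split_ifs with h0
        · have := h m h0
          simpa using this
        · exact Set.mem_univ _
      · have := h i hi.2
        rwa [Function.update_of_ne hi.1] at this
    · rintro ⟨h, h'⟩ i hi
      by_cases hm : i = m
      · subst hm
        rw [if_pos hi] at h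
        simpa using h
      · rw [Function.update_of_ne hm]
        exact h' i ⟨hm, hi⟩
  rw [h1, Measure.prod_prod, Measure.infinitePi_pi _ fun p _ => ht _]
  split_ifs with h0
  · exact Finset.mul_prod_erase s (fun i => μ (t i)) h0
  · rw [measure_univ, one_mul, Finset.erase_eq_of_notMem h0]

theorem swap_law {X : Type*} [MeasurableSpace X] (μ : Measure X) [IsProbabilityMeasure μ]
    (e : Equiv.Perm ℕ) :
    (Measure.infinitePi fun _ : ℕ => μ).map (fun d : ℕ → X => fun i => d (e i)) =
      Measure.infinitePi fun _ : ℕ => μ :=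
  Measure.map_infinitePi_infinitePi_of_inj e.injective

end Pool.Agent.HL274.GW
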