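import Pool.Agent.HL274.GW.Rec

/-!
Limits of the resolvent quantities on the real line.
-/

set_option autoImplicit false

namespace Pool.Agent.HL274.GW

open scoped ENNReal Topology
open MeasureTheory Filter

/-- the sequence `1 / (n + 1)` -/
noncomputable def ep (n : ℕ) : ℝ := 1 / ((n : ℝ) + 1)

theorem ep_pos (n : ℕ) : 0 < ep n := by unfold ep; positivity

theorem ep_ne (n : ℕ) : ep n ≠ 0 := (ep_pos n).ne'

theorem ep_lim : Tendsto ep atTop (𝓝 0) := tendsto_one_div_add_atTop_nhds_zero_nat

theorem ep_anti : Antitone ep := by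
  intro m n h
  unfold ep
  have : (m : ℝ) ≤ n := by exact_mod_cast h
  apply one_div_le_one_div_of_le <;> [positivity; linarith]

variable (μ : Measure ℝ) [IsFiniteMeasure μ] (l : ℝ)

theorem kq_bound {e : ℝ} (he : 0 < e) (x : ℝ) : |kq l e x| ≤ 1 / e ^ 2 := by
  unfold kq
  rw [abs_of_pos (by positivity)]
  apply one_div_le_one_div_of_le (by positivity)
  nlinarith [sq_nonneg (x - l)]

theorem kq_int {e : ℝ} (he : 0 < e) : Integrable (kq l e) μ :=
  Integrable.of_bound (kq_cont l he.ne').aestronglyMeasurable (1 / e ^ 2)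
    (Eventually.of_forall fun x => kq_bound l he x)

theorem two_mul_abs (y e : ℝ) : 2 * (|y| * |e|) ≤ y ^ 2 + e ^ 2 := by
  nlinarith [sq_nonneg (|y| - |e|), sq_abs y, sq_abs e]

theorem kg_bound {e : ℝ} (he : 0 < e) (x : ℝ) : |e * kg l e x| ≤ 1 := by
  unfold kg
  rw [abs_mul, abs_div, abs_of_pos (den_pos l he.ne' x), ← mul_div_assoc,
    div_le_one (den_pos l he.ne' x)]
  have := two_mul_abs (x - l) e
  rw [abs_sub_comm l x]
  nlinarith [abs_nonneg (x - l), abs_nonneg e]

theorem kg_int {e : ℝ} (he : 0 < e) : Integrable (kg l e) μ := by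
  refine Integrable.of_bound (kg_cont l he.ne').aestronglyMeasurable (1 / e)
    (Eventually.of_forall fun x => ?_)
  have := kg_bound l he x
  rw [abs_mul, abs_of_pos he] at this
  rw [Real.norm_eq_abs, le_div_iff₀ he]
  linarith

/-- the total energy -/
noncomputable def Qm : ℝ≥0∞ := ∫⁻ x, (ENNReal.ofReal ((x - l) ^ 2))⁻¹ ∂μ

theorem lim_q : Tendsto (fun n => ENNReal.ofReal (∫ x, kq l (ep n) x ∂μ)) atTop (𝓝 (Qm μ l)) := by
  have h1 : ∀ n, ENNReal.ofReal (∫ x, kq l (ep n) x ∂μ) =
      ∫⁻ x, (ENNReal.ofReal ((x - l) ^ 2 + ep n ^ 2))⁻¹ ∂μ := by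
    intro n
    rw [ofReal_integral_eq_lintegral_ofReal (kq_int μ l (ep_pos n))
      (Eventually.of_forall fun x => by unfold kq; have := (den_pos l (ep_ne n) x).le; positivity)]
    refine lintegral_congr fun x => ?_
    unfold kq
    rw [one_div, ENNReal.ofReal_inv_of_pos (den_pos l (ep_ne n) x)]
  simp_rw [h1]
  refine lintegral_tendsto_of_tendsto_of_monotone (fun n => ?_) ?_ ?_
  · have : Measurable fun x : ℝ => (ENNReal.ofReal ((x - l) ^ 2 + ep n ^ 2))⁻¹ := by fun_prop
    exact this.aemeasurable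
  · refine Eventually.of_forall fun x => ?_
    intro m n h
    simp only
    apply ENNReal.inv_le_inv.2
    apply ENNReal.ofReal_le_ofReal
    have := ep_anti h
    have h2 := ep_pos n
    nlinarith
  · refine Eventually.of_forall fun x => ?_
    refine tendsto_inv_iff.2 ?_
    refine (ENNReal.continuous_ofReal.tendsto _).comp ?_
    have : Tendsto (fun n => (x - l) ^ 2 + ep n ^ 2) atTop (𝓝 ((x - l) ^ 2 + 0 ^ 2)) :=
      tendsto_const_nhds.add (ep_lim.pow 2)
    simpa using this

theorem lim_m : Tendsto (fun n => ep n ^ 2 * ∫ x, kq l (ep n) x ∂μ) atTop (𝓝 (μ.real {l})) := by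
  have h1 : ∀ n, ep n ^ 2 * ∫ x, kq l (ep n) x ∂μ = ∫ x, ep n ^ 2 * kq l (ep n) x ∂μ := fun n =>
    (integral_const_mul _ _).symm
  simp_rw [h1]
  have h2 : μ.real {l} = ∫ x, (Set.indicator {l} (fun _ => (1 : ℝ)) x) ∂μ := by
    rw [integral_indicator_const _ (measurableSet_singleton l)]
    simp
  rw [h2]
  refine tendsto_integral_of_dominated_convergence (fun _ => 1) (fun n => ?_) (integrable_const _)
    (fun n => Eventually.of_forall fun x => ?_) (Eventually.of_forall fun x => ?_)
  · exact ((kq_cont l (ep_ne n)).const_mul _).aestronglyMeasurable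
  · have := kq_bound l (ep_pos n) x
    rw [Real.norm_eq_abs, abs_mul, abs_of_pos (pow_pos (ep_pos n) 2)]
    rw [le_div_iff₀ (pow_pos (ep_pos n) 2)] at this
    linarith
  · by_cases hx : x = l
    · subst hx
      rw [Set.indicator_of_mem (Set.mem_singleton x)]
      have : ∀ n, ep n ^ 2 * kq x (ep n) x = 1 := by
        intro n
        unfold kq
        have := ep_ne n
        field_simp
        simp
      simp_rw [this]
      exact tendsto_const_nhds
    · rw [Set.indicator_of_notMem (by simpa using hx)]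
      have h3 : Tendsto (fun n => ep n ^ 2 / ((x - l) ^ 2 + ep n ^ 2)) atTop
          (𝓝 (0 ^ 2 / ((x - l) ^ 2 + 0 ^ 2))) := by
        refine (ep_lim.pow 2).div (tendsto_const_nhds.add (ep_lim.pow 2)) ?_
        have : x - l ≠ 0 := sub_ne_zero.2 hx
        simpa using this
      have h4 : (0 : ℝ) ^ 2 / ((x - l) ^ 2 + 0 ^ 2) = 0 := by simp
      rw [h4] at h3
      refine h3.congr fun n => ?_
      unfold kq
      ring

theorem lim_0 : Tendsto (fun n => ep n * ∫ x, kg l (ep n) x ∂μ) atTop (𝓝 0) := by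
  have h1 : ∀ n, ep n * ∫ x, kg l (ep n) x ∂μ = ∫ x, ep n * kg l (ep n) x ∂μ := fun n =>
    (integral_const_mul _ _).symm
  simp_rw [h1]
  have h2 : (0 : ℝ) = ∫ x, (0 : ℝ) ∂μ := by simp
  rw [h2]
  refine tendsto_integral_of_dominated_convergence (fun _ => 1) (fun n => ?_) (integrable_const _)
    (fun n => Eventually.of_forall fun x => ?_) (Eventually.of_forall fun x => ?_)
  · exact ((kg_cont l (ep_ne n)).const_mul _).aestronglyMeasurable
  · exact kg_bound l (ep_pos n) x
  · by_cases hx : x = l
    · subst hx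
      have : ∀ n, ep n * kg x (ep n) x = 0 := by
        intro n
        unfold kg
        simp
      simp_rw [this]
      exact tendsto_const_nhds
    · have h3 : Tendsto (fun n => ep n * (l - x) / ((x - l) ^ 2 + ep n ^ 2)) atTop
          (𝓝 (0 * (l - x) / ((x - l) ^ 2 + 0 ^ 2))) := by
        refine (ep_lim.mul_const _).div (tendsto_const_nhds.add (ep_lim.pow 2)) ?_
        have : x - l ≠ 0 := sub_ne_zero.2 hx
        simpa using this
      have h4 : 0 * (l - x) / ((x - l) ^ 2 + 0 ^ 2) = 0 := by simp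
      rw [h4] at h3
      refine h3.congr fun n => ?_
      unfold kg
      ring

theorem inv_sq_int (h : Qm μ l ≠ ∞) : Integrable (fun x => 1 / (x - l) ^ 2) μ := by
  refine ⟨Measurable.aestronglyMeasurable (by fun_prop), ?_⟩
  rw [HasFiniteIntegral]
  refine lt_of_le_of_lt (lintegral_mono fun x => ?_) (lt_top_iff_ne_top.2 h)
  by_cases hx : x - l = 0
  · simp [hx]
  · have : 0 < (x - l) ^ 2 := by positivity
    rw [Real.enorm_eq_ofReal (by positivity), one_div, ENNReal.ofReal_inv_of_pos this]

theorem lim_g (h : Qm μ l ≠ ∞) :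
    Tendsto (fun n => ∫ x, kg l (ep n) x ∂μ) atTop (𝓝 (∫ x, 1 / (l - x) ∂μ)) := by
  refine tendsto_integral_of_dominated_convergence (fun x => 1 + 1 / (x - l) ^ 2) (fun n => ?_)
    ((integrable_const _).add (inv_sq_int μ l h))
    (fun n => Eventually.of_forall fun x => ?_) (Eventually.of_forall fun x => ?_)
  · exact (kg_cont l (ep_ne n)).aestronglyMeasurable
  · by_cases hx : x = l
    · subst hx
      simp [kg]
    · have hne : x - l ≠ 0 := sub_ne_zero.2 hx
      have h0 : 0 < (x - l) ^ 2 := by positivity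
      have h1 : |kg l (ep n) x| ≤ |x - l| / (x - l) ^ 2 := by
        unfold kg
        rw [abs_div, abs_of_pos (den_pos l (ep_ne n) x), abs_sub_comm l x]
        apply div_le_div_of_nonneg_left (abs_nonneg _) h0
        have := sq_nonneg (ep n)
        linarith
      rw [Real.norm_eq_abs]
      refine h1.trans ?_
      rw [div_le_iff₀ h0, add_mul, one_mul, div_mul_cancel₀ _ h0.ne']
      nlinarith [sq_nonneg (|x - l| - 1), sq_abs (x - l), abs_nonneg (x - l)]
  · by_cases hx : x = l
    · subst hx
      have : ∀ n, kg x (ep n) x = 0 := by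
        intro n
        unfold kg
        simp
      simp_rw [this]
      simp
    · have hne : x - l ≠ 0 := sub_ne_zero.2 hx
      have hne' : l - x ≠ 0 := sub_ne_zero.2 (Ne.symm hx)
      have h3 : Tendsto (fun n => (l - x) / ((x - l) ^ 2 + ep n ^ 2)) atTop
          (𝓝 ((l - x) / ((x - l) ^ 2 + 0 ^ 2))) := by
        refine tendsto_const_nhds.div (tendsto_const_nhds.add (ep_lim.pow 2)) ?_
        simpa using hne
      have h4 : (l - x) / ((x - l) ^ 2 + 0 ^ 2) = 1 / (l - x) := by
        have : (x - l) ^ 2 = (l - x) ^ 2 := by ring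
        rw [this]
        field_simp
        simp
      rw [h4] at h3
      exact h3

theorem lim_g' (h : Qm μ l ≠ ∞) :
    Tendsto (fun n => ((∫ x, kg l (ep n) x ∂μ) - ∫ x, 1 / (l - x) ∂μ) / ep n) atTop (𝓝 0) := by
  have hi : Integrable (fun x => 1 / (l - x)) μ := by
    refine Integrable.mono' ((integrable_const (1 : ℝ)).add (inv_sq_int μ l h))
      (Measurable.aestronglyMeasurable (by fun_prop))
      (Eventually.of_forall fun x => ?_)
    by_cases hx : x = l
    · subst hx
      simp
    · have hne : x - l ≠ 0 := sub_ne_zero.2 hx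
      have h0 : 0 < (x - l) ^ 2 := by positivity
      have h1 : 0 < |x - l| := abs_pos.2 hne
      simp only [Pi.add_apply]
      rw [Real.norm_eq_abs, abs_div, abs_one, abs_sub_comm l x, ← sq_abs (x - l)]
      rw [div_le_iff₀ h1, add_mul, one_mul]
      have h2 : 1 / |x - l| ^ 2 * |x - l| = 1 / |x - l| := by field_simp
      rw [h2]
      rcases le_total 1 |x - l| with h3 | h3
      · have : 0 < 1 / |x - l| := by positivity
        linarith
      · have : 1 ≤ 1 / |x - l| := by
          rw [le_div_iff₀ h1]; linarith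
        linarith
  have h1 : ∀ n, ((∫ x, kg l (ep n) x ∂μ) - ∫ x, 1 / (l - x) ∂μ) / ep n =
      ∫ x, (kg l (ep n) x - 1 / (l - x)) / ep n ∂μ := by
    intro n
    rw [integral_div, integral_sub (kg_int μ l (ep_pos n)) hi]
  simp_rw [h1]
  have h2 : (0 : ℝ) = ∫ x, (0 : ℝ) ∂μ := by simp
  rw [h2]
  have key : ∀ n x, x ≠ l → (kg l (ep n) x - 1 / (l - x)) / ep n =
      ep n / ((x - l) * ((x - l) ^ 2 + ep n ^ 2)) := by
    intro n x hx
    have hne : x - l ≠ 0 := sub_ne_zero.2 hx
    have hne' : l - x ≠ 0 := sub_ne_zero.2 (Ne.symm hx)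
    have h3 := (den_pos l (ep_ne n) x).ne'
    have h4 := ep_ne n
    unfold kg
    field_simp
    ring
  refine tendsto_integral_of_dominated_convergence (fun x => 1 / (x - l) ^ 2) (fun n => ?_)
    (inv_sq_int μ l h)
    (fun n => Eventually.of_forall fun x => ?_) (Eventually.of_forall fun x => ?_)
  · exact (((kg_cont l (ep_ne n)).measurable.sub (by fun_prop)).div_const _).aestronglyMeasurable
  · by_cases hx : x = l
    · subst hx
      simp [kg]
    · rw [key n x hx]
      have hne : x - l ≠ 0 := sub_ne_zero.2 hx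
      have h0 : 0 < |x - l| := abs_pos.2 hne
      have hd := den_pos l (ep_ne n) x
      rw [Real.norm_eq_abs, abs_div, abs_mul, abs_of_pos hd, abs_of_pos (ep_pos n)]
      rw [div_le_div_iff₀ (by positivity) (by positivity)]
      have := two_mul_abs (x - l) (ep n)
      rw [abs_of_pos (ep_pos n)] at this
      rw [← sq_abs (x - l)] at this ⊢
      have h5 := ep_pos n
      nlinarith [mul_pos h0 h5]
  · by_cases hx : x = l
    · subst hx
      have : ∀ n, (kg x (ep n) x - 1 / (x - x)) / ep n = 0 := by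
        intro n
        unfold kg
        simp
      simp_rw [this]
      exact tendsto_const_nhds
    · simp_rw [fun n => key n x hx]
      have hne : x - l ≠ 0 := sub_ne_zero.2 hx
      have h3 : Tendsto (fun n => ep n / ((x - l) * ((x - l) ^ 2 + ep n ^ 2))) atTop
          (𝓝 (0 / ((x - l) * ((x - l) ^ 2 + 0 ^ 2)))) := by
        refine ep_lim.div ((tendsto_const_nhds.add (ep_lim.pow 2)).const_mul _) ?_
        simpa using hne
      rw [zero_div] at h3
      exact h3

omit [IsFiniteMeasure μ] in
theorem Qm_ne_zero [IsProbabilityMeasure μ] : Qm μ l ≠ 0 := by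
  unfold Qm
  intro h
  rw [lintegral_eq_zero_iff (by fun_prop)] at h
  have h1 : ∀ᵐ x ∂μ, False := by
    filter_upwards [h] with x hx
    simp only [Pi.zero_apply, ENNReal.inv_eq_zero] at hx
    exact ENNReal.ofReal_ne_top hx
  rw [ae_iff] at h1
  simp at h1

end Pool.Agent.HL274.GW
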