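import Pool.Agent.HL274.GW.Blk

/-!
Measurability of the data.
-/

set_option autoImplicit false

namespace Pool.Agent.HL274.GW

open scoped ENNReal Topology
open MeasureTheory Filter

variable {D : ℕ}

theorem meas_coord (w : List ℕ) : Measurable fun t : Cfg D => ((t w : Fin (D + 1)) : ℕ) :=
  (measurable_of_finite (fun i : Fin (D + 1) => (i : ℕ))).comp (measurable_pi_apply w)

theorem meas_Vd (v : List ℕ) : MeasurableSet {t : Cfg D | Vd t v} := by
  have h : {t : Cfg D | Vd t v} = ⋂ j : ℕ, {t | j < v.length → v.getD j 0 < (t (v.take j) : ℕ)} := by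
    ext t
    simp [Vd]
  rw [h]
  refine MeasurableSet.iInter fun j => ?_
  by_cases hj : j < v.length
  · simp only [hj, true_implies]
    exact measurableSet_lt measurable_const (meas_coord _)
  · simp [hj]

theorem meas_sh (a : ℕ) : Measurable fun t : Cfg D => sh t a :=
  measurable_pi_lambda _ fun u => measurable_pi_apply (a :: u)

theorem meas_wc (k : ℕ) : ∀ v, Measurable fun t : Cfg D => wc t k v := by
  classical
  induction k with
  | zero =>
    intro v
    exact measurable_const
  | succ k ih =>
    intro v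
    have h : (fun t : Cfg D => wc t (k + 1) v) = fun t => (if v ≠ [] ∧ Vd t v then wc t k v.dropLast else 0) +
      ∑ a ∈ Finset.range D, if Vd t (v ++ [a]) then wc t k (v ++ [a]) else 0 := by
      funext t
      rw [wc]
    rw [h]
    refine Measurable.add ?_ (Finset.measurable_fun_sum _ fun a _ => ?_)
    · refine Measurable.ite ?_ (ih _) measurable_const
      by_cases hv : v = []
      · simp [hv]
      · simp only [ne_eq, hv, not_false_eq_true, true_and]
        exact meas_Vd v
    · exact Measurable.ite (meas_Vd _) (ih _) measurable_const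

theorem poly_int (p : Polynomial ℝ) (μ : Measure ℝ) [IsFiniteMeasure μ]
    (hi : ∀ k : ℕ, Integrable (fun x : ℝ => x ^ k) μ) :
    ∫ x, p.eval x ∂μ = ∑ i ∈ Finset.range (p.natDegree + 1), p.coeff i * ∫ x, x ^ i ∂μ := by
  simp_rw [Polynomial.eval_eq_sum_range]
  rw [integral_finset_sum _ fun i _ => (hi i).const_mul _]
  exact Finset.sum_congr rfl fun i _ => integral_const_mul _ _

theorem cpt_int (R : ℝ) (μ : Measure ℝ) [IsFiniteMeasure μ] (hR : μ (Set.Icc (-R) R)ᶜ = 0)
    (f : ℝ → ℝ) (hf : Continuous f) : Integrable f μ := by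
  obtain ⟨C, hC⟩ := (isCompact_Icc (a := -R) (b := R)).exists_bound_of_continuousOn hf.continuousOn
  refine Integrable.of_bound hf.aestronglyMeasurable C ?_
  have h : ∀ᵐ x ∂μ, x ∈ Set.Icc (-R) R := by
    rw [ae_iff]
    exact hR
  filter_upwards [h] with x hx
  exact hC x hx

theorem poly_near (R : ℝ) (μ : Measure ℝ) [IsProbabilityMeasure μ] (hR : μ (Set.Icc (-R) R)ᶜ = 0)
    (f : ℝ → ℝ) (hf : Continuous f) (p : Polynomial ℝ) (e : ℝ)
    (hp : ∀ x ∈ Set.Icc (-R) R, |p.eval x - f x| < e) :
    |(∫ x, p.eval x ∂μ) - ∫ x, f x ∂μ| ≤ e := by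
  rw [← integral_sub (cpt_int R μ hR _ p.continuous) (cpt_int R μ hR f hf)]
  have h : ∀ᵐ x ∂μ, x ∈ Set.Icc (-R) R := by
    rw [ae_iff]
    exact hR
  have h2 := norm_integral_le_of_norm_le_const (μ := μ) (f := fun x => p.eval x - f x) (C := e) (by
    filter_upwards [h] with x hx
    exact (hp x hx).le)
  simpa using h2

theorem mu_Icc (t : Cfg D) (R : ℝ) (hR : 2 * (D : ℝ) ≤ R) : mu t (Set.Icc (-R) R)ᶜ = 0 := by
  refine measure_mono_null ?_ (mu_supp t)
  intro x hx
  by_contra hcon
  apply hx
  simp only [Set.mem_setOf_eq, not_lt] at hcon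
  have := abs_le.1 (hcon.trans hR)
  exact this

theorem approx_poly (R : ℝ) (f : ℝ → ℝ) (hf : Continuous f) :
    ∃ p : ℕ → Polynomial ℝ, ∀ n, ∀ x ∈ Set.Icc (-R) R, |(p n).eval x - f x| < ep n := by
  have h : ∀ n, ∃ p : Polynomial ℝ, ∀ x ∈ Set.Icc (-R) R, |p.eval x - f x| < ep n := fun n =>
    exists_polynomial_near_of_continuousOn (-R) R f hf.continuousOn (ep n) (ep_pos n)
  choose p hp using h
  exact ⟨p, hp⟩

theorem tendsto_of_ep (u : ℕ → ℝ) (a : ℝ) (h : ∀ n, |u n - a| ≤ ep n) :
    Tendsto u atTop (𝓝 a) := by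
  rw [tendsto_iff_norm_sub_tendsto_zero]
  exact squeeze_zero (fun n => norm_nonneg _) h ep_lim

theorem meas_int (f : ℝ → ℝ) (hf : Continuous f) : Measurable fun t : Cfg D => ∫ x, f x ∂(mu t) := by
  obtain ⟨p, hp⟩ := approx_poly (2 * D) f hf
  refine measurable_of_tendsto_metrizable (f := fun n (t : Cfg D) => ∫ x, (p n).eval x ∂(mu t))
    (fun n => ?_) ?_
  · have h : (fun t : Cfg D => ∫ x, (p n).eval x ∂(mu t)) = fun t =>
        ∑ i ∈ Finset.range ((p n).natDegree + 1), (p n).coeff i * (wc t i [] : ℝ) := by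
      funext t
      rw [poly_int _ _ fun k => mu_integrable t _ (by fun_prop)]
      exact Finset.sum_congr rfl fun i _ => by rw [mu_moment]
    rw [h]
    refine Finset.measurable_fun_sum _ fun i _ => ?_
    exact ((measurable_of_countable (fun n : ℕ => (n : ℝ))).comp (meas_wc i [])).const_mul _
  · rw [tendsto_pi_nhds]
    intro t
    exact tendsto_of_ep _ _ fun n =>
      poly_near (2 * D) (mu t) (mu_Icc t _ le_rfl) f hf (p n) (ep n) (hp n)

theorem meas_Gt (l e : ℝ) (he : e ≠ 0) : Measurable fun t : Cfg D => Gt t l e :=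
  meas_int _ (kg_cont l he)

theorem meas_Qt (l e : ℝ) (he : e ≠ 0) : Measurable fun t : Cfg D => Qt t l e :=
  meas_int _ (kq_cont l he)

theorem meas_md (l : ℝ) : Measurable fun t : Cfg D => md l t := by
  have h : (fun t : Cfg D => md l t) = fun t => ENNReal.ofReal ((mu t).real {l}) := by
    funext t
    exact md_real l t
  rw [h]
  refine ENNReal.measurable_ofReal.comp ?_
  refine measurable_of_tendsto_metrizable
    (f := fun n (t : Cfg D) => ep n ^ 2 * Qt t l (ep n)) (fun n => ?_) ?_
  · exact (meas_Qt l (ep n) (ep_ne n)).const_mul _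
  · rw [tendsto_pi_nhds]
    intro t
    exact lim_m (mu t) l

theorem meas_qd (l : ℝ) : Measurable fun t : Cfg D => qd l t := by
  refine measurable_of_tendsto_metrizable
    (f := fun n (t : Cfg D) => ENNReal.ofReal (Qt t l (ep n))) (fun n => ?_) ?_
  · exact ENNReal.measurable_ofReal.comp (meas_Qt l (ep n) (ep_ne n))
  · rw [tendsto_pi_nhds]
    intro t
    exact lim_q (mu t) l

theorem meas_gd (l : ℝ) : Measurable fun t : Cfg D => gd l t := by
  classical
  refine measurable_of_tendsto_metrizable
    (f := fun n (t : Cfg D) => if qd l t = ∞ then 0 else Gt t l (ep n)) (fun n => ?_) ?_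
  · exact Measurable.ite (meas_qd l (measurableSet_singleton ∞)) measurable_const
      (meas_Gt l (ep n) (ep_ne n))
  · rw [tendsto_pi_nhds]
    intro t
    unfold gd
    split_ifs with h
    · exact tendsto_const_nhds
    · exact lim_g (mu t) l h

theorem meas_sum {β : Type*} [MeasurableSpace β] [AddCommMonoid β] [MeasurableAdd₂ β]
    (f : Cfg D → β) (hf : Measurable f) :
    Measurable fun t : Cfg D => ∑ a ∈ Finset.range (t [] : ℕ), f (sh t a) := by
  classical
  have h : (fun t : Cfg D => ∑ a ∈ Finset.range (t [] : ℕ), f (sh t a)) = fun t =>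
      ∑ a ∈ Finset.range D, if a < (t [] : ℕ) then f (sh t a) else 0 := by
    funext t
    rw [← Finset.sum_filter]
    refine Finset.sum_congr ?_ fun _ _ => rfl
    ext b
    have := (t []).2
    simp only [Finset.mem_range, Finset.mem_filter]
    omega
  rw [h]
  refine Finset.measurable_fun_sum _ fun a _ => ?_
  exact Measurable.ite (measurableSet_lt measurable_const (meas_coord _)) (hf.comp (meas_sh a))
    measurable_const

theorem meas_good (l : ℝ) : MeasurableSet {t : Cfg D | good l t} := by
  have h : {t : Cfg D | good l t} = (qd l ⁻¹' {∞})ᶜ ∩ (gd l ⁻¹' {0})ᶜ := by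
    ext t
    simp [good]
  rw [h]
  exact (meas_qd l (measurableSet_singleton _)).compl.inter
    (meas_gd l (measurableSet_singleton _)).compl

theorem meas_Jh (l : ℝ) (h : ℕ) : Measurable fun t : Cfg D => Jh l h t := by
  classical
  induction h with
  | zero => exact measurable_const
  | succ h ih =>
    have e : (fun t : Cfg D => Jh l (h + 1) t) = fun t => if good l t then
        1 + ∑ a ∈ Finset.range (t [] : ℕ), Jh l h (sh t a) else 0 := by
      funext t
      rw [Jh]
    rw [e]
    exact Measurable.ite (meas_good l) ((meas_sum _ ih).const_add _) measurable_const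

theorem meas_jd (l : ℝ) : Measurable fun t : Cfg D => jd l t :=
  Measurable.iSup fun h => meas_Jh l h

theorem meas_xd (l : ℝ) : Measurable fun t : Cfg D => xd l t :=
  (meas_gd l).prodMk ((meas_qd l).prodMk ((meas_md l).prodMk (meas_jd l)))

theorem meas_sd (l : ℝ) : Measurable fun t : Cfg D => sd l t := meas_sum _ (meas_xd l)

theorem meas_RR (l : ℝ) : Measurable (RR l) := by
  unfold RR
  have m1 : Measurable fun s : EE => s.2.2.1 := measurable_snd.snd.fst
  have m2 : Measurable fun s : EE => s.2.1 := measurable_snd.fst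
  have m3 : Measurable fun s : EE => s.1 := measurable_fst
  have m4 : Measurable fun s : EE => s.2.2.2 := measurable_snd.snd.snd
  refine Measurable.ite (m1 (measurableSet_singleton 0)).compl ?_ ?_
  · exact measurable_const.prodMk ((m1.inv).prodMk measurable_const)
  refine Measurable.ite (m2 (measurableSet_singleton ∞)) measurable_const ?_
  refine Measurable.ite (m3 (measurableSet_singleton l)) ?_ ?_
  · exact measurable_const.prodMk (measurable_const.prodMk
      (((m2.const_add 1).inv).prodMk measurable_const))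
  · refine Measurable.prodMk (m3.const_sub l).inv (Measurable.prodMk ?_
      (measurable_const.prodMk (m4.const_add 1)))
    exact (m2.const_add 1).mul (ENNReal.measurable_ofReal.comp ((m3.const_sub l).pow_const 2)).inv

end Pool.Agent.HL274.GW
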