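import Pool.Agent.HL274.GW.Op
import Pool.Agent.HL274.GW.Abs

/-!
Spectral measures and numbers of closed walks.
-/

set_option autoImplicit false

namespace Pool.Agent.HL274.GW

open scoped ENNReal InnerProductSpace
open MeasureTheory

variable {D : ℕ} (t : Cfg D)

theorem spec_t : ∃ μ : Measure ℝ, IsFiniteMeasure μ ∧ (∀ f : ℝ → ℝ, Continuous f → Integrable f μ) ∧
      (∀ k : ℕ, ((∫ x, x ^ k ∂μ : ℝ) : ℂ) = inner ℂ (dl []) ((AA t ^ k) (dl []))) ∧
      μ {x | 2 * (D : ℝ) < |x|} = 0 ∧
      ∀ l e : ℝ, e ≠ 0 → ∃ ψ : HH, AA t ψ - ((l : ℂ) + Complex.I * e) • ψ = dl [] ∧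
        inner ℂ (dl []) ψ = -((∫ x, kg l e x ∂μ : ℝ) : ℂ) +
          Complex.I * e * ((∫ x, kq l e x ∂μ : ℝ) : ℂ) :=
  spec_abs (AA t) (AA_sa t) (dl []) (2 * D) (AA_norm t)

/-- the spectral measure of the root -/
noncomputable def mu : Measure ℝ := (spec_t t).choose

instance mu_fin : IsFiniteMeasure (mu t) := (spec_t t).choose_spec.1

theorem mu_integrable (f : ℝ → ℝ) (hf : Continuous f) : Integrable f (mu t) :=
  (spec_t t).choose_spec.2.1 f hf

theorem mu_pow (k : ℕ) : ((∫ x, x ^ k ∂(mu t) : ℝ) : ℂ) = ((AA t ^ k) (dl [])) [] := by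
  have h := (spec_t t).choose_spec.2.2.1 k
  rw [inner_dl] at h
  exact h

theorem mu_supp : mu t {x | 2 * (D : ℝ) < |x|} = 0 := (spec_t t).choose_spec.2.2.2.1

theorem mu_res (l e : ℝ) (he : e ≠ 0) : ∃ ψ : HH, AA t ψ - ((l : ℂ) + Complex.I * e) • ψ = dl [] ∧
    ψ [] = -((∫ x, kg l e x ∂(mu t) : ℝ) : ℂ) +
      Complex.I * e * ((∫ x, kq l e x ∂(mu t) : ℝ) : ℂ) := by
  obtain ⟨ψ, h1, h2⟩ := (spec_t t).choose_spec.2.2.2.2 l e he
  refine ⟨ψ, h1, ?_⟩
  rw [inner_dl] at h2
  exact h2

instance mu_prob : IsProbabilityMeasure (mu t) := by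
  constructor
  have h := mu_pow t 0
  simp only [pow_zero] at h
  have h2 : (((1 : HH →L[ℂ] HH) (dl [])) : List ℕ → ℂ) [] = 1 := by
    change dl [] [] = 1
    rw [dl_apply, if_pos rfl]
  rw [h2, integral_const, smul_eq_mul, mul_one] at h
  have h3 : (mu t).real Set.univ = 1 := by exact_mod_cast h
  rw [Measure.real, ENNReal.toReal_eq_one_iff] at h3
  exact h3

open Classical in
/-- the number of walks of length `k` from the root to `v` -/
noncomputable def wc (t : Cfg D) : ℕ → List ℕ → ℕ
  | 0, v => if v = [] then 1 else 0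
  | k + 1, v => (if v ≠ [] ∧ Vd t v then wc t k v.dropLast else 0) +
      ∑ a ∈ Finset.range D, if Vd t (v ++ [a]) then wc t k (v ++ [a]) else 0

theorem AA_pow (k : ℕ) (v : List ℕ) : ((AA t ^ k) (dl [])) v = wc t k v := by
  classical
  induction k generalizing v with
  | zero =>
    rw [pow_zero]
    change dl [] v = _
    rw [dl_apply]
    simp only [wc]
    split_ifs <;> simp
  | succ k ih =>
    rw [pow_succ']
    change AA t ((AA t ^ k) (dl [])) v = _
    rw [AA_apply]
    simp only [wc]
    rw [Nat.cast_add, Nat.cast_sum]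
    refine congrArg₂ (· + ·) ?_ ?_
    · split_ifs
      · exact ih _
      · exact Nat.cast_zero.symm
    · refine Finset.sum_congr rfl fun a _ => ?_
      split_ifs
      · exact ih _
      · exact Nat.cast_zero.symm

theorem mu_moment (k : ℕ) : ∫ x, x ^ k ∂(mu t) = wc t k [] := by
  have h := mu_pow t k
  rw [AA_pow] at h
  exact_mod_cast h

/-- walks of length `k` from the root to `v` -/
def Wset (t : Cfg D) (k : ℕ) (v : List ℕ) : Set (Fin (k + 1) → List ℕ) :=
  {f | f 0 = [] ∧ f (Fin.last k) = v ∧ (∀ i, Vd t (f i)) ∧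
    ∀ i : Fin k, (∃ a : ℕ, f i.succ = f i.castSucc ++ [a]) ∨ (∃ a : ℕ, f i.castSucc = f i.succ ++ [a])}

/-- the neighbours of `v` -/
def nbv (v : List ℕ) : Option (Fin D) → List ℕ
  | none => v.dropLast
  | some a => v ++ [(a : ℕ)]

/-- the condition on the neighbours of `v` -/
def cnd (t : Cfg D) (v : List ℕ) : Option (Fin D) → Prop
  | none => v ≠ [] ∧ Vd t v
  | some a => Vd t (v ++ [(a : ℕ)])

theorem snoc_mem (k : ℕ) (v : List ℕ) (i : Option (Fin D)) (hi : cnd t v i)
    (g : Fin (k + 1) → List ℕ) (hg : g ∈ Wset t k (nbv v i)) :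
    (Fin.snoc g v : Fin (k + 1 + 1) → List ℕ) ∈ Wset t (k + 1) v := by
  obtain ⟨h0, hl, hV, hs⟩ := hg
  have hVv : Vd t v := by
    rcases i with _ | a
    · exact hi.2
    · exact ((Vd_append t v a).1 hi).1
  refine ⟨?_, ?_, ?_, ?_⟩
  · have : (0 : Fin (k + 1 + 1)) = Fin.castSucc 0 := rfl
    rw [this, Fin.snoc_castSucc, h0]
  · rw [Fin.snoc_last]
  · intro j
    refine Fin.lastCases ?_ (fun j => ?_) j
    · rw [Fin.snoc_last]; exact hVv
    · rw [Fin.snoc_castSucc]; exact hV j
  · intro j
    refine Fin.lastCases ?_ (fun j => ?_) j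
    · rw [Fin.succ_last, Fin.snoc_last, Fin.snoc_castSucc, hl]
      rcases i with _ | a
      · left
        refine ⟨v.getLast hi.1, ?_⟩
        exact (List.dropLast_append_getLast hi.1).symm
      · right
        exact ⟨a, rfl⟩
    · rw [Fin.succ_castSucc, Fin.snoc_castSucc, Fin.snoc_castSucc]
      exact hs j

/-- the walks by their last steps -/
theorem Wset_card (k : ℕ) (v : List ℕ) (hfin : ∀ u, (Wset t k u).Finite) :
    (Wset t (k + 1) v).ncard = ∑ i : Option (Fin D),
      Nat.card {g : Fin (k + 1) → List ℕ // cnd t v i ∧ g ∈ Wset t k (nbv v i)} ∧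
    (Wset t (k + 1) v).Finite := by
  have hF : ∀ i : Option (Fin D),
      Finite {g : Fin (k + 1) → List ℕ // cnd t v i ∧ g ∈ Wset t k (nbv v i)} := by
    intro i
    have h1 : Finite (Wset t k (nbv v i)) := (hfin _).to_subtype
    exact Finite.of_injective (fun g => (⟨g.1, g.2.2⟩ : Wset t k (nbv v i)))
      (fun a b hab => Subtype.ext (by simpa using hab))
  let F : (Σ i : Option (Fin D), {g : Fin (k + 1) → List ℕ // cnd t v i ∧ g ∈ Wset t k (nbv v i)}) →
      Wset t (k + 1) v := fun x => ⟨Fin.snoc x.2.1 v, snoc_mem t k v x.1 x.2.2.1 x.2.1 x.2.2.2⟩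
  have hbij : Function.Bijective F := by
    constructor
    · rintro ⟨i, g, hi, hg⟩ ⟨i', g', hi', hg'⟩ h
      have h1 : (Fin.snoc g v : Fin (k + 1 + 1) → List ℕ) = Fin.snoc g' v := congrArg Subtype.val h
      have h2 : g = g' := by
        funext j
        have := congrFun h1 j.castSucc
        rwa [Fin.snoc_castSucc, Fin.snoc_castSucc] at this
      subst h2
      have h3 : nbv v i = nbv v i' := hg.2.1.symm.trans hg'.2.1
      have h4 : i = i' := by
        rcases i with _ | a <;> rcases i' with _ | a'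
        · rfl
        · exfalso
          have := congrArg List.length h3
          simp only [nbv, List.length_dropLast, List.length_append, List.length_singleton] at this
          omega
        · exfalso
          have := congrArg List.length h3
          simp only [nbv, List.length_dropLast, List.length_append, List.length_singleton] at this
          omega
        · have : (a : ℕ) = a' := by simpa [nbv] using h3
          rw [Fin.ext this]
      subst h4
      rfl
    · rintro ⟨f, h0, hl, hV, hs⟩
      have hstep := hs (Fin.last k)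
      rw [Fin.succ_last, hl] at hstep
      set u := f (Fin.castSucc (Fin.last k)) with hu
      have key : ∃ i : Option (Fin D), cnd t v i ∧ nbv v i = u := by
        rcases hstep with ⟨a, ha⟩ | ⟨a, ha⟩
        · refine ⟨none, ⟨?_, ?_⟩, ?_⟩
          · rw [ha]; simp
          · have := hV (Fin.last (k + 1)); rwa [hl] at this
          · simp [nbv, ha]
        · have hVa : Vd t (v ++ [a]) := by
            have := hV (Fin.castSucc (Fin.last k)); rw [← hu, ha] at this; exact this
          exact ⟨some ⟨a, Vd_lt t v a hVa⟩, hVa, ha.symm⟩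
      obtain ⟨i, hi, hiu⟩ := key
      refine ⟨⟨i, Fin.init f, hi, ?_, ?_, ?_, ?_⟩, ?_⟩
      · exact h0
      · rw [hiu]; rfl
      · intro j; exact hV j.castSucc
      · intro j
        have := hs j.castSucc
        rw [Fin.succ_castSucc] at this
        exact this
      · apply Subtype.ext
        change (Fin.snoc (Fin.init f) v : Fin (k + 1 + 1) → List ℕ) = f
        rw [← hl, Fin.snoc_init_self]
  have hfinW : Finite (Wset t (k + 1) v) := Finite.of_surjective F hbij.2
  refine ⟨?_, Set.toFinite _⟩
  rw [← Nat.card_coe_set_eq, ← Nat.card_eq_of_bijective F hbij, Nat.card_sigma]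

theorem Wset_eq (k : ℕ) : ∀ v, (Wset t k v).ncard = wc t k v ∧ (Wset t k v).Finite := by
  classical
  induction k with
  | zero =>
    intro v
    by_cases hv : v = []
    · subst hv
      have : Wset t 0 [] = {fun _ => []} := by
        ext f
        simp only [Wset, Set.mem_ofPred_eq, Set.mem_singleton_iff]
        constructor
        · rintro ⟨h0, -⟩
          funext i
          have : i = 0 := Fin.ext (by omega)
          rw [this]
          exact h0
        · rintro rfl
          exact ⟨rfl, rfl, fun _ => Vd_nil t, fun i => i.elim0⟩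
      rw [this, Set.ncard_singleton]
      exact ⟨by simp [wc], Set.finite_singleton _⟩
    · have : Wset t 0 v = ∅ := by
        ext f
        simp only [Wset, Set.mem_ofPred_eq, Set.mem_empty_iff_false, iff_false]
        rintro ⟨h0, h1, -⟩
        exact hv (h1.symm.trans h0)
      rw [this, Set.ncard_empty]
      exact ⟨by simp [wc, hv], Set.finite_empty⟩
  | succ k ih =>
    intro v
    obtain ⟨h1, h2⟩ := Wset_card t k v (fun u => (ih u).2)
    refine ⟨?_, h2⟩
    have hc : ∀ i : Option (Fin D),
        Nat.card {g : Fin (k + 1) → List ℕ // cnd t v i ∧ g ∈ Wset t k (nbv v i)} =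
        if cnd t v i then wc t k (nbv v i) else 0 := by
      intro i
      split_ifs with h
      · rw [← (ih _).1, ← Nat.card_coe_set_eq]
        exact Nat.card_congr (Equiv.subtypeEquivRight fun g => by simp [h])
      · have : IsEmpty {g : Fin (k + 1) → List ℕ // cnd t v i ∧ g ∈ Wset t k (nbv v i)} :=
          ⟨fun g => h g.2.1⟩
        exact Nat.card_of_isEmpty
    rw [h1, Fintype.sum_option, hc]
    simp_rw [hc]
    simp only [wc]
    refine congrArg₂ (· + ·) ?_ ?_
    · by_cases hcn : v ≠ [] ∧ Vd t v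
      · rw [if_pos hcn, if_pos (show cnd t v none from hcn)]
        rfl
      · rw [if_neg hcn, if_neg (show ¬ cnd t v none from hcn)]
    · rw [Finset.sum_range]
      rfl

end Pool.Agent.HL274.GW
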