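import Pool.Agent.HL274.GW.Null

/-!
The averaged measure.
-/

set_option autoImplicit false

namespace Pool.Agent.HL274.GW

open scoped ENNReal Topology
open MeasureTheory Filter ProbabilityTheory

variable {D : ℕ}

/-- integrability over the trees -/
theorem int_tree (M : Measure (Cfg D)) [IsProbabilityMeasure M] (f : ℝ → ℝ) (hf : Continuous f) :
    Integrable (fun t : Cfg D => ∫ x, f x ∂(mu t)) M := by
  obtain ⟨C, hC⟩ := (isCompact_Icc (a := -(2 * (D : ℝ))) (b := 2 * D)).exists_bound_of_continuousOn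
    hf.continuousOn
  refine Integrable.of_bound (meas_int f hf).aestronglyMeasurable C
    (Eventually.of_forall fun t => ?_)
  have h : ∀ᵐ x ∂(mu t), x ∈ Set.Icc (-(2 * (D : ℝ))) (2 * D) := by
    rw [ae_iff]
    exact mu_Icc t _ le_rfl
  have h2 := norm_integral_le_of_norm_le_const (μ := mu t) (f := f) (C := C) (by
    filter_upwards [h] with x hx
    exact hC x hx)
  simpa using h2

variable (M : Measure (Cfg D)) [IsProbabilityMeasure M] (ν : Measure ℝ) [IsProbabilityMeasure ν]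

theorem nu_poly (R : ℝ) (hR : ν (Set.Icc (-R) R)ᶜ = 0)
    (hmom : ∀ k : ℕ, ∫ x, x ^ k ∂ν = ∫ t : Cfg D, (wc t k [] : ℝ) ∂M) (p : Polynomial ℝ) :
    ∫ x, p.eval x ∂ν = ∫ t : Cfg D, (∫ x, p.eval x ∂(mu t)) ∂M := by
  rw [poly_int p ν fun k => cpt_int R ν hR _ (by fun_prop)]
  have h1 : ∀ t : Cfg D, ∫ x, p.eval x ∂(mu t) =
      ∑ i ∈ Finset.range (p.natDegree + 1), p.coeff i * ∫ x, x ^ i ∂(mu t) := fun t =>
    poly_int p (mu t) fun k => mu_integrable t _ (by fun_prop)
  simp_rw [h1]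
  rw [integral_finsetSum _ fun i _ => (int_tree M (fun x => x ^ i) (by fun_prop)).const_mul _]
  refine Finset.sum_congr rfl fun i _ => ?_
  rw [integral_const_mul, hmom i]
  simp_rw [mu_moment]

theorem nu_cont (R : ℝ) (hR : ν (Set.Icc (-R) R)ᶜ = 0)
    (hmom : ∀ k : ℕ, ∫ x, x ^ k ∂ν = ∫ t : Cfg D, (wc t k [] : ℝ) ∂M) (f : ℝ → ℝ)
    (hf : Continuous f) :
    ∫ x, f x ∂ν = ∫ t : Cfg D, (∫ x, f x ∂(mu t)) ∂M := by
  set R' := max R (2 * D) with hR'
  have hν : ν (Set.Icc (-R') R')ᶜ = 0 := by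
    refine measure_mono_null ?_ hR
    intro x hx h
    apply hx
    have := le_max_left R (2 * D)
    exact ⟨by linarith [h.1], by linarith [h.2]⟩
  obtain ⟨p, hp⟩ := approx_poly R' f hf
  have h1 : Tendsto (fun n => ∫ x, (p n).eval x ∂ν) atTop (𝓝 (∫ x, f x ∂ν)) :=
    tendsto_of_ep _ _ fun n => poly_near R' ν hν f hf (p n) (ep n) (hp n)
  have h2 : Tendsto (fun n => ∫ t : Cfg D, (∫ x, (p n).eval x ∂(mu t)) ∂M) atTop
      (𝓝 (∫ t : Cfg D, (∫ x, f x ∂(mu t)) ∂M)) := by
    refine tendsto_of_ep _ _ fun n => ?_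
    rw [← integral_sub (int_tree M _ (p n).continuous) (int_tree M f hf)]
    have h3 := norm_integral_le_of_norm_le_const (μ := M)
      (f := fun t : Cfg D => (∫ x, (p n).eval x ∂(mu t)) - ∫ x, f x ∂(mu t)) (C := ep n)
      (Eventually.of_forall fun t => poly_near R' (mu t) (mu_Icc t _ (le_max_right _ _)) f hf (p n)
        (ep n) (hp n))
    simpa using h3
  have h3 : ∀ n, ∫ x, (p n).eval x ∂ν = ∫ t : Cfg D, (∫ x, (p n).eval x ∂(mu t)) ∂M := fun n =>
    nu_poly M ν R hR hmom (p n)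
  simp_rw [h3] at h1
  exact tendsto_nhds_unique h1 h2

theorem nu_atom (R : ℝ) (hR : ν (Set.Icc (-R) R)ᶜ = 0)
    (hmom : ∀ k : ℕ, ∫ x, x ^ k ∂ν = ∫ t : Cfg D, (wc t k [] : ℝ) ∂M) (l : ℝ)
    (hl : M {t | md l t ≠ 0} = 0) : ν {l} = 0 := by
  have h1 := lim_m ν l
  have h2 : ∀ n, ep n ^ 2 * ∫ x, kq l (ep n) x ∂ν =
      ∫ t : Cfg D, ep n ^ 2 * (∫ x, kq l (ep n) x ∂(mu t)) ∂M := by
    intro n
    rw [nu_cont M ν R hR hmom _ (kq_cont l (ep_ne n)), integral_const_mul]
  simp_rw [h2] at h1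
  have h3 : Tendsto (fun n => ∫ t : Cfg D, ep n ^ 2 * (∫ x, kq l (ep n) x ∂(mu t)) ∂M) atTop
      (𝓝 (∫ t : Cfg D, (mu t).real {l} ∂M)) := by
    refine tendsto_integral_of_dominated_convergence (fun _ => 1) (fun n => ?_)
      (integrable_const _) (fun n => Eventually.of_forall fun t => ?_)
      (Eventually.of_forall fun t => lim_m (mu t) l)
    · exact ((meas_int _ (kq_cont l (ep_ne n))).const_mul _).aestronglyMeasurable
    · have hb := norm_integral_le_of_norm_le_const (μ := mu t) (f := kq l (ep n))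
        (C := 1 / ep n ^ 2) (Eventually.of_forall fun x => kq_bound l (ep_pos n) x)
      rw [probReal_univ, mul_one] at hb
      rw [norm_mul, Real.norm_eq_abs, abs_of_pos (by have := ep_pos n; positivity)]
      calc ep n ^ 2 * ‖∫ x, kq l (ep n) x ∂(mu t)‖ ≤ ep n ^ 2 * (1 / ep n ^ 2) := by
            gcongr
        _ = 1 := by
            have := ep_ne n
            field_simp
  have h4 := tendsto_nhds_unique h1 h3
  have h5 : ∫ t : Cfg D, (mu t).real {l} ∂M = 0 := by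
    have h6 : (fun t : Cfg D => (mu t).real {l}) =ᵐ[M] fun _ => 0 := by
      have h7 : ∀ᵐ t ∂M, md l t = 0 := by
        rw [ae_iff]
        exact hl
      filter_upwards [h7] with t ht
      unfold Measure.real
      unfold md at ht
      rw [ht]
      rfl
    rw [integral_congr_ae h6]
    simp
  rw [h5] at h4
  rw [measureReal_eq_zero_iff] at h4
  exact h4

end Pool.Agent.HL274.GW
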