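import Pool.Agent.HL274.GW.Gf

/-!
No mass at the root, outside finitely many values.
-/

set_option autoImplicit false

namespace Pool.Agent.HL274.GW

open scoped ENNReal Topology
open MeasureTheory Filter ProbabilityTheory

variable {D : ℕ}

theorem Zw_mono (z : ℝ≥0∞) (s : EE) : Monotone fun n => Zw z n s := by
  classical
  intro m n h
  simp only [Zw]
  split_ifs with h1 h2 h2
  · exact le_rfl
  · exact absurd ⟨h1.1, h1.2.trans (by exact_mod_cast h)⟩ h2
  · exact zero_le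
  · exact le_rfl

/-- finite blocks of centres have small probability -/
theorem pow_mul_le (l : ℝ) (q : Measure (Fin (D + 1))) [IsProbabilityMeasure q] (N : ℕ)
    (hl : ∀ i ≤ N, l ∉ Lam D i) (z : ℝ≥0∞) (hz : 1 ≤ z) (B : ℝ≥0∞) (hB : ∀ n, Vz l q z n ≤ B) :
    z ^ N * MM q q {t | Sv l (sd l t) ∧ (sd l t).2.2.2 ≠ ∞} ≤ B := by
  classical
  set S : Set (Cfg D) := {t | Sv l (sd l t) ∧ (sd l t).2.2.2 ≠ ∞} with hS
  have hSm : MeasurableSet S :=
    (meas_sd l (ms_S l)).inter (meas_sd l (m_j (measurableSet_singleton ∞)).compl)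
  have hmeas : ∀ n, Measurable fun t : Cfg D => Zw z n (sd l t) := fun n =>
    (meas_Zw z n).comp (meas_sd l)
  have h1 : ∫⁻ t, ⨆ n, Zw z n (sd l t) ∂(MM q q) ≤ B := by
    rw [lintegral_iSup hmeas fun m n h t => Zw_mono z (sd l t) h]
    exact iSup_le hB
  refine le_trans ?_ h1
  rw [← lintegral_indicator_one hSm, ← lintegral_const_mul _ (measurable_one.indicator hSm)]
  refine lintegral_mono fun t => ?_
  by_cases ht : t ∈ S
  · rw [Set.indicator_of_mem ht, Pi.one_apply, mul_one]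
    obtain ⟨h2, h3⟩ := ht
    have hb := block_large N l hl t h2.1.1 h2.1.2 h2.2
    have h4 : (1 + (sd l t).2.2.2) ≠ ∞ := ENNReal.add_ne_top.2 ⟨ENNReal.one_ne_top, h3⟩
    obtain ⟨n, hn⟩ := ENNReal.exists_nat_gt h4
    refine le_trans ?_ (le_iSup (fun n => Zw z n (sd l t)) n)
    simp only [Zw]
    rw [if_pos ⟨h2.1, hn.le⟩, ← ENNReal.rpow_natCast]
    refine ENNReal.rpow_le_rpow_of_exponent_le hz ?_
    have := ENNReal.toReal_mono h4 hb.le
    simpa using this
  · rw [Set.indicator_of_notMem ht, mul_zero]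
    exact zero_le

section main

variable (r q : Measure (Fin (D + 1))) [IsProbabilityMeasure r] [IsProbabilityMeasure q]
  (m : ℝ≥0∞) (hw : ∀ j : Fin D, m * q {j.castSucc} = ((j : ℕ) + 1) * r {j.succ})
  (hq : q {Fin.last D} = 0) (hr : ∀ k : Fin (D + 1), (k : ℕ) < 2 → r {k} = 0)

include hw hq hr

theorem pa_zero_lt (hm : m ≠ 0) (h0 : q {0} = 0) (h1 : q {k | (k : ℕ) = 1} < 1) :
    ∃ N : ℕ, ∀ l : ℝ, (∀ i ≤ N, l ∉ Lam D i) → pa l q = 0 := by
  set x : ℝ := (q {k | (k : ℕ) = 1}).toReal with hx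
  have hxq : q {k | (k : ℕ) = 1} = ENNReal.ofReal x :=
    (ENNReal.ofReal_toReal (measure_ne_top _ _)).symm
  have hx0 : 0 ≤ x := ENNReal.toReal_nonneg
  have hx1 : x < 1 := by
    rw [hxq, ENNReal.ofReal_lt_one] at h1
    exact h1
  have hx2 : 0 < 1 - x := by linarith
  set K := 4 / (1 - x) with hK
  have hK0 : 0 < K := by positivity
  set z := (3 - x) / 2 with hz
  have hz1 : 1 < z := by rw [hz]; linarith
  set δ := 1 / (2 * (1 + K) ^ 2) with hδ
  have hδ0 : 0 < δ := by positivity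
  -- the choice of `N`
  obtain ⟨N, hN1, hN2, hN3⟩ : ∃ N : ℕ, 1 ≤ N ∧ K * D < z ^ N ∧ (D : ℝ) ^ 2 / N ≤ δ ^ 2 := by
    have e1 : ∀ᶠ N : ℕ in atTop, K * D < z ^ N :=
      (tendsto_pow_atTop_atTop_of_one_lt hz1).eventually_gt_atTop _
    have e2 : Tendsto (fun N : ℕ => (D : ℝ) ^ 2 / N) atTop (𝓝 0) :=
      tendsto_const_div_atTop_nhds_zero_nat _
    have e3 : ∀ᶠ N : ℕ in atTop, (D : ℝ) ^ 2 / N ≤ δ ^ 2 :=
      (e2.eventually_lt_const (by positivity : (0 : ℝ) < δ ^ 2)).mono fun _ h => h.le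
    obtain ⟨N, h1, h2, h3⟩ := ((eventually_ge_atTop 1).and (e1.and e3)).exists
    exact ⟨N, h1, h2, h3⟩
  refine ⟨N, fun l hl => ?_⟩
  by_contra hpa
  set a := (pa l q).toReal with ha
  set b := (p0 l q).toReal with hb
  have hfa : pa l q ≠ ∞ := measure_ne_top _ _
  have hfb : p0 l q ≠ ∞ := measure_ne_top _ _
  have ha0 : 0 ≤ a := ENNReal.toReal_nonneg
  have hb0 : 0 ≤ b := ENNReal.toReal_nonneg
  have haq : pa l q = ENNReal.ofReal a := (ENNReal.ofReal_toReal hfa).symm
  have hab : a ≤ D * b := by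
    have h2 := ENNReal.toReal_mono (ENNReal.mul_ne_top (ENNReal.natCast_ne_top D) hfb) (pa_le l q)
    rw [ENNReal.toReal_mul, ENNReal.toReal_natCast] at h2
    exact h2
  have hNp : (0 : ℝ) < N := by exact_mod_cast hN1
  have hbN : b ^ 2 ≤ 1 / N := by
    have h2 := p_sq l r q m hw hq N hl hr
    have h3 := ENNReal.toReal_mono (ENNReal.inv_ne_top.2 (by
      simp only [ne_eq, Nat.cast_eq_zero]; omega)) h2
    rw [ENNReal.toReal_pow, ENNReal.toReal_inv, ENNReal.toReal_natCast] at h3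
    rw [one_div]
    exact h3
  have haδ : a ≤ δ := by
    have h2 : a ^ 2 ≤ δ ^ 2 := by
      calc a ^ 2 ≤ (D * b) ^ 2 := by gcongr
        _ = (D : ℝ) ^ 2 * b ^ 2 := by ring
        _ ≤ (D : ℝ) ^ 2 * (1 / N) := by gcongr
        _ = (D : ℝ) ^ 2 / N := by ring
        _ ≤ _ := hN3
    exact le_of_sq_le_sq h2 hδ0.le
  have hs : 2 * (1 + 4 / (1 - x)) ^ 2 * a ≤ 1 := by
    rw [← hK]
    calc 2 * (1 + K) ^ 2 * a ≤ 2 * (1 + K) ^ 2 * δ := by gcongr
      _ = 1 := by rw [hδ]; field_simp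
  have hV := Vz_le l q h0 x hx0 hx1 hxq a ha0 haq hs
  have hz1' : (1 : ℝ≥0∞) ≤ ENNReal.ofReal z := by
    rw [← ENNReal.ofReal_one]
    exact ENNReal.ofReal_le_ofReal hz1.le
  have h2 := pow_mul_le l q N hl (ENNReal.ofReal z) hz1' _ hV
  -- infinite blocks
  have h3 := inf_mul l r q m hw hq hm
  have h4 : MM q q {t | Sv l (sd l t) ∧ (sd l t).2.2.2 = ∞} = 0 := by
    rcases mul_eq_zero.1 h3 with h | h
    · exact h
    · exact absurd h hpa
  have h5 : p0 l q ≤ MM q q {t | Sv l (sd l t) ∧ (sd l t).2.2.2 ≠ ∞} := by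
    have h6 : {t : Cfg D | md l t ≠ 0} ⊆ {t | Sv l (sd l t) ∧ (sd l t).2.2.2 ≠ ∞} ∪
        {t | Sv l (sd l t) ∧ (sd l t).2.2.2 = ∞} := by
      intro t ht
      have ht' := (md_iff l t).1 ht
      by_cases hj : (sd l t).2.2.2 = ∞
      · exact Or.inr ⟨ht', hj⟩
      · exact Or.inl ⟨ht', hj⟩
    refine (measure_mono h6).trans ((measure_union_le _ _).trans ?_)
    rw [h4, add_zero]
  have h6 : z ^ N * b ≤ K * a := by
    have h7 : ENNReal.ofReal z ^ N * p0 l q ≤ ENNReal.ofReal (K * a) :=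
      le_trans (by gcongr) h2
    have h8 := ENNReal.toReal_mono ENNReal.ofReal_ne_top h7
    rw [ENNReal.toReal_mul, ENNReal.toReal_pow, ENNReal.toReal_ofReal (by linarith),
      ENNReal.toReal_ofReal (by positivity)] at h8
    exact h8
  have h7 : b = 0 := by
    have h8 : z ^ N * b ≤ K * D * b := by
      calc z ^ N * b ≤ K * a := h6
        _ ≤ K * (D * b) := by gcongr
        _ = _ := by ring
    by_contra hb'
    have hb'' : 0 < b := lt_of_le_of_ne hb0 (Ne.symm hb')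
    have := mul_lt_mul_of_pos_right hN2 hb''
    linarith
  have h8 : a = 0 := le_antisymm (by rw [h7, mul_zero] at hab; exact hab) ha0
  apply hpa
  rw [haq, h8, ENNReal.ofReal_zero]

omit hq in
theorem pa_zero_eq (hq : q {Fin.last D} = 0) (h1 : q {k | (k : ℕ) = 1} = 1) :
    ∃ N : ℕ, ∀ l : ℝ, (∀ i ≤ N, l ∉ Lam D i) → pa l q = 0 := by
  refine ⟨2, fun l hl => ?_⟩
  have h2 := p_sq l r q m hw hq 2 hl hr
  -- `q` is a point mass
  obtain ⟨k1, hk1⟩ : ∃ k1 : Fin (D + 1), (k1 : ℕ) = 1 := by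
    by_contra hcon
    push Not at hcon
    have : {k : Fin (D + 1) | (k : ℕ) = 1} = ∅ := by
      ext k
      simp [hcon k]
    rw [this, measure_empty] at h1
    exact zero_ne_one h1
  have hset : {k : Fin (D + 1) | (k : ℕ) = 1} = {k1} := by
    ext k
    simp only [Set.mem_setOf_eq, Set.mem_singleton_iff]
    constructor
    · intro h
      exact Fin.ext (by omega)
    · intro h
      rw [h]
      exact hk1
  rw [hset] at h1
  have hd : q = Measure.dirac k1 := by
    refine Measure.ext_of_singleton fun k => ?_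
    rw [Measure.dirac_apply' _ (measurableSet_singleton k)]
    by_cases hk : k = k1
    · subst hk
      rw [h1]
      simp
    · have h3 : q {k1}ᶜ = 0 := (prob_compl_eq_zero_iff (measurableSet_singleton k1)).2 h1
      have h4 : q {k} = 0 := measure_mono_null (by
        intro y hy
        rw [Set.mem_singleton_iff] at hy
        subst hy
        simpa using hk) h3
      rw [h4]
      simp [Ne.symm hk]
  subst hd
  have hM : MM (Measure.dirac k1) (Measure.dirac k1) =
      Measure.dirac (fun _ : List ℕ => k1) := by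
    rw [MM_const]
    exact Measure.infinitePi_dirac _
  have hp : p0 l (Measure.dirac k1) = 0 := by
    unfold p0
    rw [hM] at h2 ⊢
    have hBm : MeasurableSet {t : Cfg D | md l t ≠ 0} :=
      (meas_md l (measurableSet_singleton 0)).compl
    rw [Measure.dirac_apply' _ hBm] at h2 ⊢
    by_cases hB : (fun _ : List ℕ => k1) ∈ {t : Cfg D | md l t ≠ 0}
    · rw [Set.indicator_of_mem hB, Pi.one_apply, one_pow] at h2
      exfalso
      simp at h2
    · exact Set.indicator_of_notMem hB _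
  refine le_antisymm ((pa_le l _).trans ?_) zero_le
  rw [hp, mul_zero]

theorem pa_zero (hm : m ≠ 0) (h0 : q {0} = 0) :
    ∃ N : ℕ, ∀ l : ℝ, (∀ i ≤ N, l ∉ Lam D i) → pa l q = 0 := by
  rcases lt_or_eq_of_le (prob_le_one (μ := q) (s := {k | (k : ℕ) = 1})) with h | h
  · exact pa_zero_lt r q m hw hq hr hm h0 h
  · exact pa_zero_eq r q m hw hr hq h

theorem root_null (l : ℝ) (h0 : q {0} = 0) (hpa : pa l q = 0) :
    MM r q {t | md l t ≠ 0} = 0 := by
  classical
  -- finite blocks without mass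
  have hV : ∀ n, Vz l q 1 n = 0 := by
    intro n
    induction n with
    | zero => exact Vz_zero l q 1
    | succ n ih =>
      refine le_antisymm ((gf_step l q 1 one_ne_zero ENNReal.one_ne_top n).trans ?_) zero_le
      rw [hpa, ih, one_mul, add_zero, Fin.sum_univ_succ]
      simp [h0]
  have hC : MM q q {t | Cc (sd l t) ∧ (sd l t).2.2.2 ≠ ∞} = 0 := by
    have h1 : {t : Cfg D | Cc (sd l t) ∧ (sd l t).2.2.2 ≠ ∞} ⊆
        ⋃ n : ℕ, {t | Zw 1 n (sd l t) ≠ 0} := by
      intro t ht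
      have h4 : (1 + (sd l t).2.2.2) ≠ ∞ := ENNReal.add_ne_top.2 ⟨ENNReal.one_ne_top, ht.2⟩
      obtain ⟨n, hn⟩ := ENNReal.exists_nat_gt h4
      rw [Set.mem_iUnion]
      refine ⟨n, ?_⟩
      change Zw 1 n (sd l t) ≠ 0
      unfold Zw
      rw [if_pos ⟨ht.1, hn.le⟩, ENNReal.one_rpow]
      exact one_ne_zero
    refine measure_mono_null h1 (measure_iUnion_null fun n => ?_)
    have h2 := hV n
    unfold Vz at h2
    have hm : Measurable fun t : Cfg D => Zw 1 n (sd l t) := (meas_Zw 1 n).comp (meas_sd l)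
    rw [lintegral_eq_zero_iff hm] at h2
    exact h2
  set Z : Set (Cfg D) := {t | Cc (xd l t) ∧ (xd l t).2.2.2 ≠ ∞} with hZ
  have hZm : MeasurableSet Z :=
    (meas_xd l ms_C).inter (meas_xd l (m_j (measurableSet_singleton ∞)).compl)
  have hZ0 : MM q q Z = 0 := by
    have h1 : Z ⊆ {t | (sd l t).2.2.1 ≠ 0} ∪ {t | Cc (sd l t) ∧ (sd l t).2.2.2 ≠ ∞} := by
      rintro t ⟨ht1, ht2⟩
      rw [xd_rec] at ht1 ht2
      rcases RR_cases l _ ht1.1 ht1.2 with ⟨-, -, e'⟩ | ⟨e1, e2, -, -, e5, -⟩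
      · exact Or.inl e'
      · refine Or.inr ⟨⟨e1, e2⟩, ?_⟩
        rw [e5] at ht2
        exact (ENNReal.add_ne_top.1 ht2).2
    exact measure_mono_null h1 (measure_union_null hpa hC)
  have hroot : MM r q {t | (t [] : ℕ) = 0} = 0 := by
    have h1 := law_root r q (fun k _ => if (k : ℕ) = 0 then 1 else 0)
      (fun k => measurable_const)
    have h2 : ∑ k : Fin (D + 1), r {k} * ∫⁻ _ : ℕ → Cfg D, (if (k : ℕ) = 0 then (1 : ℝ≥0∞) else 0) ∂(PP q) = 0 := by
      refine Finset.sum_eq_zero fun k _ => ?_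
      by_cases hk : (k : ℕ) = 0
      · rw [hr k (by omega), zero_mul]
      · simp [hk]
    rw [h2] at h1
    have hm : MeasurableSet {t : Cfg D | (t [] : ℕ) = 0} :=
      (meas_coord []) (measurableSet_singleton 0)
    rw [← lintegral_indicator_one hm, ← h1]
    refine lintegral_congr fun t => ?_
    simp [Set.indicator]
  have h1 : {t : Cfg D | md l t ≠ 0} ⊆ {t | Sv l (sd l t) ∧ (sd l t).2.2.2 = ∞} ∪
      ({t | (t [] : ℕ) = 0} ∪ {t | sh t 0 ∈ Z}) := by
    intro t ht
    have ht' := (md_iff l t).1 ht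
    by_cases hj : (sd l t).2.2.2 = ∞
    · exact Or.inl ⟨ht', hj⟩
    · right
      by_cases hk : (t [] : ℕ) = 0
      · exact Or.inl hk
      · right
        have h0 : 0 ∈ Finset.range (t [] : ℕ) := Finset.mem_range.2 (by omega)
        refine ⟨child l t ht'.1 0 h0, ?_⟩
        rw [sd_j] at hj
        exact fun h => hj (ENNReal.sum_eq_top.2 ⟨0, h0, h⟩)
  refine measure_mono_null h1 (measure_union_null (inf_null l r q m hw hq)
    (measure_union_null hroot ?_))
  rw [sh_law r q 0 Z hZm, hZ0]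

/-- the mass at the root vanishes outside a finite set of values -/
theorem final (hm : m ≠ 0) (h0 : q {0} = 0) :
    ∃ L : Set ℝ, L.Finite ∧ ∀ l ∉ L, MM r q {t | md l t ≠ 0} = 0 := by
  obtain ⟨N, hN⟩ := pa_zero r q m hw hq hr hm h0
  refine ⟨⋃ i ∈ Finset.range (N + 1), Lam D i, ?_, fun l hl => ?_⟩
  · exact Set.Finite.biUnion (Finset.finite_toSet _) fun i _ => Lam_finite D i
  · refine root_null r q m hw hq hr l h0 (hN l fun i hi h => hl ?_)
    simp only [Set.mem_iUnion, Finset.mem_range]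
    exact ⟨i, by omega, h⟩

end main

end Pool.Agent.HL274.GW
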