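import Mathlib
import Pool.Agent.H792R3.SpecMeas

/-!
Adjacency operators of plane trees, given by their numbers of children.
-/

set_option autoImplicit false

namespace Pool.Agent.HL274.GW

open scoped ENNReal InnerProductSpace

/-- the Hilbert space -/
noncomputable abbrev HH := lp (fun _ : List ℕ => ℂ) 2

section comp

variable (c : List ℕ → Prop) (d : List ℕ → List ℕ)

open Classical in
/-- masked composition -/
noncomputable def cmp (f : List ℕ → ℂ) (w : List ℕ) : ℂ := if c w then f (d w) else 0

theorem sq_summable (f : HH) : Summable (fun v => ‖f v‖ ^ ((2 : ℝ≥0∞).toReal)) :=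
  (lp.memℓp f).summable (by norm_num)

theorem cmp_tsum (hd : Set.InjOn d {w | c w}) (f : HH) :
    Summable (fun w => ‖cmp c d f w‖ ^ ((2 : ℝ≥0∞).toReal)) ∧
      ∑' w, ‖cmp c d f w‖ ^ ((2 : ℝ≥0∞).toReal) ≤ ∑' v, ‖f v‖ ^ ((2 : ℝ≥0∞).toReal) := by
  have hinj : Function.Injective (fun w : {w // c w} => d w.1) := by
    intro a b hab
    exact Subtype.ext (hd a.2 b.2 hab)
  have h3 : Function.Injective (Subtype.val : {w // c w} → List ℕ) := Subtype.val_injective
  have hz : ∀ w, w ∉ Set.range (Subtype.val : {w // c w} → List ℕ) →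
      ‖cmp c d f w‖ ^ ((2 : ℝ≥0∞).toReal) = 0 := by
    intro w hw
    have : ¬ c w := fun h => hw ⟨⟨w, h⟩, rfl⟩
    simp [cmp, this]
  have hv : ∀ w : {w // c w}, ‖cmp c d f w.1‖ ^ ((2 : ℝ≥0∞).toReal) =
      ‖f (d w.1)‖ ^ ((2 : ℝ≥0∞).toReal) := by
    intro w
    simp [cmp, w.2]
  have hs : Summable (fun w : {w // c w} => ‖cmp c d f w.1‖ ^ ((2 : ℝ≥0∞).toReal)) := by
    simp_rw [hv]
    exact (sq_summable f).comp_injective hinj
  constructor
  · rw [← h3.summable_iff hz]
    exact hs
  · have e1 : ∑' w, ‖cmp c d f w‖ ^ ((2 : ℝ≥0∞).toReal) =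
        ∑' w : {w // c w}, ‖cmp c d f w.1‖ ^ ((2 : ℝ≥0∞).toReal) := by
      refine (h3.tsum_eq ?_).symm
      intro w hw
      by_contra hcon
      exact hw (hz w hcon)
    rw [e1]
    simp_rw [hv]
    exact tsum_comp_le_tsum_of_inj (sq_summable f) (fun p => by positivity) hinj

/-- masked composition as an operator -/
noncomputable def cmpL (hd : Set.InjOn d {w | c w}) : HH →L[ℂ] HH :=
  LinearMap.mkContinuous
    { toFun := fun f => ⟨cmp c d f, memℓp_gen (cmp_tsum c d hd f).1⟩
      map_add' := by
        intro x y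
        apply lp.ext
        funext p
        change cmp c d (x + y) p = cmp c d x p + cmp c d y p
        unfold cmp
        split_ifs
        · rfl
        · simp
      map_smul' := by
        intro a x
        apply lp.ext
        funext p
        change cmp c d (a • x) p = a * cmp c d x p
        unfold cmp
        split_ifs
        · rfl
        · simp } 1 (by
      intro f
      rw [one_mul]
      refine lp.norm_le_of_tsum_le (by norm_num) (norm_nonneg _) ?_
      rw [lp.norm_rpow_eq_tsum (by norm_num) f]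
      exact (cmp_tsum c d hd f).2)

theorem cmpL_norm (hd : Set.InjOn d {w | c w}) : ‖cmpL c d hd‖ ≤ 1 := by
  unfold cmpL
  exact LinearMap.mkContinuous_norm_le _ zero_le_one _

theorem cmpL_apply (hd : Set.InjOn d {w | c w}) (f : HH) (w : List ℕ) :
    cmpL c d hd f w = cmp c d f w := rfl

end comp

/-- a tree with degrees at most `D` -/
abbrev Cfg (D : ℕ) := List ℕ → Fin (D + 1)

variable {D : ℕ}

/-- the branch at the child `a` -/
def sh (t : Cfg D) (a : ℕ) : Cfg D := fun u => t (a :: u)

/-- the vertices -/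
def Vd (t : Cfg D) (v : List ℕ) : Prop := ∀ j < v.length, v.getD j 0 < (t (v.take j) : ℕ)

theorem Vd_nil (t : Cfg D) : Vd t [] := by
  intro j hj
  simp at hj

theorem Vd_cons (t : Cfg D) (a : ℕ) (v : List ℕ) :
    Vd t (a :: v) ↔ a < (t [] : ℕ) ∧ Vd (sh t a) v := by
  constructor
  · intro h
    refine ⟨?_, ?_⟩
    · have := h 0 (by simp)
      simpa using this
    · intro j hj
      have := h (j + 1) (by simpa using hj)
      simpa [sh] using this
  · rintro ⟨h1, h2⟩ j hj
    rcases j with _ | j
    · simpa using h1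
    · have := h2 j (by simpa using hj)
      simpa [sh] using this

theorem Vd_append (t : Cfg D) (v : List ℕ) (b : ℕ) :
    Vd t (v ++ [b]) ↔ Vd t v ∧ b < (t v : ℕ) := by
  induction v generalizing t with
  | nil =>
    rw [List.nil_append, Vd_cons]
    simp [Vd_nil]
  | cons a v ih =>
    rw [List.cons_append, Vd_cons, Vd_cons, ih]
    simp only [sh]
    tauto

theorem Vd_lt (t : Cfg D) (v : List ℕ) (b : ℕ) (h : Vd t (v ++ [b])) : b < D := by
  have := ((Vd_append t v b).1 h).2
  have h2 := (t v).2
  omega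

section op

variable (t : Cfg D)

/-- the vertices of the form `u ++ [a]` -/
def ca (a : ℕ) (w : List ℕ) : Prop := w.getLast? = some a ∧ Vd t w

theorem ca_iff (a : ℕ) (w : List ℕ) : ca t a w ↔ ∃ u, w = u ++ [a] ∧ Vd t w := by
  unfold ca
  constructor
  · rintro ⟨h1, h2⟩
    rw [List.getLast?_eq_some_iff] at h1
    obtain ⟨u, hu⟩ := h1
    exact ⟨u, hu, h2⟩
  · rintro ⟨u, hu, h2⟩
    refine ⟨?_, h2⟩
    rw [hu]
    simp

theorem ca_inj (a : ℕ) : Set.InjOn List.dropLast {w | ca t a w} := by
  intro w hw w' hw' h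
  obtain ⟨u, rfl, -⟩ := (ca_iff t a w).1 hw
  obtain ⟨u', rfl, -⟩ := (ca_iff t a w').1 hw'
  simpa using h

/-- the operator which moves along the `a`-th children -/
noncomputable def Sa (a : ℕ) : HH →L[ℂ] HH := cmpL (ca t a) List.dropLast (ca_inj t a)

/-- unit vectors -/
noncomputable def dl (v : List ℕ) : HH := lp.single 2 v (1 : ℂ)

theorem dl_apply (v w : List ℕ) : dl v w = if w = v then 1 else 0 := by
  unfold dl
  rw [lp.single_apply, Pi.single_apply]

theorem inner_dl (v : List ℕ) (f : HH) : ⟪dl v, f⟫_ℂ = f v := by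
  unfold dl
  rw [lp.inner_single_left]
  simp

open Classical in
theorem Sa_dl (a : ℕ) (v : List ℕ) : Sa t a (dl v) = if Vd t (v ++ [a]) then dl (v ++ [a]) else 0 := by
  apply lp.ext
  funext w
  have h1 : Sa t a (dl v) w = if ca t a w then dl v w.dropLast else 0 := rfl
  rw [h1]
  by_cases hc : ca t a w
  · rw [if_pos hc]
    obtain ⟨u, rfl, hu⟩ := (ca_iff t a w).1 hc
    rw [dl_apply, List.dropLast_concat]
    by_cases huv : u = v
    · subst huv
      rw [if_pos rfl, if_pos hu, dl_apply, if_pos rfl]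
    · rw [if_neg huv]
      split_ifs with h
      · rw [dl_apply, if_neg]
        intro he
        exact huv (by simpa using he)
      · rfl
  · rw [if_neg hc]
    split_ifs with h
    · rw [dl_apply, if_neg]
      intro he
      exact hc ((ca_iff t a w).2 ⟨v, he, by rw [he]; exact h⟩)
    · rfl

open Classical in
theorem Sa_adj (a : ℕ) (f : HH) (v : List ℕ) :
    (ContinuousLinearMap.adjoint (Sa t a) f) v = if Vd t (v ++ [a]) then f (v ++ [a]) else 0 := by
  rw [← inner_dl, ContinuousLinearMap.adjoint_inner_right, Sa_dl]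
  split_ifs with h
  · rw [inner_dl]
  · rw [inner_zero_left]

/-- the adjacency operator -/
noncomputable def AA : HH →L[ℂ] HH :=
  ∑ a ∈ Finset.range D, (Sa t a + ContinuousLinearMap.adjoint (Sa t a))

open Classical in
theorem AA_apply (f : HH) (v : List ℕ) :
    AA t f v = (if v ≠ [] ∧ Vd t v then f v.dropLast else 0) +
      ∑ a ∈ Finset.range D, if Vd t (v ++ [a]) then f (v ++ [a]) else 0 := by
  have h0 : AA t f v = ∑ a ∈ Finset.range D, ((Sa t a f) v +
      (ContinuousLinearMap.adjoint (Sa t a) f) v) := by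
    unfold AA
    rw [sum_apply, lp.coeFn_sum, Finset.sum_apply]
    rfl
  rw [h0, Finset.sum_add_distrib]
  congr 1
  · have h1 : ∀ a, Sa t a f v = if ca t a v then f v.dropLast else 0 := fun a => rfl
    simp_rw [h1]
    by_cases hv : v ≠ [] ∧ Vd t v
    · rw [if_pos hv]
      obtain ⟨hne, hV⟩ := hv
      obtain ⟨u, b, rfl⟩ : ∃ u b, v = u ++ [b] := ⟨v.dropLast, v.getLast hne,
        (List.dropLast_append_getLast hne).symm⟩
      have hb := Vd_lt t u b hV
      rw [Finset.sum_eq_single b]
      · rw [if_pos]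
        exact (ca_iff t b _).2 ⟨u, rfl, hV⟩
      · intro a _ hab
        rw [if_neg]
        intro hc
        obtain ⟨u', he, -⟩ := (ca_iff t a _).1 hc
        apply hab
        have := congrArg List.getLast? he
        simpa using this.symm
      · intro hb'
        exact absurd (Finset.mem_range.2 hb) hb'
    · rw [if_neg hv]
      refine Finset.sum_eq_zero fun a _ => ?_
      rw [if_neg]
      intro hc
      obtain ⟨u', he, hV⟩ := (ca_iff t a _).1 hc
      exact hv ⟨by rw [he]; simp, hV⟩
  · refine Finset.sum_congr rfl fun a _ => Sa_adj t a f v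

theorem AA_sa : IsSelfAdjoint (AA t) := by
  unfold AA
  refine isSelfAdjoint_sum _ fun a _ => ?_
  rw [IsSelfAdjoint, star_add, ContinuousLinearMap.star_eq_adjoint,
    ContinuousLinearMap.star_eq_adjoint, ContinuousLinearMap.adjoint_adjoint, add_comm]

theorem Sa_norm (a : ℕ) : ‖Sa t a‖ ≤ 1 := cmpL_norm _ _ _

theorem AA_norm : ‖AA t‖ ≤ 2 * D := by
  unfold AA
  refine (norm_sum_le _ _).trans ?_
  have : ∀ a ∈ Finset.range D, ‖Sa t a + ContinuousLinearMap.adjoint (Sa t a)‖ ≤ 2 := by
    intro a _
    refine (norm_add_le _ _).trans ?_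
    rw [LinearIsometryEquiv.norm_map]
    have := Sa_norm t a
    linarith
  refine (Finset.sum_le_card_nsmul _ _ _ this).trans ?_
  rw [Finset.card_range, nsmul_eq_mul, mul_comm]

end op

end Pool.Agent.HL274.GW
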