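import Pool.Agent.HL274.GW.Mom

/-!
The recursion for the resolvent at the root.
-/

set_option autoImplicit false

namespace Pool.Agent.HL274.GW

open scoped ENNReal InnerProductSpace
open MeasureTheory

variable {D : ℕ}

theorem ker_zero (A : HH →L[ℂ] HH) (hA : IsSelfAdjoint A) (l e : ℝ) (he : e ≠ 0) (f : HH)
    (h : A f - ((l : ℂ) + Complex.I * e) • f = 0) : f = 0 := by
  have h1 : A f = ((l : ℂ) + Complex.I * e) • f := sub_eq_zero.1 h
  have h2 : (inner ℂ f (A f)).im = 0 :=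
    (ContinuousLinearMap.isSelfAdjoint_iff_isSymmetric.1 hA).im_inner_self_apply f
  rw [h1, inner_smul_right, inner_self_eq_norm_sq_to_K] at h2
  have h3 : (((l : ℂ) + Complex.I * e) * ((‖f‖ : ℂ)) ^ 2).im = e * ‖f‖ ^ 2 := by
    rw [show ((‖f‖ : ℂ)) ^ 2 = ((‖f‖ ^ 2 : ℝ) : ℂ) by push_cast; rfl, Complex.im_mul_ofReal]
    simp
  have h4 : e * ‖f‖ ^ 2 = 0 := h3.symm.trans h2
  have h5 : ‖f‖ ^ 2 = 0 := (mul_eq_zero.1 h4).resolve_left he
  exact norm_eq_zero.1 (pow_eq_zero_iff (two_ne_zero) |>.1 h5)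

/-- the value at the root of the resolvent -/
theorem uniq (t : Cfg D) (l e : ℝ) (he : e ≠ 0) (f : HH) (c : ℂ)
    (h : AA t f - ((l : ℂ) + Complex.I * e) • f = c • dl []) :
    f [] = c * (-((∫ x, kg l e x ∂(mu t) : ℝ) : ℂ) +
      Complex.I * e * ((∫ x, kq l e x ∂(mu t) : ℝ) : ℂ)) := by
  obtain ⟨ψ, h1, h2⟩ := mu_res t l e he
  have h3 : f - c • ψ = 0 := by
    apply ker_zero (AA t) (AA_sa t) l e he
    rw [map_sub, map_smul, smul_sub]
    have h4 : c • (AA t ψ - ((l : ℂ) + Complex.I * e) • ψ) = c • dl [] := by rw [h1]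
    rw [smul_sub] at h4
    have h5 : ((l : ℂ) + Complex.I * e) • c • ψ = c • ((l : ℂ) + Complex.I * e) • ψ :=
      smul_comm _ _ _
    rw [h5]
    have h6 : AA t f - c • AA t ψ - (((l : ℂ) + Complex.I * e) • f - c • ((l : ℂ) + Complex.I * e) • ψ)
        = (AA t f - ((l : ℂ) + Complex.I * e) • f) - (c • AA t ψ - c • ((l : ℂ) + Complex.I * e) • ψ) := by
      abel
    rw [h6, h, h4, sub_self]
  have h4 : f = c • ψ := sub_eq_zero.1 h3
  rw [h4]
  change c * ψ [] = _
  rw [h2]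

theorem cons_inj (a : ℕ) : Set.InjOn (fun u : List ℕ => a :: u) {w | (fun _ => True) w} := by
  intro x _ y _ h
  simpa using h

theorem cmpL_cons (a : ℕ) (ψ : HH) (u : List ℕ) :
    cmpL (fun _ => True) (fun u => a :: u) (cons_inj a) ψ u = ψ (a :: u) := by
  rw [cmpL_apply]
  simp [cmp]

theorem branch (t : Cfg D) (z : ℂ) (ψ : HH) (hψ : AA t ψ - z • ψ = dl []) (a : ℕ)
    (ha : a < (t [] : ℕ)) :
    AA (sh t a) (cmpL (fun _ => True) (fun u => a :: u) (cons_inj a) ψ) -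
      z • (cmpL (fun _ => True) (fun u => a :: u) (cons_inj a) ψ) = (-(ψ [])) • dl [] := by
  classical
  set χ := cmpL (fun _ => True) (fun u => a :: u) (cons_inj a) ψ with hχ
  have hχa : ∀ u, χ u = ψ (a :: u) := by
    intro u
    exact cmpL_cons a ψ u
  apply lp.ext
  funext u
  change AA (sh t a) χ u - z * χ u = (-(ψ [])) * dl [] u
  have h1 : AA t ψ (a :: u) - z * ψ (a :: u) = dl [] (a :: u) :=
    congrFun (congrArg (fun f : HH => (f : List ℕ → ℂ)) hψ) (a :: u)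
  have h2 : dl [] (a :: u) = 0 := by
    rw [dl_apply, if_neg (by simp)]
  rw [h2] at h1
  have hV : ∀ u, Vd t (a :: u) ↔ Vd (sh t a) u := fun u => by
    rw [Vd_cons]; exact and_iff_right ha
  have h3 : AA (sh t a) χ u = AA t ψ (a :: u) - (if u = [] then ψ [] else 0) := by
    rw [AA_apply, AA_apply]
    have e1 : (∑ b ∈ Finset.range D, if Vd (sh t a) (u ++ [b]) then χ (u ++ [b]) else 0) =
        ∑ b ∈ Finset.range D, if Vd t (a :: u ++ [b]) then ψ (a :: u ++ [b]) else 0 := by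
      refine Finset.sum_congr rfl fun b _ => ?_
      rw [List.cons_append, hχa]
      by_cases hb : Vd (sh t a) (u ++ [b])
      · rw [if_pos hb, if_pos ((hV _).2 hb)]
      · rw [if_neg hb, if_neg (fun h => hb ((hV _).1 h))]
    rw [e1]
    by_cases hu : u = []
    · subst hu
      rw [if_neg (by simp), if_pos ⟨by simp, (hV _).2 (Vd_nil _)⟩, if_pos rfl]
      simp
    · rw [if_neg hu, sub_zero]
      congr 1
      by_cases hVu : Vd (sh t a) u
      · rw [if_pos ⟨hu, hVu⟩, if_pos ⟨by simp, (hV _).2 hVu⟩, hχa, List.dropLast_cons_of_ne_nil hu]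
      · rw [if_neg (fun h => hVu h.2), if_neg (fun h => hVu ((hV _).1 h.2))]
  rw [h3, hχa, dl_apply]
  split_ifs with hu
  · linear_combination h1
  · linear_combination h1

theorem root_eq (t : Cfg D) (z : ℂ) (ψ : HH) (hψ : AA t ψ - z • ψ = dl []) :
    ∑ a ∈ Finset.range (t [] : ℕ), ψ [a] - z * ψ [] = 1 := by
  classical
  have h1 : AA t ψ [] - z * ψ [] = dl [] [] :=
    congrFun (congrArg (fun f : HH => (f : List ℕ → ℂ)) hψ) []
  rw [dl_apply, if_pos rfl, AA_apply] at h1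
  rw [if_neg (by simp), zero_add] at h1
  rw [← h1]
  congr 1
  have h2 : ∀ b, Vd t ([] ++ [b]) ↔ b < (t [] : ℕ) := fun b => by
    rw [Vd_append]; exact and_iff_right (Vd_nil t)
  simp_rw [h2]
  rw [← Finset.sum_filter]
  refine Finset.sum_congr ?_ fun _ _ => rfl
  ext b
  have := (t []).2
  simp only [Finset.mem_range, Finset.mem_filter]
  omega

/-- the two resolvent quantities -/
noncomputable def Gt (t : Cfg D) (l e : ℝ) : ℝ := ∫ x, kg l e x ∂(mu t)

/-- the two resolvent quantities -/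
noncomputable def Qt (t : Cfg D) (l e : ℝ) : ℝ := ∫ x, kq l e x ∂(mu t)

theorem complex_rec (t : Cfg D) (l e : ℝ) (he : e ≠ 0) :
    (-(Gt t l e : ℂ) + Complex.I * e * (Qt t l e : ℂ)) *
      (((l - ∑ a ∈ Finset.range (t [] : ℕ), Gt (sh t a) l e : ℝ) : ℂ) +
        Complex.I * e * ((1 + ∑ a ∈ Finset.range (t [] : ℕ), Qt (sh t a) l e : ℝ) : ℂ)) = -1 := by
  obtain ⟨ψ, h1, h2⟩ := mu_res t l e he
  have h3 := root_eq t _ ψ h1
  have h4 : ∀ a ∈ Finset.range (t [] : ℕ), ψ [a] = (-(ψ [])) * (-(Gt (sh t a) l e : ℂ) +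
      Complex.I * e * (Qt (sh t a) l e : ℂ)) := by
    intro a ha
    have h5 := branch t _ ψ h1 a (Finset.mem_range.1 ha)
    have h6 := uniq (sh t a) l e he _ _ h5
    rw [← Gt, ← Qt] at h6
    rw [← h6]
    exact (cmpL_cons a ψ []).symm
  rw [Finset.sum_congr rfl h4, ← Finset.mul_sum, Finset.sum_add_distrib, ← Finset.mul_sum] at h3
  rw [← Gt, ← Qt] at h2
  rw [← h2]
  push_cast
  rw [Finset.sum_neg_distrib] at h3
  linear_combination -h3

theorem real_rec (t : Cfg D) (l e : ℝ) (he : e ≠ 0) :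
    Gt t l e * (l - ∑ a ∈ Finset.range (t [] : ℕ), Gt (sh t a) l e) +
      e ^ 2 * Qt t l e * (1 + ∑ a ∈ Finset.range (t [] : ℕ), Qt (sh t a) l e) = 1 ∧
    Qt t l e * (l - ∑ a ∈ Finset.range (t [] : ℕ), Gt (sh t a) l e) =
      Gt t l e * (1 + ∑ a ∈ Finset.range (t [] : ℕ), Qt (sh t a) l e) := by
  have h := complex_rec t l e he
  set α := l - ∑ a ∈ Finset.range (t [] : ℕ), Gt (sh t a) l e
  set β := 1 + ∑ a ∈ Finset.range (t [] : ℕ), Qt (sh t a) l e
  have hre := congrArg Complex.re h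
  have him := congrArg Complex.im h
  simp at hre him
  constructor
  · linear_combination -hre
  · have h5 : e * (Qt t l e * α - Gt t l e * β) = 0 := by linear_combination him
    have h6 := (mul_eq_zero.1 h5).resolve_left he
    linarith

end Pool.Agent.HL274.GW
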