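import Pool.Agent.HL274.GW.Lim

/-!
The recursion for the data of the branches.
-/

set_option autoImplicit false

namespace Pool.Agent.HL274.GW

open scoped ENNReal Topology
open MeasureTheory Filter

/-- sequences with the limit behaviour of the resolvent -/
structure LimS (G Q : ℕ → ℝ) (g : ℝ) (q : ℝ≥0∞) (m : ℝ) : Prop where
  pos : ∀ n, 0 ≤ Q n
  tq : Tendsto (fun n => ENNReal.ofReal (Q n)) atTop (𝓝 q)
  tm : Tendsto (fun n => ep n ^ 2 * Q n) atTop (𝓝 m)
  t0 : Tendsto (fun n => ep n * G n) atTop (𝓝 0)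
  tg : q ≠ ∞ → Tendsto G atTop (𝓝 g)
  tg' : q ≠ ∞ → Tendsto (fun n => (G n - g) / ep n) atTop (𝓝 0)

theorem LimS.tQ {G Q : ℕ → ℝ} {g : ℝ} {q : ℝ≥0∞} {m : ℝ} (h : LimS G Q g q m) (hq : q ≠ ∞) :
    Tendsto Q atTop (𝓝 q.toReal) := by
  have h1 := (ENNReal.tendsto_toReal hq).comp h.tq
  refine h1.congr fun n => ?_
  exact ENNReal.toReal_ofReal (h.pos n)

theorem LimS.m0 {G Q : ℕ → ℝ} {g : ℝ} {q : ℝ≥0∞} {m : ℝ} (h : LimS G Q g q m) (hq : q ≠ ∞) :
    m = 0 := by
  have h1 : Tendsto (fun n => ep n ^ 2 * Q n) atTop (𝓝 (0 ^ 2 * q.toReal)) :=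
    (ep_lim.pow 2).mul (h.tQ hq)
  have := tendsto_nhds_unique h.tm h1
  simpa using this

theorem LimS.mnn {G Q : ℕ → ℝ} {g : ℝ} {q : ℝ≥0∞} {m : ℝ} (h : LimS G Q g q m) : 0 ≤ m :=
  ge_of_tendsto' h.tm fun n => mul_nonneg (pow_pos (ep_pos n) 2).le (h.pos n)

theorem LimS.top {G Q : ℕ → ℝ} {g : ℝ} {q : ℝ≥0∞} {m : ℝ} (h : LimS G Q g q m) (hq : q = ∞) :
    Tendsto Q atTop atTop := by
  have h1 := h.tq
  rw [hq, ENNReal.tendsto_nhds_top_iff_nat] at h1
  rw [tendsto_atTop]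
  intro b
  obtain ⟨n, hn⟩ := exists_nat_ge b
  filter_upwards [h1 n] with k hk
  have h2 : ENNReal.ofReal (n : ℝ) < ENNReal.ofReal (Q k) := by
    rw [ENNReal.ofReal_natCast]; exact hk
  have h3 := (ENNReal.ofReal_lt_ofReal_iff_of_nonneg (Nat.cast_nonneg n)).1 h2
  linarith

theorem LimS.sum {ι : Type} (s : Finset ι) (G Q : ι → ℕ → ℝ) (g : ι → ℝ) (q : ι → ℝ≥0∞) (m : ι → ℝ)
    (h : ∀ i ∈ s, LimS (G i) (Q i) (g i) (q i) (m i)) :
    LimS (fun n => ∑ i ∈ s, G i n) (fun n => ∑ i ∈ s, Q i n) (∑ i ∈ s, g i) (∑ i ∈ s, q i)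
      (∑ i ∈ s, m i) := by
  refine ⟨fun n => Finset.sum_nonneg fun i hi => (h i hi).pos n, ?_, ?_, ?_, ?_, ?_⟩
  · have h1 : ∀ n, ENNReal.ofReal (∑ i ∈ s, Q i n) = ∑ i ∈ s, ENNReal.ofReal (Q i n) := fun n =>
      ENNReal.ofReal_sum_of_nonneg fun i hi => (h i hi).pos n
    simp_rw [h1]
    exact tendsto_finset_sum _ fun i hi => (h i hi).tq
  · simp_rw [Finset.mul_sum]
    exact tendsto_finset_sum _ fun i hi => (h i hi).tm
  · simp_rw [Finset.mul_sum]
    have := tendsto_finset_sum s fun i hi => (h i hi).t0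
    simpa using this
  · intro hq
    rw [Ne, ENNReal.sum_eq_top] at hq
    push Not at hq
    exact tendsto_finset_sum _ fun i hi => (h i hi).tg (hq i hi)
  · intro hq
    rw [Ne, ENNReal.sum_eq_top] at hq
    push Not at hq
    have := tendsto_finset_sum s fun i hi => (h i hi).tg' (hq i hi)
    have e : ∀ n, (∑ i ∈ s, G i n - ∑ i ∈ s, g i) / ep n = ∑ i ∈ s, (G i n - g i) / ep n := fun n => by
      rw [← Finset.sum_sub_distrib, Finset.sum_div]
    simp_rw [e]
    simpa using this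

section step

variable {G Q Gs Qs : ℕ → ℝ} {g g' : ℝ} {q q' : ℝ≥0∞} {m m' l : ℝ}

theorem step (hs : LimS Gs Qs g q m) (hp : LimS G Q g' q' m') (hq' : q' ≠ 0)
    (r1 : ∀ n, G n * (l - Gs n) + ep n ^ 2 * Q n * (1 + Qs n) = 1)
    (r2 : ∀ n, Q n * (l - Gs n) = G n * (1 + Qs n)) :
    (m ≠ 0 → q' = ENNReal.ofReal (1 / m) ∧ g' = 0 ∧ m' = 0) ∧
    (m = 0 → q = ∞ → q' = ∞ ∧ m' = 0) ∧
    (q ≠ ∞ → l ≠ g → q' = ENNReal.ofReal ((1 + q.toReal) / (l - g) ^ 2) ∧ g' = 1 / (l - g) ∧ m' = 0) ∧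
    (q ≠ ∞ → l = g → q' = ∞ ∧ m' = 1 / (1 + q.toReal)) := by
  set α : ℕ → ℝ := fun n => l - Gs n with hα
  set β : ℕ → ℝ := fun n => 1 + Qs n with hβ
  have hβ1 : ∀ n, 1 ≤ β n := fun n => by have := hs.pos n; simp only [hβ]; linarith
  have r1' : ∀ n, G n * α n + ep n ^ 2 * Q n * β n = 1 := r1
  have r2' : ∀ n, Q n * α n = G n * β n := r2
  have hβe : Tendsto (fun n => ep n ^ 2 * β n) atTop (𝓝 m) := by
    have : Tendsto (fun n => ep n ^ 2 + ep n ^ 2 * Qs n) atTop (𝓝 (0 ^ 2 + m)) :=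
      (ep_lim.pow 2).add hs.tm
    have h0 : (0 : ℝ) ^ 2 + m = m := by ring
    rw [h0] at this
    refine this.congr fun n => ?_
    simp only [hβ]; ring
  have hαe : Tendsto (fun n => ep n * α n) atTop (𝓝 0) := by
    have : Tendsto (fun n => ep n * l - ep n * Gs n) atTop (𝓝 (0 * l - 0)) :=
      (ep_lim.mul_const l).sub hs.t0
    have h0 : (0 : ℝ) * l - 0 = 0 := by ring
    rw [h0] at this
    refine this.congr fun n => ?_
    simp only [hα]; ring
  have hden : ∀ n, 0 < α n ^ 2 + ep n ^ 2 * β n ^ 2 := by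
    intro n
    have := ep_pos n
    have := hβ1 n
    positivity
  have f1 : ∀ n, Q n * (α n ^ 2 + ep n ^ 2 * β n ^ 2) = β n := by
    intro n
    linear_combination (α n) * r2' n + (β n) * r1' n
  have f2 : ∀ n, G n * (α n ^ 2 + ep n ^ 2 * β n ^ 2) = α n := by
    intro n
    linear_combination (α n) * r1' n - ep n ^ 2 * (β n) * r2' n
  have f4 : ∀ n, β n * (G n ^ 2 + ep n ^ 2 * Q n ^ 2) = Q n := by
    intro n
    linear_combination (Q n) * r1' n - (G n) * r2' n
  refine ⟨?_, ?_, ?_, ?_⟩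
  · intro hm
    have hq1 : Tendsto Q atTop (𝓝 (1 / m)) := by
      have h1 : Tendsto (fun n => (ep n ^ 2 * β n) / ((ep n * α n) ^ 2 + (ep n ^ 2 * β n) ^ 2)) atTop
          (𝓝 (m / (0 ^ 2 + m ^ 2))) :=
        hβe.div ((hαe.pow 2).add (hβe.pow 2)) (by positivity)
      have h2 : m / (0 ^ 2 + m ^ 2) = 1 / m := by
        field_simp
        simp
      rw [h2] at h1
      refine h1.congr fun n => ?_
      have h3 := (hden n).ne'
      have h4 := ep_ne n
      have h5 : (ep n * α n) ^ 2 + (ep n ^ 2 * β n) ^ 2 = ep n ^ 2 * (α n ^ 2 + ep n ^ 2 * β n ^ 2) := by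
        ring
      rw [h5, div_eq_iff (by positivity)]
      linear_combination (-(ep n ^ 2)) * f1 n
    have hq2 : q' = ENNReal.ofReal (1 / m) :=
      tendsto_nhds_unique hp.tq ((ENNReal.continuous_ofReal.tendsto _).comp hq1)
    have hq3 : q' ≠ ∞ := by rw [hq2]; exact ENNReal.ofReal_ne_top
    refine ⟨hq2, ?_, hp.m0 hq3⟩
    have h1 : Tendsto (fun n => (ep n * (ep n * α n)) / ((ep n * α n) ^ 2 + (ep n ^ 2 * β n) ^ 2)) atTop
        (𝓝 ((0 * 0) / (0 ^ 2 + m ^ 2))) :=
      (ep_lim.mul hαe).div ((hαe.pow 2).add (hβe.pow 2)) (by positivity)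
    have h2 : (0 * 0) / (0 ^ 2 + m ^ 2) = 0 := by simp
    rw [h2] at h1
    refine tendsto_nhds_unique (hp.tg hq3) (h1.congr fun n => ?_)
    have h3 := (hden n).ne'
    have h4 := ep_ne n
    have h5 : (ep n * α n) ^ 2 + (ep n ^ 2 * β n) ^ 2 = ep n ^ 2 * (α n ^ 2 + ep n ^ 2 * β n ^ 2) := by
      ring
    rw [h5, div_eq_iff (by positivity)]
    linear_combination (-(ep n ^ 2)) * f2 n
  · intro hm hq
    have hβt : Tendsto β atTop atTop := tendsto_atTop_add_const_left _ _ (hs.top hq)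
    constructor
    · by_contra hq3
      have hQ := hp.tQ hq3
      have hqr : 0 < q'.toReal := ENNReal.toReal_pos hq' hq3
      have hG := hp.tg hq3
      by_cases hg : g' = 0
      · have hG' := hp.tg' hq3
        rw [hg] at hG'
        have h1 : Tendsto (fun n => Q n / (((G n - 0) / ep n) ^ 2 + Q n ^ 2)) atTop
            (𝓝 (q'.toReal / (0 ^ 2 + q'.toReal ^ 2))) :=
          hQ.div ((hG'.pow 2).add (hQ.pow 2)) (by positivity)
        have h2 : Tendsto (fun n => ep n ^ 2 * β n) atTop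
            (𝓝 (q'.toReal / (0 ^ 2 + q'.toReal ^ 2))) := by
          refine h1.congr fun n => ?_
          have h4 := ep_ne n
          have h6 : 0 < Q n := by
            have h7 := f1 n
            have h8 := hden n
            have h9 := hβ1 n
            by_contra hcon
            push Not at hcon
            nlinarith
          have h5 : 0 < ((G n - 0) / ep n) ^ 2 + Q n ^ 2 := by positivity
          rw [div_eq_iff h5.ne']
          have h7 : ep n ^ 2 * β n * (((G n - 0) / ep n) ^ 2 + Q n ^ 2) =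
              β n * (G n ^ 2 + ep n ^ 2 * Q n ^ 2) := by
            field_simp
            ring
          rw [h7, f4]
        have h3 := tendsto_nhds_unique h2 hβe
        rw [hm] at h3
        have h4 : 0 < q'.toReal / (0 ^ 2 + q'.toReal ^ 2) := by positivity
        linarith
      · have h1 : Tendsto (fun n => Q n / (G n ^ 2 + ep n ^ 2 * Q n ^ 2)) atTop
            (𝓝 (q'.toReal / (g' ^ 2 + 0 ^ 2 * q'.toReal ^ 2))) :=
          hQ.div ((hG.pow 2).add ((ep_lim.pow 2).mul (hQ.pow 2))) (by simpa using hg)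
        have h2 : Tendsto β atTop (𝓝 (q'.toReal / (g' ^ 2 + 0 ^ 2 * q'.toReal ^ 2))) := by
          refine h1.congr fun n => ?_
          have h4 := ep_ne n
          have h6 : 0 < Q n := by
            have h7 := f1 n
            have h8 := hden n
            have h9 := hβ1 n
            by_contra hcon
            push Not at hcon
            nlinarith
          rw [div_eq_iff (by positivity), f4]
        exact not_tendsto_nhds_of_tendsto_atTop hβt _ h2
    · have h1 : Tendsto (fun n => (β n)⁻¹) atTop (𝓝 0) := tendsto_inv_atTop_zero.comp hβt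
      have h2 : ∀ n, ep n ^ 2 * Q n ≤ (β n)⁻¹ := by
        intro n
        have h3 := f1 n
        have h4 := hβ1 n
        have h5 : 0 < β n := by linarith
        rw [inv_eq_one_div, le_div_iff₀ h5]
        have h6 : ep n ^ 2 * Q n * β n * β n ≤ 1 * β n := by
          have : 0 ≤ Q n * α n ^ 2 := mul_nonneg (hp.pos n) (sq_nonneg _)
          nlinarith
        exact le_of_mul_le_mul_right h6 h5
      have h3 := squeeze_zero (fun n => mul_nonneg (pow_pos (ep_pos n) 2).le (hp.pos n)) h2 h1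
      exact tendsto_nhds_unique hp.tm h3
  · intro hq hlg
    have hne : l - g ≠ 0 := sub_ne_zero.2 hlg
    have hA : Tendsto α atTop (𝓝 (l - g)) := tendsto_const_nhds.sub (hs.tg hq)
    have hB : Tendsto β atTop (𝓝 (1 + q.toReal)) := tendsto_const_nhds.add (hs.tQ hq)
    have h0 : (l - g) ^ 2 + 0 ^ 2 * (1 + q.toReal) ^ 2 ≠ 0 := by simpa using hne
    have hD : Tendsto (fun n => α n ^ 2 + ep n ^ 2 * β n ^ 2) atTop
        (𝓝 ((l - g) ^ 2 + 0 ^ 2 * (1 + q.toReal) ^ 2)) :=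
      (hA.pow 2).add ((ep_lim.pow 2).mul (hB.pow 2))
    have hq1 : Tendsto Q atTop (𝓝 ((1 + q.toReal) / (l - g) ^ 2)) := by
      have h1 := hB.div hD h0
      have h2 : (1 + q.toReal) / ((l - g) ^ 2 + 0 ^ 2 * (1 + q.toReal) ^ 2) =
          (1 + q.toReal) / (l - g) ^ 2 := by congr 1; ring
      rw [h2] at h1
      refine h1.congr fun n => ?_
      rw [Pi.div_apply, div_eq_iff (hden n).ne', f1]
    have hq2 : q' = ENNReal.ofReal ((1 + q.toReal) / (l - g) ^ 2) :=
      tendsto_nhds_unique hp.tq ((ENNReal.continuous_ofReal.tendsto _).comp hq1)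
    have hq3 : q' ≠ ∞ := by rw [hq2]; exact ENNReal.ofReal_ne_top
    refine ⟨hq2, ?_, hp.m0 hq3⟩
    have h1 := hA.div hD h0
    have h2 : (l - g) / ((l - g) ^ 2 + 0 ^ 2 * (1 + q.toReal) ^ 2) = 1 / (l - g) := by
      have : (l - g) ^ 2 + 0 ^ 2 * (1 + q.toReal) ^ 2 = (l - g) ^ 2 := by ring
      rw [this]
      field_simp
    rw [h2] at h1
    refine tendsto_nhds_unique (hp.tg hq3) (h1.congr fun n => ?_)
    rw [Pi.div_apply, div_eq_iff (hden n).ne', f2]
  · intro hq hlg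
    have hB : Tendsto β atTop (𝓝 (1 + q.toReal)) := tendsto_const_nhds.add (hs.tQ hq)
    have hA : Tendsto (fun n => α n / ep n) atTop (𝓝 0) := by
      have := (hs.tg' hq).neg
      rw [neg_zero] at this
      refine this.congr fun n => ?_
      simp only [hα]
      rw [hlg]
      ring
    have hb : 0 < 1 + q.toReal := by have := ENNReal.toReal_nonneg (a := q); linarith
    have h1 : Tendsto (fun n => β n / ((α n / ep n) ^ 2 + β n ^ 2)) atTop
        (𝓝 ((1 + q.toReal) / (0 ^ 2 + (1 + q.toReal) ^ 2))) :=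
      hB.div ((hA.pow 2).add (hB.pow 2)) (by positivity)
    have h2 : (1 + q.toReal) / (0 ^ 2 + (1 + q.toReal) ^ 2) = 1 / (1 + q.toReal) := by
      have : (0 : ℝ) ^ 2 + (1 + q.toReal) ^ 2 = (1 + q.toReal) ^ 2 := by ring
      rw [this]
      field_simp
    rw [h2] at h1
    have hm' : m' = 1 / (1 + q.toReal) := by
      refine tendsto_nhds_unique hp.tm (h1.congr fun n => ?_)
      have h4 := ep_ne n
      have h5 := hβ1 n
      have h6 : 0 < (α n / ep n) ^ 2 + β n ^ 2 := by positivity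
      rw [div_eq_iff h6.ne']
      have h7 : ep n ^ 2 * Q n * ((α n / ep n) ^ 2 + β n ^ 2) =
          Q n * (α n ^ 2 + ep n ^ 2 * β n ^ 2) := by
        field_simp
      rw [h7, f1]
    refine ⟨?_, hm'⟩
    by_contra hq3
    have := hp.m0 hq3
    rw [hm'] at this
    have h3 : 0 < 1 / (1 + q.toReal) := by positivity
    linarith

end step

end Pool.Agent.HL274.GW
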