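import Pool.Agent.HL274.GW.Ker

/-!
The kernels summed over the children of the root.
-/

set_option autoImplicit false

namespace Pool.Agent.HL274.GW

open scoped ENNReal Topology
open MeasureTheory Filter

variable {D : ℕ}

theorem sd_split (l : ℝ) (t : Cfg D) (a : ℕ) (ha : a ∈ Finset.range (t [] : ℕ)) :
    ∑ i ∈ (Finset.range (t [] : ℕ)).erase a, xd l (sh t i) + xd l (sh t a) = sd l t :=
  Finset.sum_erase_add _ _ ha

theorem sd_q (l : ℝ) (t : Cfg D) :
    (sd l t).2.1 = ∑ a ∈ Finset.range (t [] : ℕ), (xd l (sh t a)).2.1 := by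
  unfold sd; rw [Prod.snd_sum, Prod.fst_sum]

theorem sd_m (l : ℝ) (t : Cfg D) :
    (sd l t).2.2.1 = ∑ a ∈ Finset.range (t [] : ℕ), (xd l (sh t a)).2.2.1 := by
  unfold sd; rw [Prod.snd_sum, Prod.snd_sum, Prod.fst_sum]

theorem sd_j (l : ℝ) (t : Cfg D) :
    (sd l t).2.2.2 = ∑ a ∈ Finset.range (t [] : ℕ), (xd l (sh t a)).2.2.2 := by
  unfold sd; rw [Prod.snd_sum, Prod.snd_sum, Prod.snd_sum]

theorem er_j (l : ℝ) (t : Cfg D) (a : ℕ) :
    (∑ i ∈ (Finset.range (t [] : ℕ)).erase a, xd l (sh t i)).2.2.2 =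
      ∑ i ∈ (Finset.range (t [] : ℕ)).erase a, (xd l (sh t i)).2.2.2 := by
  rw [Prod.snd_sum, Prod.snd_sum, Prod.snd_sum]

theorem er_m (l : ℝ) (t : Cfg D) (a : ℕ) :
    (∑ i ∈ (Finset.range (t [] : ℕ)).erase a, xd l (sh t i)).2.2.1 =
      ∑ i ∈ (Finset.range (t [] : ℕ)).erase a, (xd l (sh t i)).2.2.1 := by
  rw [Prod.snd_sum, Prod.snd_sum, Prod.fst_sum]

/-- children of a root without mass -/
theorem child (l : ℝ) (t : Cfg D) (h : Cc (sd l t)) (a : ℕ) (ha : a ∈ Finset.range (t [] : ℕ)) :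
    Cc (xd l (sh t a)) := by
  rw [← sd_split l t a ha, Cc_add] at h
  exact h.2

/-- a child with value zero has size zero -/
theorem child_j (l : ℝ) (t : Cfg D) (h : Cc (sd l t)) (a : ℕ) (ha : a ∈ Finset.range (t [] : ℕ))
    (h0 : (xd l (sh t a)).1 = 0) : (xd l (sh t a)).2.2.2 = 0 := by
  have hc := child l t h a ha
  rw [xd_rec] at hc h0 ⊢
  rcases RR_cases l _ hc.1 hc.2 with ⟨-, e, -⟩ | ⟨-, -, e3, e4, -, -⟩
  · exact e
  · rw [h0] at e4
    exact absurd e4.symm (inv_ne_zero (sub_ne_zero.2 (Ne.symm e3)))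

open Classical in
/-- indicator of large blocks with mass at the root -/
noncomputable def VV (l : ℝ) (n : ℕ) (s : EE) : ℝ≥0∞ := if Sv l s ∧ Nn n s then 1 else 0

open Classical in
/-- the weight of the root -/
noncomputable def VA (l : ℝ) (n : ℕ) (s : EE) : ℝ≥0∞ :=
  if Sv l s ∧ Nn n s then (1 + s.2.1)⁻¹ else 0

theorem meas_VV (l : ℝ) (n : ℕ) : Measurable (VV l n) := by
  classical
  exact Measurable.ite ((ms_S l).inter (ms_N n)) measurable_const measurable_const

theorem meas_VA (l : ℝ) (n : ℕ) : Measurable (VA l n) := by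
  classical
  exact Measurable.ite ((ms_S l).inter (ms_N n)) (m_q.const_add 1).inv measurable_const

/-- the masses of the block -/
theorem vertex1 (l : ℝ) (n : ℕ) (t : Cfg D) :
    VV l n (sd l t) = VA l n (sd l t) + chs l (P1 l n) t + chs l (P3 l n) t := by
  classical
  unfold chs
  rw [add_assoc, ← Finset.sum_add_distrib]
  have h1 : ∀ a ∈ Finset.range (t [] : ℕ),
      P1 l n (∑ i ∈ (Finset.range (t [] : ℕ)).erase a, xd l (sh t i), xd l (sh t a)) +
      P3 l n (∑ i ∈ (Finset.range (t [] : ℕ)).erase a, xd l (sh t i), xd l (sh t a)) =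
      if Sv l (sd l t) ∧ Nn n (sd l t) then (xd l (sh t a)).2.1 * (1 + (sd l t).2.1)⁻¹ else 0 := by
    intro a ha
    unfold P1 P3
    simp only
    rw [sd_split l t a ha]
    by_cases h2 : Sv l (sd l t) ∧ Nn n (sd l t)
    · rw [if_pos h2]
      by_cases h3 : (xd l (sh t a)).1 = 0
      · rw [if_neg (fun h => h.2.1 h3), if_pos ⟨h2.1, h3, h2.2⟩, zero_add]
      · rw [if_pos ⟨h2.1, h3, h2.2⟩, if_neg (fun h => h3 h.2.1), add_zero]
    · rw [if_neg h2, if_neg (fun h => h2 ⟨h.1, h.2.2⟩), if_neg (fun h => h2 ⟨h.1, h.2.2⟩), add_zero]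
  rw [Finset.sum_congr rfl h1]
  unfold VV VA
  by_cases h2 : Sv l (sd l t) ∧ Nn n (sd l t)
  · simp only [if_pos h2]
    rw [← Finset.sum_mul, ← sd_q]
    have h3 : (1 + (sd l t).2.1) ≠ 0 := by simp
    have h4 : (1 + (sd l t).2.1) ≠ ∞ := ENNReal.add_ne_top.2 ⟨ENNReal.one_ne_top, h2.1.1.2⟩
    have h5 : (1 + (sd l t).2.1)⁻¹ + (sd l t).2.1 * (1 + (sd l t).2.1)⁻¹ =
        (1 + (sd l t).2.1) * (1 + (sd l t).2.1)⁻¹ := by
      rw [add_mul, one_mul]
    rw [h5, ENNReal.mul_inv_cancel h3 h4]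
  · simp only [if_neg h2]
    simp

/-- the sizes of the block -/
theorem vertex2 (l : ℝ) (n : ℕ) (t : Cfg D) :
    VV l n (sd l t) ≤ chs l (P2 l n) t + (n : ℝ≥0∞)⁻¹ := by
  classical
  unfold VV
  split_ifs with h
  swap
  · exact zero_le
  obtain ⟨hS, hN⟩ := h
  have h1 : ∀ a ∈ Finset.range (t [] : ℕ),
      P2 l n (∑ i ∈ (Finset.range (t [] : ℕ)).erase a, xd l (sh t i), xd l (sh t a)) =
      ww (xd l (sh t a)).2.2.2
        (1 + (∑ i ∈ (Finset.range (t [] : ℕ)).erase a, xd l (sh t i)).2.2.2) := by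
    intro a ha
    unfold P2
    simp only
    rw [sd_split l t a ha]
    by_cases h3 : (xd l (sh t a)).1 = 0
    · rw [if_neg (fun h => h.2.1 h3), child_j l t hS.1 a ha h3]
      unfold ww
      simp
    · rw [if_pos ⟨hS, h3, hN⟩]
  unfold chs
  rw [Finset.sum_congr rfl h1]
  by_cases hj : (sd l t).2.2.2 = ∞
  · have hj' := hj
    rw [sd_j, ENNReal.sum_eq_top] at hj'
    obtain ⟨a, ha, hja⟩ := hj'
    by_cases ho : (∑ i ∈ (Finset.range (t [] : ℕ)).erase a, xd l (sh t i)).2.2.2 = ∞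
    · have ho' := ho
      rw [er_j, ENNReal.sum_eq_top] at ho'
      obtain ⟨b, hb, hjb⟩ := ho'
      rw [Finset.mem_erase] at hb
      have hob : (∑ i ∈ (Finset.range (t [] : ℕ)).erase b, xd l (sh t i)).2.2.2 = ∞ := by
        rw [er_j, ENNReal.sum_eq_top]
        exact ⟨a, Finset.mem_erase.2 ⟨Ne.symm hb.1, ha⟩, hja⟩
      have w1 : ww (xd l (sh t a)).2.2.2
        (1 + (∑ i ∈ (Finset.range (t [] : ℕ)).erase a, xd l (sh t i)).2.2.2) = 2⁻¹ := by
        unfold ww
        rw [if_pos hja, ho]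
        simp
      have w2 : ww (xd l (sh t b)).2.2.2
        (1 + (∑ i ∈ (Finset.range (t [] : ℕ)).erase b, xd l (sh t i)).2.2.2) = 2⁻¹ := by
        unfold ww
        rw [if_pos hjb, hob]
        simp
      refine le_trans ?_ le_self_add
      have h3 : ({a, b} : Finset ℕ) ⊆ Finset.range (t [] : ℕ) := by
        intro i hi
        rw [Finset.mem_insert, Finset.mem_singleton] at hi
        rcases hi with rfl | rfl
        · exact ha
        · exact hb.2
      refine le_trans ?_ (Finset.sum_le_sum_of_subset h3)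
      rw [Finset.sum_pair (Ne.symm hb.1), w1, w2, ENNReal.inv_two_add_inv_two]
    · refine le_trans ?_ le_self_add
      refine le_trans ?_ (Finset.single_le_sum (fun _ _ => zero_le) ha)
      unfold ww
      rw [if_pos hja, if_neg]
      exact ENNReal.add_ne_top.2 ⟨ENNReal.one_ne_top, ho⟩
  · have h3 : ∀ a ∈ Finset.range (t [] : ℕ),
        ww (xd l (sh t a)).2.2.2
          (1 + (∑ i ∈ (Finset.range (t [] : ℕ)).erase a, xd l (sh t i)).2.2.2) =
        (xd l (sh t a)).2.2.2 * (1 + (sd l t).2.2.2)⁻¹ := by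
      intro a ha
      have h4 : (sd l t).2.2.2 = (∑ i ∈ (Finset.range (t [] : ℕ)).erase a, xd l (sh t i)).2.2.2 +
          (xd l (sh t a)).2.2.2 := by
        conv_lhs => rw [← sd_split l t a ha]
        rfl
      have h5 : (xd l (sh t a)).2.2.2 ≠ ∞ := by
        rw [h4] at hj
        exact (ENNReal.add_ne_top.1 hj).2
      unfold ww
      rw [if_neg h5, h4, ENNReal.div_eq_inv_mul, mul_comm]
      congr 2
      ring
    rw [Finset.sum_congr rfl h3, ← Finset.sum_mul, ← sd_j]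
    have h5 : (1 + (sd l t).2.2.2)⁻¹ ≤ (n : ℝ≥0∞)⁻¹ := ENNReal.inv_le_inv.2 hN
    have h6 : (1 + (sd l t).2.2.2) ≠ 0 := by simp
    have h7 : (1 + (sd l t).2.2.2) ≠ ∞ := ENNReal.add_ne_top.2 ⟨ENNReal.one_ne_top, hj⟩
    calc (1 : ℝ≥0∞) = (1 + (sd l t).2.2.2) * (1 + (sd l t).2.2.2)⁻¹ :=
          (ENNReal.mul_inv_cancel h6 h7).symm
      _ = (sd l t).2.2.2 * (1 + (sd l t).2.2.2)⁻¹ + (1 + (sd l t).2.2.2)⁻¹ := by ring
      _ ≤ _ := by gcongr

/-- two children with mass -/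
theorem vertex4 (l : ℝ) (t : Cfg D) (h2 : 2 ≤ (t [] : ℕ)) (h0 : md l (sh t 0) ≠ 0)
    (h1 : md l (sh t 1) ≠ 0) : 1 ≤ chs l P4 t := by
  classical
  have hm : ∀ a, (xd l (sh t a)).2.2.1 = md l (sh t a) := fun a => rfl
  have hS : (sd l t).2.2.1 ≠ 0 := by
    rw [sd_m]
    intro h
    exact h0 (Finset.sum_eq_zero_iff.1 h 0 (Finset.mem_range.2 (by omega)))
  have hS' : (sd l t).2.2.1 ≠ ∞ := by
    rw [sd_m]
    refine ENNReal.sum_ne_top.2 fun a _ => ?_
    exact ne_top_of_le_ne_top ENNReal.one_ne_top (md_le l _)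
  have h3 : ∀ a ∈ Finset.range (t [] : ℕ),
      P4 (∑ i ∈ (Finset.range (t [] : ℕ)).erase a, xd l (sh t i), xd l (sh t a)) =
        (xd l (sh t a)).2.2.1 * ((sd l t).2.2.1)⁻¹ := by
    intro a ha
    have h4 : (sd l t).2.2.1 = (∑ i ∈ (Finset.range (t [] : ℕ)).erase a, xd l (sh t i)).2.2.1 +
        (xd l (sh t a)).2.2.1 := by
      conv_lhs => rw [← sd_split l t a ha]
      rfl
    unfold P4
    simp only
    rw [← h4]
    have h5 : (∑ i ∈ (Finset.range (t [] : ℕ)).erase a, xd l (sh t i)).2.2.1 ≠ 0 := by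
      rw [er_m]
      intro h
      rw [Finset.sum_eq_zero_iff] at h
      by_cases ha0 : a = 0
      · subst ha0
        exact h1 (h 1 (Finset.mem_erase.2 ⟨one_ne_zero, Finset.mem_range.2 (by omega)⟩))
      · exact h0 (h 0 (Finset.mem_erase.2 ⟨Ne.symm ha0, Finset.mem_range.2 (by omega)⟩))
    split_ifs with h6
    · rw [ENNReal.div_eq_inv_mul, mul_comm]
    · have h7 : (xd l (sh t a)).2.2.1 = 0 := by
        by_contra h7
        exact h6 ⟨h7, h5⟩
      rw [h7, zero_mul]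
  unfold chs
  rw [Finset.sum_congr rfl h3, ← Finset.sum_mul, ← sd_m, ENNReal.mul_inv_cancel hS hS']

theorem vertex5 (l : ℝ) (t : Cfg D) (h : ¬ (Sv l (sd l t) ∧ (sd l t).2.2.2 = ∞)) :
    chs l (P5 l) t = 0 := by
  classical
  unfold chs
  refine Finset.sum_eq_zero fun a ha => ?_
  unfold P5
  simp only
  rw [sd_split l t a ha, if_neg h]

/-- mass at the root -/
theorem md_iff (l : ℝ) (t : Cfg D) : md l t ≠ 0 ↔ Sv l (sd l t) := by
  have h : md l t = (RR l (sd l t)).2.2.1 := by rw [← xd_rec]; rfl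
  rw [h]
  constructor
  · exact RR_mass l _
  · intro h
    rw [RR_three l _ h]
    change (1 + (sd l t).2.1)⁻¹ ≠ 0
    rw [Ne, ENNReal.inv_eq_zero]
    exact ENNReal.add_ne_top.2 ⟨ENNReal.one_ne_top, h.1.2⟩

theorem meas_chs (l : ℝ) (Φ : EE × EE → ℝ≥0∞) (hΦ : Measurable Φ) :
    Measurable fun t : Cfg D => chs l Φ t := by
  classical
  have h : (fun t : Cfg D => chs l Φ t) = fun t => ∑ a ∈ Finset.range D,
      if a < (t [] : ℕ) then
        Φ (∑ i ∈ (Finset.range D).erase a, (if i < (t [] : ℕ) then xd l (sh t i) else 0),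
          xd l (sh t a)) else 0 := by
    funext t
    have hD := (t []).2
    rw [← Finset.sum_filter]
    unfold chs
    have e1 : Finset.filter (fun a => a < (t [] : ℕ)) (Finset.range D) =
        Finset.range (t [] : ℕ) := by
      ext b
      simp only [Finset.mem_range, Finset.mem_filter]
      omega
    rw [e1]
    refine Finset.sum_congr rfl fun a _ => ?_
    congr 2
    rw [← Finset.sum_filter]
    refine Finset.sum_congr ?_ fun _ _ => rfl
    ext b
    simp only [Finset.mem_range, Finset.mem_filter, Finset.mem_erase]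
    omega
  rw [h]
  refine Finset.measurable_fun_sum _ fun a _ => ?_
  refine Measurable.ite (measurableSet_lt measurable_const (meas_coord _)) ?_ measurable_const
  refine hΦ.comp (Measurable.prodMk ?_ ((meas_xd l).comp (meas_sh a)))
  refine Finset.measurable_fun_sum _ fun i _ => ?_
  exact Measurable.ite (measurableSet_lt measurable_const (meas_coord _))
    ((meas_xd l).comp (meas_sh i)) measurable_const

end Pool.Agent.HL274.GW
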